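import Mathlib
import Pool.Agent.Helper924.HS.Stmt

set_option autoImplicit false

open CategoryTheory CategoryTheory.Limits AlgebraicGeometry

namespace Pool.Agent.Helper924.HS

theorem exists_closed_toQ_unique (B : CommRingCat.{0})
    (f g : Spec B ⟶ Spec (CommRingCat.of ℚ)) : f = g := by
  have h : Spec.preimage f = Spec.preimage g := by
    ext1
    exact RingHom.ext_rat _ _
  rw [← Spec.map_preimage f, ← Spec.map_preimage g, h]

/-- the ideal attached to a morphism from an affine scheme -/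
noncomputable def exists_closed_aa (H0 : Scheme.{0}) (s0 : H0 ⟶ Spec (CommRingCat.of ℚ))
    (a : ∀ (R : Type) [CommRing R] [Algebra ℚ R], PointsOver H0 s0 R → Ideal R)
    (B : CommRingCat.{0}) (f : Spec B ⟶ H0) : Ideal B :=
  letI : Algebra ℚ B := (Spec.preimage (f ≫ s0)).hom.toAlgebra
  a B ⟨f, exists_closed_toQ_unique _ _ _⟩

theorem exists_closed_aa_eq (H0 : Scheme.{0}) (s0 : H0 ⟶ Spec (CommRingCat.of ℚ))
    (a : ∀ (R : Type) [CommRing R] [Algebra ℚ R], PointsOver H0 s0 R → Ideal R)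
    (R : Type) [CommRing R] [i : Algebra ℚ R] (f : PointsOver H0 s0 R) :
    a R f = exists_closed_aa H0 s0 a (CommRingCat.of R) f.1 := by
  unfold exists_closed_aa
  have key : ∀ (i1 i2 : Algebra ℚ R) (f1 : @PointsOver H0 s0 R _ i1)
      (f2 : @PointsOver H0 s0 R _ i2), f1.1 = f2.1 → @a R _ i1 f1 = @a R _ i2 f2 := by
    intro i1 i2 f1 f2 h
    obtain rfl : i1 = i2 := Subsingleton.elim _ _
    congr 1
    exact Subtype.ext h
  exact key _ _ f _ rfl

theorem exists_closed_aa_map (H0 : Scheme.{0}) (s0 : H0 ⟶ Spec (CommRingCat.of ℚ))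
    (a : ∀ (R : Type) [CommRing R] [Algebra ℚ R], PointsOver H0 s0 R → Ideal R)
    (ha : ∀ (R R' : Type) [CommRing R] [Algebra ℚ R] [CommRing R'] [Algebra ℚ R']
      (φ : R →ₐ[ℚ] R') (f : PointsOver H0 s0 R) (f' : PointsOver H0 s0 R'),
      f'.1 = Spec.map (CommRingCat.ofHom φ.toRingHom) ≫ f.1 →
        a R' f' = (a R f).map φ.toRingHom)
    (B B' : CommRingCat.{0}) (φ : B ⟶ B') (f : Spec B ⟶ H0) :
    exists_closed_aa H0 s0 a B' (Spec.map φ ≫ f) = (exists_closed_aa H0 s0 a B f).map φ.hom := by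
  unfold exists_closed_aa
  let i1 : Algebra ℚ B := (Spec.preimage (f ≫ s0)).hom.toAlgebra
  let i2 : Algebra ℚ B' := (Spec.preimage ((Spec.map φ ≫ f) ≫ s0)).hom.toAlgebra
  let ψ : B →ₐ[ℚ] B' := { φ.hom with
    commutes' := fun r => RingHom.congr_fun (RingHom.ext_rat (φ.hom.comp (algebraMap ℚ B)) (algebraMap ℚ B')) r }
  exact ha B B' ψ ⟨f, exists_closed_toQ_unique _ _ _⟩
    ⟨Spec.map φ ≫ f, exists_closed_toQ_unique _ _ _⟩ rfl

/-- the ideal sheaf -/
noncomputable def exists_closed_J (H0 : Scheme.{0}) (s0 : H0 ⟶ Spec (CommRingCat.of ℚ))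
    (a : ∀ (R : Type) [CommRing R] [Algebra ℚ R], PointsOver H0 s0 R → Ideal R)
    (ha : ∀ (R R' : Type) [CommRing R] [Algebra ℚ R] [CommRing R'] [Algebra ℚ R']
      (φ : R →ₐ[ℚ] R') (f : PointsOver H0 s0 R) (f' : PointsOver H0 s0 R'),
      f'.1 = Spec.map (CommRingCat.ofHom φ.toRingHom) ≫ f.1 →
        a R' f' = (a R f).map φ.toRingHom) : H0.IdealSheafData where
  ideal U := exists_closed_aa H0 s0 a Γ(H0, U) U.2.fromSpec
  map_ideal_basicOpen U f := by
    rw [← exists_closed_aa_map H0 s0 a ha]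
    congr 1
    exact IsAffineOpen.map_fromSpec _ (H0.affineBasicOpen f).2 _

theorem exists_closed_fromSpec (R : CommRingCat.{0}) (V : (Spec R).Opens) (hV : IsAffineOpen V) :
    hV.fromSpec = Spec.map ((Scheme.ΓSpecIso R).inv ≫
      (Spec R).presheaf.map (homOfLE le_top).op) := by
  rw [Spec.map_comp, ← IsAffineOpen.fromSpec_toSpecΓ, Category.assoc,
    toSpecΓ_SpecMap_ΓSpecIso_inv, Category.comp_id]

theorem exists_closed_key (H0 : Scheme.{0}) (s0 : H0 ⟶ Spec (CommRingCat.of ℚ))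
    (a : ∀ (R : Type) [CommRing R] [Algebra ℚ R], PointsOver H0 s0 R → Ideal R)
    (ha : ∀ (R R' : Type) [CommRing R] [Algebra ℚ R] [CommRing R'] [Algebra ℚ R']
      (φ : R →ₐ[ℚ] R') (f : PointsOver H0 s0 R) (f' : PointsOver H0 s0 R'),
      f'.1 = Spec.map (CommRingCat.ofHom φ.toRingHom) ≫ f.1 →
        a R' f' = (a R f).map φ.toRingHom)
    (R : CommRingCat.{0}) (f : Spec R ⟶ H0) (U : H0.affineOpens) (V : (Spec R).affineOpens)
    (i : V.1 ≤ f ⁻¹ᵁ U.1) :
    (exists_closed_aa H0 s0 a R f).map ((Scheme.ΓSpecIso R).inv ≫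
      (Spec R).presheaf.map (homOfLE (le_top : V.1 ≤ ⊤)).op).hom =
    ((exists_closed_J H0 s0 a ha).ideal U).map (f.appLE U.1 V.1 i).hom := by
  rw [← exists_closed_aa_map H0 s0 a ha, ← exists_closed_fromSpec R V.1 V.2]
  show _ = (exists_closed_aa H0 s0 a Γ(H0, U) U.2.fromSpec).map (f.appLE U.1 V.1 i).hom
  rw [← exists_closed_aa_map H0 s0 a ha]
  exact congrArg _ (IsAffineOpen.SpecMap_appLE_fromSpec f U.2 V.2 i).symm

theorem exists_closed_iff (H0 : Scheme.{0}) (s0 : H0 ⟶ Spec (CommRingCat.of ℚ))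
    (a : ∀ (R : Type) [CommRing R] [Algebra ℚ R], PointsOver H0 s0 R → Ideal R)
    (ha : ∀ (R R' : Type) [CommRing R] [Algebra ℚ R] [CommRing R'] [Algebra ℚ R']
      (φ : R →ₐ[ℚ] R') (f : PointsOver H0 s0 R) (f' : PointsOver H0 s0 R'),
      f'.1 = Spec.map (CommRingCat.ofHom φ.toRingHom) ≫ f.1 →
        a R' f' = (a R f).map φ.toRingHom)
    (R : CommRingCat.{0}) (f : Spec R ⟶ H0) :
    (∀ U : H0.affineOpens, (exists_closed_J H0 s0 a ha).ideal U ≤ RingHom.ker (f.app U.1).hom) ↔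
      exists_closed_aa H0 s0 a R f = ⊥ := by
  constructor
  · intro h
    rw [eq_bot_iff]
    intro x hx
    have h0 : (Scheme.ΓSpecIso R).inv.hom x = 0 := by
      refine (Spec R).sheaf.eq_of_locally_eq'
        (fun p : {p : H0.affineOpens × (Spec R).affineOpens // p.2.1 ≤ f ⁻¹ᵁ p.1.1} => p.1.2.1) ⊤
        (fun p => homOfLE le_top) ?_ _ _ ?_
      · intro q _
        obtain ⟨_, ⟨U, hU, rfl⟩, hqU, -⟩ :=
          H0.isBasis_affineOpens.exists_subset_of_mem_open (Set.mem_univ (f q)) isOpen_univ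
        obtain ⟨_, ⟨V, hV, rfl⟩, hqV, hVU⟩ :=
          (Spec R).isBasis_affineOpens.exists_subset_of_mem_open
            (show q ∈ ((f ⁻¹ᵁ U : (Spec R).Opens) : Set (Spec R)) from hqU) (f ⁻¹ᵁ U).2
        exact TopologicalSpace.Opens.mem_iSup.mpr ⟨⟨(⟨U, hU⟩, ⟨V, hV⟩), hVU⟩, hqV⟩
      · rintro ⟨⟨U, V⟩, i⟩
        refine Eq.trans ?_ (map_zero ((Spec R).presheaf.map
          (homOfLE (le_top : V.1 ≤ ⊤)).op).hom).symm
        have hm : ((Scheme.ΓSpecIso R).inv ≫
            (Spec R).presheaf.map (homOfLE (le_top : V.1 ≤ ⊤)).op).hom x ∈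
            (exists_closed_aa H0 s0 a R f).map ((Scheme.ΓSpecIso R).inv ≫
            (Spec R).presheaf.map (homOfLE (le_top : V.1 ≤ ⊤)).op).hom :=
          Ideal.mem_map_of_mem _ hx
        rw [exists_closed_key H0 s0 a ha R f U V i] at hm
        have hz : ((exists_closed_J H0 s0 a ha).ideal U).map (f.appLE U.1 V.1 i).hom = ⊥ := by
          rw [Ideal.map_eq_bot_iff_le_ker]
          intro y hy
          have := h U hy
          rw [RingHom.mem_ker] at this ⊢
          rw [Scheme.Hom.appLE, CommRingCat.hom_comp, RingHom.comp_apply, this, map_zero]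
        rw [hz, Ideal.mem_bot] at hm
        exact hm
    have h1 := congrArg (Scheme.ΓSpecIso R).hom.hom h0
    rw [map_zero] at h1
    have h2 : (Scheme.ΓSpecIso R).hom.hom ((Scheme.ΓSpecIso R).inv.hom x) = x := by
      rw [← RingHom.comp_apply, ← CommRingCat.hom_comp, Iso.inv_hom_id]
      rfl
    rw [h2] at h1
    exact h1
  · intro h U y hy
    rw [RingHom.mem_ker]
    refine (Spec R).sheaf.eq_of_locally_eq'
      (fun p : {V : (Spec R).affineOpens // V.1 ≤ f ⁻¹ᵁ U.1} => p.1.1) (f ⁻¹ᵁ U.1)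
      (fun p => homOfLE p.2) ?_ _ _ ?_
    · intro q hq
      obtain ⟨_, ⟨V, hV, rfl⟩, hqV, hVU⟩ :=
        (Spec R).isBasis_affineOpens.exists_subset_of_mem_open
          (show q ∈ ((f ⁻¹ᵁ U.1 : (Spec R).Opens) : Set (Spec R)) from hq) (f ⁻¹ᵁ U.1).2
      exact TopologicalSpace.Opens.mem_iSup.mpr ⟨⟨⟨V, hV⟩, hVU⟩, hqV⟩
    · rintro ⟨V, i⟩
      refine Eq.trans ?_ (map_zero ((Spec R).presheaf.map (homOfLE i).op).hom).symm
      have hm : (f.appLE U.1 V.1 i).hom y ∈
          ((exists_closed_J H0 s0 a ha).ideal U).map (f.appLE U.1 V.1 i).hom :=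
        Ideal.mem_map_of_mem _ hy
      rw [← exists_closed_key H0 s0 a ha R f U V i, h, Ideal.map_bot, Ideal.mem_bot] at hm
      rw [Scheme.Hom.appLE, CommRingCat.hom_comp, RingHom.comp_apply] at hm
      exact hm

/-- A closed condition on the points of a scheme which is given by ideals compatible with base
change is represented by a closed subscheme. -/
theorem exists_closed (H0 : Scheme.{0}) (s0 : H0 ⟶ Spec (CommRingCat.of ℚ))
    (a : ∀ (R : Type) [CommRing R] [Algebra ℚ R], PointsOver H0 s0 R → Ideal R)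
    (ha : ∀ (R R' : Type) [CommRing R] [Algebra ℚ R] [CommRing R'] [Algebra ℚ R']
      (φ : R →ₐ[ℚ] R') (f : PointsOver H0 s0 R) (f' : PointsOver H0 s0 R'),
      f'.1 = Spec.map (CommRingCat.ofHom φ.toRingHom) ≫ f.1 →
        a R' f' = (a R f).map φ.toRingHom) :
    ∃ (H : Scheme.{0}) (ι : H ⟶ H0), Mono ι ∧
      ∀ (R : Type) [CommRing R] [Algebra ℚ R] (f : PointsOver H0 s0 R),
        (∃ g : Spec (CommRingCat.of R) ⟶ H, g ≫ ι = f.1) ↔ a R f = ⊥ := by
  refine ⟨(exists_closed_J H0 s0 a ha).subscheme, (exists_closed_J H0 s0 a ha).subschemeι,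
    inferInstance, ?_⟩
  intro R _ _ f
  rw [exists_closed_aa_eq H0 s0 a R f, ← exists_closed_iff H0 s0 a ha (CommRingCat.of R) f.1]
  have hle : (exists_closed_J H0 s0 a ha) ≤ f.1.ker ↔
      ∀ U : H0.affineOpens, (exists_closed_J H0 s0 a ha).ideal U ≤
        RingHom.ker (f.1.app U.1).hom := by
    rw [Scheme.Hom.ker, Scheme.IdealSheafData.le_ofIdeals_iff]
    rfl
  rw [← hle]
  constructor
  · rintro ⟨g, hg⟩
    rw [← hg]
    have := Scheme.Hom.le_ker_comp g (exists_closed_J H0 s0 a ha).subschemeι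
    rw [Scheme.IdealSheafData.ker_subschemeι] at this
    exact this
  · intro h
    refine ⟨f.1.toImage ≫ Scheme.IdealSheafData.inclusion h, ?_⟩
    rw [Category.assoc, Scheme.IdealSheafData.inclusion_subschemeι]
    exact f.1.toImage_imageι

end Pool.Agent.Helper924.HS
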