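import Mathlib
import Pool.Agent.Helper924.HS.Alg

set_option autoImplicit false

open MvPolynomial
open scoped TensorProduct

namespace Pool.Agent.Helper924.HS

section cod
variable {K : Type} [Field K]

/-- codimension of a space of forms in the forms of degree `m` -/
noncomputable def cod (m : ℕ) (W : Submodule K (S K)) : ℕ :=
  Module.finrank K (homogeneousSubmodule (Fin 4) K m) -
    Module.finrank K (W ⊓ homogeneousSubmodule (Fin 4) K m : Submodule K (S K))

lemma cod_ideal (I : Ideal (S K)) (m : ℕ) : cod m (I.restrictScalars K) = hf I m := rfl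

/-- multiples of `h` by forms of degree `n` -/
noncomputable def mS (h : S K) (n : ℕ) : Submodule K (S K) :=
  (homogeneousSubmodule (Fin 4) K n).map (LinearMap.mulLeft K h)

/-- forms of degree `n` whose multiple by `h` lies in `W` -/
noncomputable def col (W : Submodule K (S K)) (h : S K) (n : ℕ) : Submodule K (S K) :=
  W.comap (LinearMap.mulLeft K h) ⊓ homogeneousSubmodule (Fin 4) K n

lemma cod_anti {W W' : Submodule K (S K)} (h : W ≤ W') (n : ℕ) : cod n W' ≤ cod n W := by
  have : Module.Finite K (W' ⊓ homogeneousSubmodule (Fin 4) K n : Submodule K (S K)) :=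
    Submodule.finiteDimensional_of_le (S₂ := homogeneousSubmodule (Fin 4) K n) inf_le_right
  exact Nat.sub_le_sub_left (Submodule.finrank_mono (inf_le_inf_right _ h)) _

lemma cod_eq_zero {n : ℕ} {W : Submodule K (S K)} (hW : W ≤ homogeneousSubmodule (Fin 4) K n) :
    cod n W = 0 ↔ W = homogeneousSubmodule (Fin 4) K n := by
  unfold cod
  rw [inf_eq_left.2 hW]
  constructor
  · intro h
    exact Submodule.eq_of_le_of_finrank_le hW (Nat.sub_eq_zero_iff_le.1 h)
  · intro h
    rw [h, Nat.sub_self]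

/-- adding one vector lowers the codimension by at most one -/
lemma cod_span_sup_le {n : ℕ} (W : Submodule K (S K)) (v : S K)
    (hW : W ≤ homogeneousSubmodule (Fin 4) K n) (hv : v ∈ homogeneousSubmodule (Fin 4) K n) :
    cod n W ≤ cod n (W ⊔ Submodule.span K {v}) + 1 := by
  have h1 : W ⊔ Submodule.span K {v} ≤ homogeneousSubmodule (Fin 4) K n :=
    sup_le hW ((Submodule.span_singleton_le_iff_mem _ _).2 hv)
  unfold cod
  rw [inf_eq_left.2 hW, inf_eq_left.2 h1]
  have fW : Module.Finite K W := Submodule.finiteDimensional_of_le hW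
  have h2 : Module.finrank K (W ⊔ Submodule.span K {v} : Submodule K (S K)) ≤
      Module.finrank K W + Module.finrank K (Submodule.span K {v} : Submodule K (S K)) :=
    Submodule.finrank_add_le_finrank_add_finrank W (Submodule.span K {v})
  have h3 : Module.finrank K (Submodule.span K {v} : Submodule K (S K)) ≤ 1 := by
    have h := finrank_span_le_card (R := K) ({v} : Set (S K))
    simpa using h
  omega

lemma j17973_j17973_mS_le {n : ℕ} {h : S K} (hh : h.IsHomogeneous 1) :
    mS h n ≤ homogeneousSubmodule (Fin 4) K (n + 1) := by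
  rintro _ ⟨F, hF, rfl⟩
  rw [mem_homogeneousSubmodule, add_comm]
  exact hh.mul ((mem_homogeneousSubmodule n F).1 hF)

lemma j17973_j17973_rank (f : S K →ₗ[K] S K) (P : Submodule K (S K)) [Module.Finite K P] :
    Module.finrank K (P.map f) + Module.finrank K (P ⊓ LinearMap.ker f : Submodule K (S K)) =
      Module.finrank K P := by
  have h1 := LinearMap.finrank_range_add_finrank_ker (f.domRestrict P)
  rw [LinearMap.range_domRestrict] at h1
  have h2 : (LinearMap.ker (f.domRestrict P)).map P.subtype = P ⊓ LinearMap.ker f := by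
    rw [LinearMap.ker_domRestrict, Submodule.map_comap_subtype]
  rw [← h2, Submodule.finrank_map_subtype_eq]
  exact h1

/-- exact sequence: multiplication by a linear form -/
lemma cod_add {n : ℕ} {W : Submodule K (S K)} (hW : W ≤ homogeneousSubmodule (Fin 4) K (n + 1))
    {h : S K} (hh : h.IsHomogeneous 1) :
    cod (n + 1) W = cod (n + 1) (W ⊔ mS h n) + cod n (col W h n) := by
  have hm : mS h n ≤ homogeneousSubmodule (Fin 4) K (n + 1) := j17973_j17973_mS_le hh
  have hs : W ⊔ mS h n ≤ homogeneousSubmodule (Fin 4) K (n + 1) := sup_le hW hm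
  have hc : col W h n ≤ homogeneousSubmodule (Fin 4) K n := inf_le_right
  have fW : Module.Finite K W := Submodule.finiteDimensional_of_le hW
  have fm : Module.Finite K (mS h n) := Submodule.finiteDimensional_of_le hm
  have fs : Module.Finite K (W ⊔ mS h n : Submodule K (S K)) :=
    Submodule.finiteDimensional_of_le hs
  have fc : Module.Finite K (col W h n) := Submodule.finiteDimensional_of_le hc
  have e1 : Module.finrank K (W ⊔ mS h n : Submodule K (S K)) +
      Module.finrank K (W ⊓ mS h n : Submodule K (S K)) =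
      Module.finrank K W + Module.finrank K (mS h n) :=
    Submodule.finrank_sup_add_finrank_inf_eq W (mS h n)
  have e2 := j17973_j17973_rank (LinearMap.mulLeft K h) (homogeneousSubmodule (Fin 4) K n)
  have e3 := j17973_j17973_rank (LinearMap.mulLeft K h) (col W h n)
  have e4 : (col W h n).map (LinearMap.mulLeft K h) = W ⊓ mS h n := by
    ext F
    constructor
    · rintro ⟨G, ⟨hG1, hG2⟩, rfl⟩
      exact ⟨hG1, ⟨G, hG2, rfl⟩⟩
    · rintro ⟨hF, ⟨G, hG, rfl⟩⟩
      exact ⟨G, ⟨hF, hG⟩, rfl⟩
  have e5 : col W h n ⊓ LinearMap.ker (LinearMap.mulLeft K h) =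
      homogeneousSubmodule (Fin 4) K n ⊓ LinearMap.ker (LinearMap.mulLeft K h) := by
    ext F
    constructor
    · rintro ⟨⟨_, hF2⟩, hF3⟩
      exact ⟨hF2, hF3⟩
    · rintro ⟨hF2, hF3⟩
      refine ⟨⟨?_, hF2⟩, hF3⟩
      show (LinearMap.mulLeft K h) F ∈ W
      rw [LinearMap.mem_ker.1 hF3]
      exact W.zero_mem
  have e6 : (homogeneousSubmodule (Fin 4) K n).map (LinearMap.mulLeft K h) = mS h n := rfl
  rw [e4, e5] at e3
  have e8 : Module.finrank K (mS h n) +
      Module.finrank K (homogeneousSubmodule (Fin 4) K n ⊓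
        LinearMap.ker (LinearMap.mulLeft K h) : Submodule K (S K)) =
      Module.finrank K (homogeneousSubmodule (Fin 4) K n) := e2
  have e7 : Module.finrank K (W ⊓ mS h n : Submodule K (S K)) +
      Module.finrank K (homogeneousSubmodule (Fin 4) K n ⊓
        LinearMap.ker (LinearMap.mulLeft K h) : Submodule K (S K)) =
      Module.finrank K (col W h n) := e3
  have l1 : Module.finrank K W ≤ Module.finrank K (W ⊔ mS h n : Submodule K (S K)) :=
    Submodule.finrank_mono le_sup_left
  have l2 : Module.finrank K (W ⊔ mS h n : Submodule K (S K)) ≤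
      Module.finrank K (homogeneousSubmodule (Fin 4) K (n + 1)) := Submodule.finrank_mono hs
  have l3 : Module.finrank K (col W h n) ≤
      Module.finrank K (homogeneousSubmodule (Fin 4) K n) := Submodule.finrank_mono hc
  unfold cod
  rw [inf_eq_left.2 hW, inf_eq_left.2 hs, inf_eq_left.2 hc]
  clear e3 e2 e6
  omega

lemma mS_le {n : ℕ} {h : S K} (hh : h.IsHomogeneous 1) :
    mS h n ≤ homogeneousSubmodule (Fin 4) K (n + 1) := by
  exact j17973_j17973_mS_le hh

lemma cod_two {n : ℕ} {W : Submodule K (S K)} (hW : W ≤ homogeneousSubmodule (Fin 4) K (n + 2))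
    {h g : S K} (hh : h.IsHomogeneous 1) (hg : g.IsHomogeneous 1) :
    cod (n + 2) (W ⊔ mS g (n + 1)) ≤
      cod (n + 1) (col W h (n + 1) ⊔ mS g n) +
      cod (n + 2) (W ⊔ mS h (n + 1) ⊔ mS g (n + 1)) := by
  have hW' : W ⊔ mS g (n + 1) ≤ homogeneousSubmodule (Fin 4) K (n + 1 + 1) :=
    sup_le hW (mS_le hg)
  have h1 := cod_add hW' hh
  have h2 : col W h (n + 1) ⊔ mS g n ≤ col (W ⊔ mS g (n + 1)) h (n + 1) := by
    refine sup_le ?_ ?_
    · rintro F ⟨hF1, hF2⟩
      exact ⟨Submodule.mem_sup_left hF1, hF2⟩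
    · rintro _ ⟨F, hF, rfl⟩
      refine ⟨?_, mS_le hg ⟨F, hF, rfl⟩⟩
      show h * (g * F) ∈ W ⊔ mS g (n + 1)
      apply Submodule.mem_sup_right
      have e : h * (g * F) = g * (h * F) := by ring
      rw [e]
      exact ⟨h * F, mS_le hh ⟨F, hF, rfl⟩, rfl⟩
  have h3 := cod_anti h2 (n + 1)
  have h4 : W ⊔ mS g (n + 1) ⊔ mS h (n + 1) = W ⊔ mS h (n + 1) ⊔ mS g (n + 1) :=
    sup_right_comm _ _ _
  rw [h4] at h1
  have h5 : cod (n + 2) (W ⊔ mS g (n + 1)) = cod (n + 1 + 1) (W ⊔ mS g (n + 1)) := rfl
  have h6 : cod (n + 2) (W ⊔ mS h (n + 1) ⊔ mS g (n + 1)) =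
    cod (n + 1 + 1) (W ⊔ mS h (n + 1) ⊔ mS g (n + 1)) := rfl
  rw [h5, h6]
  omega

lemma j18002_x18002_lt {n : ℕ} {W : Submodule K (S K)} {v : S K}
    (hW : W ≤ homogeneousSubmodule (Fin 4) K n) (hv : v ∈ homogeneousSubmodule (Fin 4) K n)
    (hvW : v ∉ W) : cod n (W ⊔ Submodule.span K {v}) < cod n W := by
  have hW1 : W ⊔ Submodule.span K {v} ≤ homogeneousSubmodule (Fin 4) K n :=
    sup_le hW (by rw [Submodule.span_singleton_le_iff_mem]; exact hv)
  have hlt : W < W ⊔ Submodule.span K {v} := by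
    refine lt_of_le_of_ne le_sup_left ?_
    intro he
    apply hvW
    rw [he]
    exact Submodule.mem_sup_right (Submodule.mem_span_singleton_self v)
  haveI : FiniteDimensional K (W ⊔ Submodule.span K {v} : Submodule K (S K)) :=
    Submodule.finiteDimensional_of_le hW1
  have h1 : Module.finrank K W < Module.finrank K (W ⊔ Submodule.span K {v} : Submodule K (S K)) :=
    Submodule.finrank_lt_finrank_of_lt hlt
  have h2 : Module.finrank K (W ⊔ Submodule.span K {v} : Submodule K (S K)) ≤
      Module.finrank K (homogeneousSubmodule (Fin 4) K n) := Submodule.finrank_mono hW1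
  unfold cod
  rw [inf_eq_left.mpr hW, inf_eq_left.mpr hW1]
  omega

/-- enlarge `W` until the minimal codimension of a hyperplane restriction is `k` -/
lemma exists_enlarge {n : ℕ} {W : Submodule K (S K)}
    (hW : W ≤ homogeneousSubmodule (Fin 4) K (n + 1)) (k : ℕ)
    (h : ∀ g : S K, g.IsHomogeneous 1 → k ≤ cod (n + 1) (W ⊔ mS g n)) :
    ∃ W' : Submodule K (S K), W ≤ W' ∧ W' ≤ homogeneousSubmodule (Fin 4) K (n + 1) ∧
      (∀ g : S K, g.IsHomogeneous 1 → k ≤ cod (n + 1) (W' ⊔ mS g n)) ∧
      ∃ g : S K, g.IsHomogeneous 1 ∧ cod (n + 1) (W' ⊔ mS g n) = k := by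
  obtain ⟨m, hm⟩ : ∃ m, cod (n + 1) W = m := ⟨_, rfl⟩
  induction m using Nat.strong_induction_on generalizing W with
  | _ m ih =>
    by_cases hex : ∃ g : S K, g.IsHomogeneous 1 ∧ cod (n + 1) (W ⊔ mS g n) = k
    · exact ⟨W, le_rfl, hW, h, hex⟩
    · push Not at hex
      have h' : ∀ g : S K, g.IsHomogeneous 1 → k + 1 ≤ cod (n + 1) (W ⊔ mS g n) := by
        intro g hg
        have h1 := h g hg
        have h2 := hex g hg
        omega
      have h0 : 1 ≤ cod (n + 1) W := by
        have h1 := h' 0 (isHomogeneous_zero _ _ _)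
        have h2 := cod_anti (le_sup_left : W ≤ W ⊔ mS (0 : S K) n) (n + 1)
        omega
      have hne : W ≠ homogeneousSubmodule (Fin 4) K (n + 1) := by
        intro he
        have := (cod_eq_zero hW).mpr he
        omega
      obtain ⟨v, hv, hvW⟩ := SetLike.exists_of_lt (lt_of_le_of_ne hW hne)
      have hW1 : W ⊔ Submodule.span K {v} ≤ homogeneousSubmodule (Fin 4) K (n + 1) :=
        sup_le hW (by rw [Submodule.span_singleton_le_iff_mem]; exact hv)
      have hlt := j18002_x18002_lt hW hv hvW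
      have hcond : ∀ g : S K, g.IsHomogeneous 1 →
          k ≤ cod (n + 1) (W ⊔ Submodule.span K {v} ⊔ mS g n) := by
        intro g hg
        have h1 := h' g hg
        have h2 := cod_span_sup_le (W ⊔ mS g n) v (sup_le hW (mS_le hg)) hv
        rw [sup_right_comm]
        omega
      obtain ⟨W', hW', hW'2, hW'3, hW'4⟩ := ih _ (hm ▸ hlt) hW1 hcond rfl
      exact ⟨W', le_sup_left.trans hW', hW'2, hW'3, hW'4⟩

lemma j18009_j18009_rank {U V : Type} [AddCommGroup U] [Module K U] [Module.Finite K U] [AddCommGroup V]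
    [Module K V] (A B : U →ₗ[K] V) :
    ∃ p : Polynomial K, p ≠ 0 ∧ ∀ s, p.eval s ≠ 0 →
      Module.finrank K (LinearMap.range A) ≤ Module.finrank K (LinearMap.range (A + s • B)) := by
  classical
  let b := Module.finBasis K (LinearMap.range A)
  have hu' : ∀ i, ∃ u, A u = (b i : V) := fun i => (b i).2
  choose u hu using hu'
  obtain ⟨π, hπ⟩ := LinearMap.exists_leftInverse_of_injective (LinearMap.range A).subtype
    (Submodule.ker_subtype _)
  have hπ' : ∀ x : LinearMap.range A, π (x : V) = x := fun x => LinearMap.congr_fun hπ x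
  let φ : Fin (Module.finrank K (LinearMap.range A)) → V →ₗ[K] K := fun i => b.coord i ∘ₗ π
  have hφ : ∀ i j, φ i (A (u j)) = if i = j then 1 else 0 := by
    intro i j
    show b.coord i (π (A (u j))) = _
    rw [hu, hπ', Module.Basis.coord_apply, Module.Basis.repr_self, Finsupp.single_apply]
    by_cases h : i = j
    · rw [if_pos h, if_pos h.symm]
    · rw [if_neg h, if_neg (fun h' => h h'.symm)]
  let M : K → Matrix (Fin (Module.finrank K (LinearMap.range A)))
      (Fin (Module.finrank K (LinearMap.range A))) K :=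
    fun s => Matrix.of fun i j => φ i ((A + s • B) (u j))
  let p : Polynomial K := (Matrix.of fun i j : Fin (Module.finrank K (LinearMap.range A)) =>
    Polynomial.C (if i = j then (1 : K) else 0) + Polynomial.X * Polynomial.C (φ i (B (u j)))).det
  have heval : ∀ s, p.eval s = (M s).det := by
    intro s
    show (Polynomial.evalRingHom s) p = (M s).det
    rw [RingHom.map_det]
    congr 1
    ext i j
    simp only [RingHom.mapMatrix_apply, Matrix.map_apply, Matrix.of_apply, M,
      LinearMap.add_apply, LinearMap.smul_apply, map_add, map_smul, hφ,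
      Polynomial.coe_evalRingHom, Polynomial.eval_add, Polynomial.eval_C, Polynomial.eval_mul,
      Polynomial.eval_X, smul_eq_mul, map_mul, Polynomial.eval_one, map_one]
  refine ⟨p, ?_, ?_⟩
  · intro hp
    have h0 := heval 0
    rw [hp, Polynomial.eval_zero] at h0
    have hM : M 0 = 1 := by
      ext i j
      show φ i ((A + (0 : K) • B) (u j)) = _
      rw [zero_smul, add_zero, hφ, Matrix.one_apply]
    rw [hM, Matrix.det_one] at h0
    exact zero_ne_one h0
  · intro s hs
    rw [heval] at hs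
    let w : Fin (Module.finrank K (LinearMap.range A)) → LinearMap.range (A + s • B) :=
      fun j => ⟨(A + s • B) (u j), LinearMap.mem_range_self _ _⟩
    have hli : LinearIndependent K w := by
      let Φ : V →ₗ[K] (Fin (Module.finrank K (LinearMap.range A)) → K) := LinearMap.pi φ
      refine LinearIndependent.of_comp (Φ ∘ₗ (LinearMap.range (A + s • B)).subtype) ?_
      have h1 : IsUnit (M s).transpose := by
        rw [Matrix.isUnit_iff_isUnit_det, Matrix.det_transpose]
        exact isUnit_iff_ne_zero.2 hs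
      have h2 := Matrix.linearIndependent_rows_iff_isUnit.2 h1
      exact h2
    have h3 := hli.fintype_card_le_finrank
    rwa [Fintype.card_fin] at h3

lemma j18009_j18009_finrank {n : ℕ} {W : Submodule K (S K)} (hW : W ≤ homogeneousSubmodule (Fin 4) K n) :
    cod n W = Module.finrank K (homogeneousSubmodule (Fin 4) K n) - Module.finrank K W := by
  unfold cod
  rw [inf_eq_left.2 hW]

lemma j18009_j18009_semi {n : ℕ} {W : Submodule K (S K)}
    (hW : W ≤ homogeneousSubmodule (Fin 4) K (n + 1)) {g d : S K} (hg : g.IsHomogeneous 1)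
    (hd : d.IsHomogeneous 1) :
    ∃ p : Polynomial K, p ≠ 0 ∧ ∀ s : K, p.eval s ≠ 0 →
      cod (n + 1) (W ⊔ mS (g + s • d) n) ≤ cod (n + 1) (W ⊔ mS g n) := by
  have : Module.Finite K W :=
    Submodule.finiteDimensional_of_le (S₂ := homogeneousSubmodule (Fin 4) K (n + 1)) hW
  let L : S K → homogeneousSubmodule (Fin 4) K n →ₗ[K] S K :=
    fun h => (LinearMap.mulLeft K h) ∘ₗ (homogeneousSubmodule (Fin 4) K n).subtype
  have hrange : ∀ h : S K, LinearMap.range (W.subtype.coprod (L h)) = W ⊔ mS h n := by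
    intro h
    rw [LinearMap.range_coprod, Submodule.range_subtype]
    congr 1
    show LinearMap.range ((LinearMap.mulLeft K h) ∘ₗ (homogeneousSubmodule (Fin 4) K n).subtype) = _
    rw [LinearMap.range_comp, Submodule.range_subtype]
    rfl
  obtain ⟨p, hp, hps⟩ := j18009_j18009_rank (W.subtype.coprod (L g))
    ((0 : W →ₗ[K] S K).coprod (L d))
  refine ⟨p, hp, fun s hs => ?_⟩
  have h1 := hps s hs
  have h2 : W.subtype.coprod (L g) + s • ((0 : W →ₗ[K] S K).coprod (L d)) =
      W.subtype.coprod (L (g + s • d)) := by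
    apply LinearMap.ext
    rintro ⟨w, F⟩
    show ((w : S K) + g * (F : S K)) + s • ((0 : S K) + d * (F : S K)) =
      (w : S K) + (g + s • d) * (F : S K)
    rw [zero_add, add_mul, smul_mul_assoc, add_assoc]
  rw [h2, hrange, hrange] at h1
  have hgs : (g + s • d).IsHomogeneous 1 := by
    apply hg.add
    rw [← mem_homogeneousSubmodule] at hd ⊢
    exact Submodule.smul_mem _ s hd
  rw [j18009_j18009_finrank (sup_le hW (mS_le hgs)), j18009_j18009_finrank (sup_le hW (mS_le hg))]
  exact Nat.sub_le_sub_left h1 _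

/-- a general linear form minimises two codimensions at the same time -/
lemma exists_min2 [Infinite K] {n m : ℕ} {W1 W2 : Submodule K (S K)}
    (h1 : W1 ≤ homogeneousSubmodule (Fin 4) K (n + 1))
    (h2 : W2 ≤ homogeneousSubmodule (Fin 4) K (m + 1)) :
    ∃ g : S K, g.IsHomogeneous 1 ∧ ∀ g' : S K, g'.IsHomogeneous 1 →
      cod (n + 1) (W1 ⊔ mS g n) ≤ cod (n + 1) (W1 ⊔ mS g' n) ∧
      cod (m + 1) (W2 ⊔ mS g m) ≤ cod (m + 1) (W2 ⊔ mS g' m) := by
  classical
  have hmin : ∀ f : S K → ℕ, ∃ g : S K, g.IsHomogeneous 1 ∧ ∀ g' : S K, g'.IsHomogeneous 1 →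
      f g ≤ f g' := by
    intro f
    have hne : (f '' {g : S K | g.IsHomogeneous 1}).Nonempty :=
      ⟨_, ⟨0, isHomogeneous_zero _ _ _, rfl⟩⟩
    obtain ⟨g, hg, hgf⟩ := Nat.sInf_mem hne
    refine ⟨g, hg, fun g' hg' => ?_⟩
    rw [hgf]
    exact Nat.sInf_le ⟨g', hg', rfl⟩
  obtain ⟨g0, hg0, hm0⟩ := hmin fun g => cod (n + 1) (W1 ⊔ mS g n)
  obtain ⟨g1, hg1, hm1⟩ := hmin fun g => cod (m + 1) (W2 ⊔ mS g m)
  obtain ⟨p, hp, hps⟩ := j18009_j18009_semi h1 hg0 (hg1.sub hg0)
  obtain ⟨q, hq, hqs⟩ := j18009_j18009_semi h2 hg1 (hg0.sub hg1)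
  have hfin1 : {s : K | p.eval s = 0}.Finite := by
    refine (p.roots.toFinset.finite_toSet).subset fun s hs => ?_
    rw [Finset.mem_coe, Multiset.mem_toFinset, Polynomial.mem_roots hp]
    exact hs
  have hfin2 : {s : K | q.eval (1 - s) = 0}.Finite := by
    have h3 : {s : K | q.eval s = 0}.Finite := by
      refine (q.roots.toFinset.finite_toSet).subset fun s hs => ?_
      rw [Finset.mem_coe, Multiset.mem_toFinset, Polynomial.mem_roots hq]
      exact hs
    exact h3.preimage (f := fun s : K => 1 - s) (by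
      intro a _ b _ hab
      exact sub_right_injective hab)
  obtain ⟨s, hs⟩ := (hfin1.union hfin2).infinite_compl.nonempty
  rw [Set.mem_compl_iff, Set.mem_union, not_or] at hs
  have e1 := hps s hs.1
  have e2 := hqs (1 - s) hs.2
  have e3 : g1 + (1 - s) • (g0 - g1) = g0 + s • (g1 - g0) := by
    rw [sub_smul, one_smul, smul_sub, smul_sub]
    abel
  rw [e3] at e2
  have hgs : (g0 + s • (g1 - g0)).IsHomogeneous 1 := by
    apply hg0.add
    have hd := hg1.sub hg0
    rw [← mem_homogeneousSubmodule] at hd ⊢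
    exact Submodule.smul_mem _ s hd
  exact ⟨_, hgs, fun g' hg' => ⟨e1.trans (hm0 g' hg'), e2.trans (hm1 g' hg')⟩⟩

-- auxiliary lemmas (helper581)
lemma j18047_x581_matrix {a b : Fin 4 → K} (h : LinearIndependent K ![a, b]) :
    ∃ M : Matrix (Fin 4) (Fin 4) K, IsUnit M ∧ M 2 = a ∧ M 3 = b := by
  obtain ⟨C, hC⟩ := Submodule.exists_isCompl (Submodule.span K (Set.range ![a, b]))
  have h1 : Module.finrank K (Submodule.span K (Set.range ![a, b])) = 2 := by
    rw [finrank_span_eq_card h]; simp
  have h2 : Module.finrank K C = 2 := by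
    have := Submodule.finrank_add_eq_of_isCompl hC
    rw [h1] at this
    simp at this
    omega
  let B := Module.finBasisOfFinrankEq K C h2
  have hli : LinearIndependent K (fun i => (B i : Fin 4 → K)) :=
    B.linearIndependent.map' C.subtype (Submodule.ker_subtype C)
  have hspan : Submodule.span K (Set.range (fun i => (B i : Fin 4 → K))) ≤ C := by
    rw [Submodule.span_le]
    rintro _ ⟨i, rfl⟩
    exact (B i).2
  have hsum : LinearIndependent K (Sum.elim (fun i => (B i : Fin 4 → K)) ![a, b]) := by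
    apply LinearIndependent.sum_type hli h
    exact (hC.disjoint.symm).mono_left hspan
  let e : Fin 4 ≃ Fin 2 ⊕ Fin 2 := (finSumFinEquiv (m := 2) (n := 2)).symm
  refine ⟨Matrix.of (fun i => Sum.elim (fun i => (B i : Fin 4 → K)) ![a, b] (e i)), ?_, ?_, ?_⟩
  · rw [← Matrix.linearIndependent_rows_iff_isUnit]
    exact hsum.comp e e.injective
  · have : e 2 = Sum.inr 0 := rfl
    funext j
    simp [Matrix.of_apply, this]
  · have : e 3 = Sum.inr 1 := rfl
    funext j
    simp [Matrix.of_apply, this]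

/-- linear forms from coefficient vectors -/
noncomputable def j18047_x581_lin (v : Fin 4 → K) : S K := ∑ i, v i • X i

noncomputable def j18047_x581_linMap : (Fin 4 → K) →ₗ[K] S K :=
  { toFun := j18047_x581_lin
    map_add' := by intro v w; simp [j18047_x581_lin, add_smul, Finset.sum_add_distrib]
    map_smul' := by intro r v; simp [j18047_x581_lin, Finset.smul_sum, mul_smul] }

lemma j18047_x581_lin_hom (v : Fin 4 → K) : (j18047_x581_lin v).IsHomogeneous 1 := by
  unfold j18047_x581_lin
  apply IsHomogeneous.sum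
  intro i _
  rw [smul_eq_C_mul]
  exact isHomogeneous_C_mul_X _ _

lemma j18047_x581_exists_lin {e : S K} (he : e.IsHomogeneous 1) : ∃ v, j18047_x581_lin v = e := by
  have h1 : e ∈ homogeneousSubmodule (Fin 4) K 1 := he
  rw [homogeneousSubmodule_one_eq_span_X] at h1
  obtain ⟨v, hv⟩ := (Submodule.mem_span_range_iff_exists_fun K).mp h1
  exact ⟨v, hv⟩

/-- substitution of linear forms -/
noncomputable def j18047_x581_sub (M : Matrix (Fin 4) (Fin 4) K) : S K →ₐ[K] S K :=
  aeval (fun j => j18047_x581_lin (M j))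

lemma j18047_x581_sub_X (M : Matrix (Fin 4) (Fin 4) K) (j : Fin 4) : j18047_x581_sub M (X j) = j18047_x581_lin (M j) := by
  simp [j18047_x581_sub]

lemma j18047_x581_sub_lin (M : Matrix (Fin 4) (Fin 4) K) (v : Fin 4 → K) :
    j18047_x581_sub M (j18047_x581_lin v) = j18047_x581_lin (Matrix.vecMul v M) := by
  unfold j18047_x581_lin
  rw [map_sum]
  simp only [map_smul, j18047_x581_sub_X, j18047_x581_lin, Matrix.vecMul, dotProduct]
  simp only [Finset.smul_sum, Finset.sum_smul]
  rw [Finset.sum_comm]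
  apply Finset.sum_congr rfl; intro i _
  apply Finset.sum_congr rfl; intro j _
  rw [smul_smul]

lemma j18047_x581_sub_sub (M N : Matrix (Fin 4) (Fin 4) K) (F : S K) :
    j18047_x581_sub M (j18047_x581_sub N F) = j18047_x581_sub (N * M) F := by
  have : (j18047_x581_sub M).comp (j18047_x581_sub N) = j18047_x581_sub (N * M) := by
    apply MvPolynomial.algHom_ext
    intro j
    rw [AlgHom.comp_apply, j18047_x581_sub_X, j18047_x581_sub_X, j18047_x581_sub_lin]
    rfl
  exact DFunLike.congr_fun this F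

lemma j18047_x581_sub_one (F : S K) : j18047_x581_sub (1 : Matrix (Fin 4) (Fin 4) K) F = F := by
  have : j18047_x581_sub (1 : Matrix (Fin 4) (Fin 4) K) = AlgHom.id K (S K) := by
    apply MvPolynomial.algHom_ext
    intro j
    rw [j18047_x581_sub_X]
    unfold j18047_x581_lin
    rw [Finset.sum_eq_single j]
    · simp
    · intro i _ hi
      simp [Matrix.one_apply_ne' hi]
    · simp
  rw [this]
  rfl

lemma j18047_x581_sub_hom (M : Matrix (Fin 4) (Fin 4) K) {F : S K} {m : ℕ} (hF : F.IsHomogeneous m) :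
    (j18047_x581_sub M F).IsHomogeneous m := by
  have := hF.aeval (fun j => j18047_x581_lin (M j)) (fun j => j18047_x581_lin_hom (M j))
  rwa [one_mul] at this

/-- restriction to the line `x_2 = x_3 = 0`, dehomogenised -/
noncomputable def j18047_x581_r : S K →ₐ[K] Polynomial K := aeval ![1, Polynomial.X, 0, 0]

/-- section of the restriction in degree `m` -/
noncomputable def j18047_x581_s (m : ℕ) : Polynomial K →ₗ[K] S K :=
  { toFun := fun f => ∑ j ∈ Finset.range (m + 1), f.coeff j • (X 0 ^ (m - j) * X 1 ^ j)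
    map_add' := by intro f g; simp [add_smul, Finset.sum_add_distrib]
    map_smul' := by intro r f; simp [Finset.smul_sum, mul_smul] }

lemma j18047_x581_s_hom (m : ℕ) (f : Polynomial K) : (j18047_x581_s m f).IsHomogeneous m := by
  unfold j18047_x581_s
  simp only [LinearMap.coe_mk, AddHom.coe_mk]
  apply IsHomogeneous.sum
  intro j hj
  rw [Finset.mem_range] at hj
  rw [smul_eq_C_mul]
  have h1 := ((isHomogeneous_C (Fin 4) (f.coeff j)).mul
    (((isHomogeneous_X K (0 : Fin 4)).pow (m - j)).mul ((isHomogeneous_X K (1 : Fin 4)).pow j)))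
  have h2 : 0 + (1 * (m - j) + 1 * j) = m := by omega
  rwa [h2] at h1

lemma j18047_x581_r_s (m : ℕ) (f : Polynomial K) (hf : f ∈ Polynomial.degreeLT K (m + 1)) :
    j18047_x581_r (j18047_x581_s m f) = f := by
  unfold j18047_x581_s
  simp only [LinearMap.coe_mk, AddHom.coe_mk]
  rw [map_sum]
  have h1 : ∀ j, j18047_x581_r (f.coeff j • ((X 0 : S K) ^ (m - j) * X 1 ^ j)) = Polynomial.monomial j (f.coeff j) := by
    intro j
    rw [map_smul, map_mul, map_pow, map_pow]
    simp only [j18047_x581_r, aeval_X, Matrix.cons_val_zero, Matrix.cons_val_one, one_pow, one_mul]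
    rw [Polynomial.smul_eq_C_mul, Polynomial.C_mul_X_pow_eq_monomial]
  rw [Finset.sum_congr rfl (fun j _ => h1 j)]
  symm
  apply Polynomial.as_sum_range'
  rw [Polynomial.mem_degreeLT] at hf
  by_cases h0 : f = 0
  · simp [h0]
  · exact (Polynomial.natDegree_lt_iff_degree_lt h0).mpr hf

lemma j18047_x581_r_monomial (d : Fin 4 →₀ ℕ) (c : K) : j18047_x581_r (monomial d c) =
    if d 2 = 0 ∧ d 3 = 0 then Polynomial.monomial (d 1) c else 0 := by
  unfold j18047_x581_r
  rw [aeval_monomial, Finsupp.prod_fintype _ _ (by simp)]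
  simp only [Fin.prod_univ_four, Matrix.cons_val_zero, Matrix.cons_val_one, one_pow, one_mul,
    Matrix.cons_val]
  by_cases h2 : d 2 = 0
  · by_cases h3 : d 3 = 0
    · rw [if_pos ⟨h2, h3⟩, h2, h3]
      simp [Polynomial.C_mul_X_pow_eq_monomial]
    · rw [if_neg (fun h => h3 h.2), zero_pow h3]
      simp
  · rw [if_neg (fun h => h2 h.1), zero_pow h2]
    simp

lemma j18047_x581_r_mem {m : ℕ} {F : S K} (hF : F.IsHomogeneous m) :
    j18047_x581_r F ∈ Polynomial.degreeLT K (m + 1) := by
  rw [F.as_sum, map_sum]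
  apply Submodule.sum_mem
  intro d hd
  have hdeg : d.degree = m := by
    have := hF (MvPolynomial.mem_support_iff.mp hd)
    rwa [Finsupp.degree_eq_weight_one]
  rw [j18047_x581_r_monomial]
  split_ifs
  · rw [Polynomial.mem_degreeLT]
    refine lt_of_le_of_lt (Polynomial.degree_monomial_le _ _) ?_
    have : d 1 ≤ d.degree := Finsupp.le_degree 1 d
    exact_mod_cast (by omega : d 1 < m + 1)
  · exact Submodule.zero_mem _

lemma j18047_x581_sub_mem {m : ℕ} {F : S K} (hF : F.IsHomogeneous (m + 1)) :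
    F - j18047_x581_s (m + 1) (j18047_x581_r F) ∈ mS (X 2) m ⊔ mS (X 3) m := by
  have key : ∀ (d : Fin 4 →₀ ℕ) (c : K), d.degree = m + 1 →
      monomial d c - j18047_x581_s (m + 1) (j18047_x581_r (monomial d c)) ∈ mS (X 2) m ⊔ mS (X 3) m := by
    intro d c hd
    rw [j18047_x581_r_monomial]
    have hX : ∀ i : Fin 4, d i ≠ 0 → monomial d c ∈ mS (X i) m := by
      intro i hi
      have h1 : (d - Finsupp.single i 1) + Finsupp.single i 1 = d := by
        ext j
        simp only [Finsupp.coe_add, Finsupp.coe_tsub, Pi.add_apply, Pi.sub_apply]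
        by_cases hj : j = i
        · subst hj; simp; omega
        · simp [Ne.symm hj]
      refine ⟨monomial (d - Finsupp.single i 1) c, ?_, ?_⟩
      · apply isHomogeneous_monomial
        have h2 := congrArg Finsupp.degree h1
        rw [map_add, Finsupp.degree_single, hd] at h2
        omega
      · simp only [LinearMap.mulLeft_apply]
        rw [X, monomial_mul, one_mul, add_comm, h1]
    by_cases h2 : d 2 = 0
    · by_cases h3 : d 3 = 0
      · rw [if_pos ⟨h2, h3⟩]
        have hdeg : d 0 + d 1 = m + 1 := by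
          rw [Finsupp.degree_eq_sum, Fin.sum_univ_four, h2, h3] at hd
          omega
        have h4 : j18047_x581_s (m + 1) (Polynomial.monomial (d 1) c) = monomial d c := by
          unfold j18047_x581_s
          simp only [LinearMap.coe_mk, AddHom.coe_mk]
          rw [Finset.sum_eq_single (d 1)]
          · rw [Polynomial.coeff_monomial_same, smul_eq_C_mul, monomial_eq]
            rw [Finsupp.prod_fintype _ _ (by simp), Fin.prod_univ_four, h2, h3]
            rw [show m + 1 - d 1 = d 0 by omega]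
            simp
          · intro j _ hj
            rw [Polynomial.coeff_monomial_of_ne _ hj, zero_smul]
          · intro h
            exact absurd (Finset.mem_range.mpr (by omega)) h
        rw [h4, sub_self]
        exact Submodule.zero_mem _
      · rw [if_neg (fun h => h3 h.2), map_zero, sub_zero]
        exact Submodule.mem_sup_right (hX 3 h3)
    · rw [if_neg (fun h => h2 h.1), map_zero, sub_zero]
      exact Submodule.mem_sup_left (hX 2 h2)
  have h1 : F - j18047_x581_s (m + 1) (j18047_x581_r F) = ∑ d ∈ F.support, (monomial d (coeff d F)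
      - j18047_x581_s (m + 1) (j18047_x581_r (monomial d (coeff d F)))) := by
    rw [Finset.sum_sub_distrib, ← map_sum, ← map_sum, ← F.as_sum]
  rw [h1]
  apply Submodule.sum_mem
  intro d hd
  apply key
  have := hF (MvPolynomial.mem_support_iff.mp hd)
  rwa [Finsupp.degree_eq_weight_one]

/-- restriction to the line `e = h = 0` -/
lemma j18047_x581_line {e h : S K} (he : e.IsHomogeneous 1) (hh : h.IsHomogeneous 1)
    (hind : LinearIndependent K ![e, h]) :
    ∃ ρ : S K →ₐ[K] Polynomial K,
      (∀ m (F : S K), F.IsHomogeneous m → ρ F ∈ Polynomial.degreeLT K (m + 1)) ∧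
      (∀ m, ∀ f ∈ Polynomial.degreeLT K (m + 1), ∃ F : S K, F.IsHomogeneous m ∧ ρ F = f) ∧
      (∀ n (F : S K), F.IsHomogeneous (n + 1) → (ρ F = 0 ↔ F ∈ mS e n ⊔ mS h n)) := by
  obtain ⟨a, rfl⟩ := j18047_x581_exists_lin he
  obtain ⟨b, rfl⟩ := j18047_x581_exists_lin hh
  have hab : LinearIndependent K ![a, b] := by
    apply LinearIndependent.of_comp (j18047_x581_linMap (K := K))
    convert hind using 1
    funext i
    fin_cases i <;> rfl
  obtain ⟨M, hM, hM2, hM3⟩ := j18047_x581_matrix hab
  have hdet : IsUnit M.det := (Matrix.isUnit_iff_isUnit_det M).mp hM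
  have h1 : M⁻¹ * M = 1 := Matrix.nonsing_inv_mul M hdet
  have h2 : M * M⁻¹ = 1 := Matrix.mul_nonsing_inv M hdet
  -- `φ = sub M` sends `X 2` to `e`; `ψ = sub M⁻¹` is its inverse
  have hφψ : ∀ F, j18047_x581_sub M (j18047_x581_sub M⁻¹ F) = F := by
    intro F; rw [j18047_x581_sub_sub, h1, j18047_x581_sub_one]
  have hψφ : ∀ F, j18047_x581_sub M⁻¹ (j18047_x581_sub M F) = F := by
    intro F; rw [j18047_x581_sub_sub, h2, j18047_x581_sub_one]
  refine ⟨j18047_x581_r.comp (j18047_x581_sub M⁻¹), ?_, ?_, ?_⟩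
  · intro m F hF
    exact j18047_x581_r_mem (j18047_x581_sub_hom _ hF)
  · intro m f hf
    refine ⟨j18047_x581_sub M (j18047_x581_s m f), j18047_x581_sub_hom _ (j18047_x581_s_hom m f), ?_⟩
    rw [AlgHom.comp_apply, hψφ, j18047_x581_r_s m f hf]
  · intro n F hF
    rw [AlgHom.comp_apply]
    constructor
    · intro h0
      have h3 := j18047_x581_sub_mem (m := n) (j18047_x581_sub_hom M⁻¹ hF)
      rw [h0, map_zero, sub_zero] at h3
      obtain ⟨u, ⟨u', hu', rfl⟩, v, ⟨v', hv', rfl⟩, huv⟩ := Submodule.mem_sup.mp h3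
      have h4 := congrArg (j18047_x581_sub M) huv
      rw [hφψ, map_add] at h4
      simp only [LinearMap.mulLeft_apply, map_mul, j18047_x581_sub_X, hM2, hM3] at h4
      rw [← h4]
      apply Submodule.add_mem_sup
      · exact ⟨j18047_x581_sub M u', j18047_x581_sub_hom M hu', rfl⟩
      · exact ⟨j18047_x581_sub M v', j18047_x581_sub_hom M hv', rfl⟩
    · intro h0
      obtain ⟨u, ⟨u', hu', rfl⟩, v, ⟨v', hv', rfl⟩, huv⟩ := Submodule.mem_sup.mp h0
      have e2 : j18047_x581_sub M⁻¹ (j18047_x581_lin a) = X 2 := by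
        rw [← hM2, ← j18047_x581_sub_X, hψφ]
      have e3 : j18047_x581_sub M⁻¹ (j18047_x581_lin b) = X 3 := by
        rw [← hM3, ← j18047_x581_sub_X, hψφ]
      rw [← huv]
      simp only [LinearMap.mulLeft_apply, map_add, map_mul, e2, e3]
      simp [j18047_x581_r]

lemma j18047_x581_map {ρ : S K →ₐ[K] Polynomial K}
    (h1 : ∀ m (F : S K), F.IsHomogeneous m → ρ F ∈ Polynomial.degreeLT K (m + 1))
    (h2 : ∀ m, ∀ f ∈ Polynomial.degreeLT K (m + 1), ∃ F : S K, F.IsHomogeneous m ∧ ρ F = f) (m : ℕ) :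
    (homogeneousSubmodule (Fin 4) K m).map ρ.toLinearMap = Polynomial.degreeLT K (m + 1) := by
  ext f
  constructor
  · rintro ⟨F, hF, rfl⟩
    exact h1 m F hF
  · intro hf
    obtain ⟨F, hF, rfl⟩ := h2 m f hf
    exact ⟨F, hF, rfl⟩

/-- the forms vanishing on a line -/
lemma cod_line {n : ℕ} {e h : S K} (he : e.IsHomogeneous 1) (hh : h.IsHomogeneous 1)
    (hind : LinearIndependent K ![e, h]) :
    cod (n + 1) (mS e n ⊔ mS h n) = n + 2 := by
  obtain ⟨ρ, h1, h2, h3⟩ := j18047_x581_line he hh hind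
  have h4 : cod (n + 1) (mS e n ⊔ mS h n) = cod (n + 1) ((RingHom.ker ρ).restrictScalars K) := by
    unfold cod
    have h5 : (mS e n ⊔ mS h n : Submodule K (S K)) ⊓ homogeneousSubmodule (Fin 4) K (n + 1)
        = (RingHom.ker ρ).restrictScalars K ⊓ homogeneousSubmodule (Fin 4) K (n + 1) := by
      ext F
      constructor
      · rintro ⟨hF1, hF2⟩
        exact ⟨(h3 n F hF2).mpr hF1, hF2⟩
      · rintro ⟨hF1, hF2⟩
        exact ⟨(h3 n F hF2).mp hF1, hF2⟩
    rw [h5]
  rw [h4, cod_ideal, hf_ker, j18047_x581_map h1 h2, (Polynomial.degreeLTEquiv K (n + 1 + 1)).finrank_eq]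
  simp

/-- a space of forms which does not restrict onto the forms on a point of the line -/
lemma eq_of_line [Infinite K] {n : ℕ} {e h : S K} (he : e.IsHomogeneous 1)
    (hh : h.IsHomogeneous 1) (hind : LinearIndependent K ![e, h]) {W : Submodule K (S K)}
    (hW : W ≤ homogeneousSubmodule (Fin 4) K (n + 1)) (h1 : mS e n ⊔ mS h n ≤ W)
    (h2 : ∀ g : S K, g.IsHomogeneous 1 → cod (n + 1) (W ⊔ mS g n) ≠ 0) :
    W = mS e n ⊔ mS h n := by
  obtain ⟨ρ, r1, r2, r3⟩ := j18047_x581_line he hh hind
  apply le_antisymm _ h1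
  intro w hw
  by_contra hn
  have hw0 : ρ w ≠ 0 := fun h0 => hn ((r3 n w (hW hw)).mp h0)
  obtain ⟨α, hα⟩ : ∃ α, (ρ w).eval α ≠ 0 := by
    by_contra hcon
    push Not at hcon
    exact hw0 (Polynomial.funext (fun x => by rw [hcon x, Polynomial.eval_zero]))
  have hlin : (Polynomial.X - Polynomial.C α) ∈ Polynomial.degreeLT K (1 + 1) := by
    rw [Polynomial.mem_degreeLT]
    exact lt_of_le_of_lt (Polynomial.degree_X_sub_C_le α) (by norm_num)
  obtain ⟨g, hg, hρg⟩ := r2 1 _ hlin
  apply h2 g hg
  have hle : W ⊔ mS g n ≤ homogeneousSubmodule (Fin 4) K (n + 1) := sup_le hW (mS_le hg)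
  rw [cod_eq_zero hle]
  apply le_antisymm hle
  intro F hF
  -- subtract a multiple of `w`
  set c : K := (ρ F).eval α / (ρ w).eval α with hc
  have hF2 : (F - c • w) ∈ homogeneousSubmodule (Fin 4) K (n + 1) :=
    Submodule.sub_mem _ hF (Submodule.smul_mem _ _ (hW hw))
  have hroot : (ρ (F - c • w)).IsRoot α := by
    rw [Polynomial.IsRoot, map_sub, map_smul, Polynomial.eval_sub, Polynomial.eval_smul, hc]
    simp only [smul_eq_mul]
    field_simp
    ring
  obtain ⟨q, hq⟩ := Polynomial.dvd_iff_isRoot.mpr hroot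
  have hdegF := r1 (n + 1) _ hF2
  have hqdeg : q ∈ Polynomial.degreeLT K (n + 1) := by
    rw [Polynomial.mem_degreeLT] at hdegF ⊢
    by_cases hq0 : q = 0
    · rw [hq0, Polynomial.degree_zero]; exact WithBot.bot_lt_coe _
    · rw [hq, Polynomial.degree_mul, Polynomial.degree_X_sub_C, Polynomial.degree_eq_natDegree hq0] at hdegF
      rw [Polynomial.degree_eq_natDegree hq0]
      have h5 : (1 + q.natDegree) < n + 1 + 1 := by exact_mod_cast hdegF
      exact_mod_cast (by omega : q.natDegree < n + 1)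
  obtain ⟨G, hG, hρG⟩ := r2 n q hqdeg
  have hker : F - c • w - g * G ∈ mS e n ⊔ mS h n := by
    have hgG : (g * G) ∈ homogeneousSubmodule (Fin 4) K (n + 1) := mS_le hg ⟨G, hG, rfl⟩
    apply (r3 n _ (Submodule.sub_mem _ hF2 hgG)).mp
    rw [map_sub, hq, map_mul, hρg, hρG, sub_self]
  have e1 : F = (F - c • w - g * G) + c • w + g * G := by ring
  rw [e1]
  apply Submodule.add_mem
  · apply Submodule.mem_sup_left
    exact Submodule.add_mem _ (h1 hker) (Submodule.smul_mem _ _ hw)
  · apply Submodule.mem_sup_right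
    exact ⟨G, hG, rfl⟩

lemma j18054_gp_zero_le (n : ℕ) (W : Submodule K (S K)) : mS (0 : S K) n ≤ W := by
  rintro _ ⟨F, _, rfl⟩
  show (0 : S K) * F ∈ W
  rw [zero_mul]
  exact W.zero_mem

lemma j18054_gp_eq_of_cod {n : ℕ} {W W' : Submodule K (S K)} (h : W ≤ W')
    (hW' : W' ≤ homogeneousSubmodule (Fin 4) K n) (hc : cod n W ≤ cod n W') : W = W' := by
  have hW : W ≤ homogeneousSubmodule (Fin 4) K n := h.trans hW'
  have : FiniteDimensional K (W' : Submodule K (S K)) := Submodule.finiteDimensional_of_le hW'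
  refine Submodule.eq_of_le_of_finrank_eq h ?_
  unfold cod at hc
  rw [inf_eq_left.mpr hW, inf_eq_left.mpr hW'] at hc
  have h1 : Module.finrank K W' ≤ Module.finrank K (homogeneousSubmodule (Fin 4) K n) :=
    Submodule.finrank_mono hW'
  have h2 : Module.finrank K W ≤ Module.finrank K W' := Submodule.finrank_mono h
  omega

lemma j18054_gp_hom_le {n : ℕ} {W : Submodule K (S K)} (h : ∀ i : Fin 4, mS (X i : S K) n ≤ W) :
    homogeneousSubmodule (Fin 4) K (n + 1) ≤ W := by
  intro F hF
  have hF' : F.IsHomogeneous (n + 1) := (mem_homogeneousSubmodule _ _).1 hF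
  rw [← support_sum_monomial_coeff F]
  refine Submodule.sum_mem _ fun m hm => ?_
  have hdeg : m.degree = n + 1 := (hF'.degree_eq_sum_deg_support hm).symm
  have hne : ∃ i, m i ≠ 0 := by
    by_contra hcon
    push Not at hcon
    have h0 : m = 0 := Finsupp.ext hcon
    rw [h0] at hdeg
    simp at hdeg
  obtain ⟨i, hi⟩ := hne
  have hle : Finsupp.single i 1 ≤ m := by
    rw [Finsupp.single_le_iff]
    exact Nat.one_le_iff_ne_zero.mpr hi
  have hmi : Finsupp.single i 1 + (m - Finsupp.single i 1) = m := add_tsub_cancel_of_le hle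
  have hdeg2 : (m - Finsupp.single i 1).degree = n := by
    have h3 := congrArg Finsupp.degree hmi
    rw [map_add, hdeg, Finsupp.degree_single] at h3
    omega
  refine h i ⟨monomial (m - Finsupp.single i 1) (coeff m F), ?_, ?_⟩
  · exact (mem_homogeneousSubmodule _ _).2 (isHomogeneous_monomial _ hdeg2)
  · show X i * monomial (m - Finsupp.single i 1) (coeff m F) = monomial m (coeff m F)
    rw [X, monomial_mul, one_mul, hmi]

lemma j18054_gp_full {n : ℕ} {W : Submodule K (S K)} (hW : W ≤ homogeneousSubmodule (Fin 4) K (n + 1))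
    (h : ∀ g : S K, g.IsHomogeneous 1 → cod (n + 1) W ≤ cod (n + 1) (W ⊔ mS g n)) :
    cod (n + 1) W = 0 := by
  rw [cod_eq_zero hW]
  refine le_antisymm hW (j18054_gp_hom_le fun i => ?_)
  have hX : (X i : S K).IsHomogeneous 1 := isHomogeneous_X K i
  have h1 := j18054_gp_eq_of_cod (le_sup_left : W ≤ W ⊔ mS (X i) n) (sup_le hW (mS_le hX)) (h _ hX)
  rw [h1]
  exact le_sup_right

lemma j18054_gp_base {W : Submodule K (S K)} (hW : W ≤ homogeneousSubmodule (Fin 4) K (0 + 1))
    (h2 : ∀ g : S K, g.IsHomogeneous 1 → 1 ≤ cod (0 + 1) (W ⊔ mS g 0)) :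
    2 ≤ cod (0 + 1) W := by
  by_contra hcon
  have h3 : cod (0 + 1) W ≤ 1 := by omega
  have h4 := j18054_gp_full hW (fun g hg => h3.trans (h2 g hg))
  have h5 := h2 0 (isHomogeneous_zero _ _ _)
  have h6 := cod_anti (le_sup_left : W ≤ W ⊔ mS (0 : S K) 0) (0 + 1)
  omega

lemma j18054_gp_col_le {n : ℕ} {W : Submodule K (S K)} {e : S K} (h : S K) (he : e.IsHomogeneous 1)
    (h1 : mS e (n + 1) ≤ W) (hh : h.IsHomogeneous 1) : mS e n ≤ col W h (n + 1) := by
  rintro _ ⟨F, hF, rfl⟩
  have hF' : F.IsHomogeneous n := (mem_homogeneousSubmodule _ _).1 hF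
  refine ⟨?_, ?_⟩
  · show h * (e * F) ∈ W
    have h3 : h * (e * F) = e * (h * F) := by ring
    rw [h3]
    refine h1 ⟨h * F, ?_, rfl⟩
    have h4 := hh.mul hF'
    rw [add_comm] at h4
    exact (mem_homogeneousSubmodule _ _).2 h4
  · have h4 := he.mul hF'
    rw [add_comm] at h4
    exact (mem_homogeneousSubmodule _ _).2 h4

/-- Green's theorem for the plane `e = 0`, restriction number zero -/
lemma green_plane [Infinite K] {n : ℕ} {e : S K} (he : e.IsHomogeneous 1) (he0 : e ≠ 0)
    {W : Submodule K (S K)} (hW : W ≤ homogeneousSubmodule (Fin 4) K (n + 1))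
    (h1 : mS e n ≤ W)
    (h2 : ∀ g : S K, g.IsHomogeneous 1 → 1 ≤ cod (n + 1) (W ⊔ mS g n)) :
    n + 2 ≤ cod (n + 1) W := by
  induction n generalizing W with
  | zero => exact j18054_gp_base hW h2
  | succ n ih =>
    obtain ⟨W', hWW', hW', h2', h, hh, hcod⟩ := exists_enlarge hW 1 h2
    refine le_trans ?_ (cod_anti hWW' (n + 1 + 1))
    have h1' : mS e (n + 1) ≤ W' := h1.trans hWW'
    by_cases hind : LinearIndependent K ![e, h]
    · have hW2 : col W' h (n + 1) ≤ homogeneousSubmodule (Fin 4) K (n + 1) := inf_le_right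
      have hW1 : W' ⊔ mS h (n + 1) ≤ homogeneousSubmodule (Fin 4) K (n + 1 + 1) :=
        sup_le hW' (mS_le hh)
      obtain ⟨g, hg, hmin⟩ := exists_min2 (n := n + 1) (m := n) hW1 hW2
      have hadd := cod_add hW' hh
      rw [hcod] at hadd
      by_cases h0 : cod (n + 1 + 1) (W' ⊔ mS h (n + 1) ⊔ mS g (n + 1)) = 0
      · have h3 := cod_two hW' hh hg
        rw [h0, add_zero] at h3
        have h4 := h2' g hg
        have h5 := ih hW2 (j18054_gp_col_le h he h1' hh) (fun g' hg' => by
          have h6 := (hmin g' hg').2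
          exact (h4.trans h3).trans h6)
        omega
      · exfalso
        have h3 : ∀ g' : S K, g'.IsHomogeneous 1 →
            cod (n + 1 + 1) (W' ⊔ mS h (n + 1) ⊔ mS g' (n + 1)) ≠ 0 := by
          intro g' hg' h4
          have h5 := (hmin g' hg').1
          omega
        have h4 := eq_of_line he hh hind hW1 (sup_le (h1'.trans le_sup_left) le_sup_right) h3
        have h5 := cod_line (n := n + 1) he hh hind
        rw [← h4, hcod] at h5
        omega
    · exfalso
      rw [LinearIndependent.pair_iff' he0] at hind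
      push Not at hind
      obtain ⟨a, ha⟩ := hind
      have h3 : mS h (n + 1) ≤ W' := by
        refine le_trans ?_ h1'
        rintro _ ⟨F, hF, rfl⟩
        refine ⟨a • F, Submodule.smul_mem _ _ hF, ?_⟩
        show e * (a • F) = h * F
        rw [← ha, smul_mul_assoc, mul_smul_comm]
      rw [sup_eq_left.mpr h3] at hcod
      have h4 := j18054_gp_full hW' (fun g hg => by rw [hcod]; exact h2' g hg)
      omega

/-- Green's theorem for space -/
lemma green_space [Infinite K] {n d : ℕ} (hn : d ≤ n + 1)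
    {W : Submodule K (S K)} (hW : W ≤ homogeneousSubmodule (Fin 4) K (n + 1))
    (h2 : ∀ g : S K, g.IsHomogeneous 1 → d + 1 ≤ cod (n + 1) (W ⊔ mS g n)) :
    (d + 1) * (n + 2 - d) ≤ cod (n + 1) W := by
  induction n generalizing W d with
  | zero =>
    rcases Nat.lt_or_ge d 1 with hd | hd
    · have hd0 : d = 0 := by omega
      subst hd0
      have h3 := j18054_gp_base hW h2
      omega
    · have hd1 : d = 1 := by omega
      subst hd1
      have h3 := h2 0 (isHomogeneous_zero _ _ _)
      have h4 := cod_anti (le_sup_left : W ≤ W ⊔ mS (0 : S K) 0) (0 + 1)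
      omega
  | succ n ih =>
    rcases Nat.lt_or_ge (n + 1) d with hd | hd
    · have hd1 : d = n + 1 + 1 := by omega
      have h3 := h2 0 (isHomogeneous_zero _ _ _)
      have h4 := cod_anti (le_sup_left : W ≤ W ⊔ mS (0 : S K) (n + 1)) (n + 1 + 1)
      have h5 : n + 1 + 2 - d = 1 := by omega
      rw [h5, mul_one]
      omega
    · obtain ⟨W', hWW', hW', h2', h, hh, hcod⟩ := exists_enlarge hW (d + 1) h2
      refine le_trans ?_ (cod_anti hWW' (n + 1 + 1))
      have hh0 : h ≠ 0 := by
        intro h0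
        rw [h0, sup_eq_left.mpr (j18054_gp_zero_le _ _)] at hcod
        have h4 := j18054_gp_full hW' (fun g hg => by rw [hcod]; exact h2' g hg)
        omega
      have hW2 : col W' h (n + 1) ≤ homogeneousSubmodule (Fin 4) K (n + 1) := inf_le_right
      have hW1 : W' ⊔ mS h (n + 1) ≤ homogeneousSubmodule (Fin 4) K (n + 1 + 1) :=
        sup_le hW' (mS_le hh)
      have hex : ∃ g0 : S K, g0.IsHomogeneous 1 ∧
          cod (n + 1 + 1) (W' ⊔ mS h (n + 1) ⊔ mS g0 (n + 1)) = 0 := by
        by_contra hcon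
        push Not at hcon
        have h3 := green_plane hh hh0 hW1 le_sup_right (fun g hg => by
          have := hcon g hg
          omega)
        omega
      obtain ⟨g0, hg0, hcg0⟩ := hex
      obtain ⟨g, hg, hmin⟩ := exists_min2 (n := n + 1) (m := n) hW1 hW2
      have hadd := cod_add hW' hh
      rw [hcod] at hadd
      have h0 : cod (n + 1 + 1) (W' ⊔ mS h (n + 1) ⊔ mS g (n + 1)) = 0 := by
        have := (hmin g0 hg0).1
        omega
      have h3 := cod_two hW' hh hg
      rw [h0, add_zero] at h3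
      have h4 := h2' g hg
      have h5 := ih (d := d) hd hW2 (fun g' hg' => (h4.trans h3).trans (hmin g' hg').2)
      have h6 : n + 1 + 2 - d = (n + 2 - d) + 1 := by omega
      rw [hadd, h6, mul_add, mul_one]
      omega

lemma j18061_j18061_cod_lt {n : ℕ} {W W' : Submodule K (S K)} (h : W < W')
    (hW' : W' ≤ homogeneousSubmodule (Fin 4) K n) : cod n W' < cod n W := by
  have hW : W ≤ homogeneousSubmodule (Fin 4) K n := h.le.trans hW'
  unfold cod
  rw [inf_eq_left.2 hW, inf_eq_left.2 hW']
  haveI : Module.Finite K W' := Submodule.finiteDimensional_of_le hW'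
  have h1 := Submodule.finrank_lt_finrank_of_lt h
  have h2 : Module.finrank K W' ≤ Module.finrank K (homogeneousSubmodule (Fin 4) K n) :=
    Submodule.finrank_mono hW'
  omega

lemma j18061_j18061_exists_cod {n e : ℕ} (j : ℕ) : ∀ U : Submodule K (S K),
    U ≤ homogeneousSubmodule (Fin 4) K n → cod n U = e + j →
    ∃ W : Submodule K (S K), U ≤ W ∧ W ≤ homogeneousSubmodule (Fin 4) K n ∧ cod n W = e := by
  induction j with
  | zero => exact fun U hU h => ⟨U, le_rfl, hU, h⟩
  | succ j ih =>
    intro U hU h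
    have hne : U ≠ homogeneousSubmodule (Fin 4) K n := by
      intro h1
      have := (cod_eq_zero hU).2 h1
      omega
    obtain ⟨v, hv, hvU⟩ := SetLike.exists_of_lt (lt_of_le_of_ne hU hne)
    have hlt : U < U ⊔ Submodule.span K {v} := by
      refine lt_of_le_of_ne le_sup_left fun h1 => hvU ?_
      rw [h1]
      exact Submodule.mem_sup_right (Submodule.mem_span_singleton_self v)
    have hle : U ⊔ Submodule.span K {v} ≤ homogeneousSubmodule (Fin 4) K n :=
      sup_le hU ((Submodule.span_singleton_le_iff_mem _ _).2 hv)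
    have h1 := cod_span_sup_le U v hU hv
    have h2 := j18061_j18061_cod_lt hlt hle
    obtain ⟨W, hW1, hW2, hW3⟩ := ih _ hle (by omega)
    exact ⟨W, le_sup_left.trans hW1, hW2, hW3⟩

lemma j18061_j18061_cod_dg (I : Ideal (S K)) (m : ℕ) : cod m (dg I m) = hf I m := by
  have h1 : dg I m ⊓ homogeneousSubmodule (Fin 4) K m = dg I m :=
    inf_eq_left.2 (inf_le_right : dg I m ≤ homogeneousSubmodule (Fin 4) K m)
  unfold cod hf
  rw [h1]

/-- Macaulay's bound for the Hilbert polynomial `d m + c` -/
lemma mac [Infinite K] {d c m : ℕ} (hm : c + d ^ 2 ≤ m) {V : Submodule K (S K)}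
    (hV : V ≤ homogeneousSubmodule (Fin 4) K m) (h : cod m V ≤ d * m + c) :
    hf (Ideal.span (V : Set (S K))) (m + 1) ≤ d * (m + 1) + c := by
  by_contra hcon
  push Not at hcon
  have hU : dg (Ideal.span (V : Set (S K))) (m + 1) ≤ homogeneousSubmodule (Fin 4) K (m + 1) :=
    inf_le_right
  obtain ⟨W, hW1, hW2, hW3⟩ := j18061_j18061_exists_cod (e := d * (m + 1) + c + 1)
    (hf (Ideal.span (V : Set (S K))) (m + 1) - (d * (m + 1) + c + 1)) _ hU
    (by rw [j18061_j18061_cod_dg]; omega)
  have hdm : d ≤ m := by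
    have : d ≤ d ^ 2 := by nlinarith [Nat.zero_le d, Nat.le_self_pow (n := 2) (by norm_num) d]
    omega
  by_cases hg : ∀ g : S K, g.IsHomogeneous 1 → d + 1 ≤ cod (m + 1) (W ⊔ mS g m)
  · have h1 := green_space (n := m) (d := d) (by omega) hW2 hg
    rw [hW3] at h1
    obtain ⟨r, hr⟩ := Nat.exists_eq_add_of_le hdm
    have h2 : m + 2 - d = r + 2 := by omega
    rw [h2] at h1
    subst hr
    nlinarith
  · push Not at hg
    obtain ⟨g, hg1, hg2⟩ := hg
    have h1 := cod_add hW2 hg1
    have h2 : V ≤ col W g m := by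
      intro v hv
      refine ⟨?_, hV hv⟩
      apply hW1
      refine ⟨?_, ?_⟩
      · exact Ideal.mul_mem_left _ g (Ideal.subset_span hv)
      · have hv' : v.IsHomogeneous m := hV hv
        have := hg1.mul hv'
        rw [add_comm] at this
        exact this
    have h3 := cod_anti h2 m
    rw [hW3] at h1
    have h4 : d * (m + 1) = d * m + d := by ring
    omega

lemma mac_iter [Infinite K] {d c N : ℕ} (hN : c + d ^ 2 ≤ N) {V : Submodule K (S K)}
    (hV : V ≤ homogeneousSubmodule (Fin 4) K N) (h : cod N V ≤ d * N + c) {m : ℕ} (hm : N ≤ m) :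
    hf (Ideal.span (V : Set (S K))) m ≤ d * m + c := by
  induction m, hm using Nat.le_induction with
  | base =>
    have h1 : V ≤ (Ideal.span (V : Set (S K))).restrictScalars K :=
      fun v hv => Ideal.subset_span hv
    have h2 := cod_anti h1 N
    rw [cod_ideal] at h2
    omega
  | succ m hm ih =>
    have h1 := mac (d := d) (c := c) (m := m) (by omega)
      (V := dg (Ideal.span (V : Set (S K))) m) inf_le_right (by rw [j18061_j18061_cod_dg]; exact ih)
    refine le_trans (hf_anti ?_ (m + 1)) h1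
    rw [Ideal.span_le]
    intro x hx
    exact hx.1

lemma j18070_j18070_dg_le (I : Ideal (S K)) (m : ℕ) : dg I m ≤ homogeneousSubmodule (Fin 4) K m :=
  inf_le_right

lemma j18070_j18070_cod_dg (I : Ideal (S K)) (m : ℕ) : cod m (dg I m) = hf I m := by
  unfold cod hf
  rw [inf_eq_left.2 (j18070_j18070_dg_le I m)]

lemma j18070_j18070_dg_sup {I : Ideal (S K)} (hI : IsHom I) {g : S K} (hg : g.IsHomogeneous 1) (n : ℕ) :
    dg (I ⊔ Ideal.span {g}) (n + 1) = dg I (n + 1) ⊔ mS g n := by
  apply le_antisymm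
  · rintro F ⟨hF1, hF2⟩
    have hF1' : F ∈ I ⊔ Ideal.span {g} := hF1
    obtain ⟨a, ha, b, hb, hab⟩ := Submodule.mem_sup.1 hF1'
    obtain ⟨c, rfl⟩ := Ideal.mem_span_singleton.1 hb
    have h3 : homogeneousComponent (n + 1) F = F := by
      rw [homogeneousComponent_of_mem hF2, if_pos rfl]
    rw [← h3, ← hab, map_add, mul_comm g c, j12327_comp_mul833 c g n 1 hg]
    refine Submodule.add_mem_sup ⟨hI a ha _, homogeneousComponent_mem _ a⟩ ?_
    refine ⟨homogeneousComponent n c, homogeneousComponent_mem n c, ?_⟩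
    simp [mul_comm]
  · refine sup_le (j12322_dg_mono le_sup_left _) ?_
    rintro _ ⟨F, hF, rfl⟩
    refine ⟨?_, mS_le hg ⟨F, hF, rfl⟩⟩
    exact (le_sup_right : Ideal.span {g} ≤ I ⊔ Ideal.span {g})
      (Ideal.mul_mem_right _ _ (Ideal.mem_span_singleton_self g))

lemma j18070_j18070_cod_sup {I : Ideal (S K)} (hI : IsHom I) {g : S K} (hg : g.IsHomogeneous 1) (n : ℕ) :
    cod (n + 1) (dg I (n + 1) ⊔ mS g n) = hf (I ⊔ Ideal.span {g}) (n + 1) := by
  rw [← j18070_j18070_dg_sup hI hg, j18070_j18070_cod_dg]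

lemma j18070_j18070_high {J : Ideal (S K)} {m : ℕ}
    (h : cod m (dg J m) = 0) : irr K ^ m ≤ J := by
  have h1 := (cod_eq_zero (j18070_j18070_dg_le J m)).1 h
  have h2 : irr K = idealOfVars (Fin 4) K := rfl
  rw [h2, pow_idealOfVars_eq_span]
  refine Ideal.span_le.2 ?_
  rintro _ ⟨x, hx, rfl⟩
  have h3 : (monomial x (1 : K)) ∈ homogeneousSubmodule (Fin 4) K m :=
    isHomogeneous_monomial _ hx
  rw [← h1] at h3
  exact h3.1

/-- Macaulay's bound in the plane `e = 0` -/
lemma mac_plane [Infinite K] {I : Ideal (S K)} (hI : IsHom I) {e : S K} (he : e.IsHomogeneous 1)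
    (he0 : e ≠ 0) (heI : e ∈ I) {n : ℕ} (h : hf I (n + 1) ≤ n + 1) :
    hf I (n + 2) ≤ hf I (n + 1) ∧ ∃ g : S K, g.IsHomogeneous 1 ∧
      ∀ m ≥ n + 1, hf (I ⊔ Ideal.span {g}) m = 0 := by
  have hmS : mS e n ≤ dg I (n + 1) := by
    rintro _ ⟨F, hF, rfl⟩
    exact ⟨Ideal.mul_mem_right _ _ heI, mS_le he ⟨F, hF, rfl⟩⟩
  obtain ⟨g, hg, hg0⟩ : ∃ g : S K, g.IsHomogeneous 1 ∧
      cod (n + 1) (dg I (n + 1) ⊔ mS g n) = 0 := by
    by_contra hcon
    push Not at hcon
    have h3 := green_plane he he0 (j18070_j18070_dg_le I (n + 1)) hmS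
      (fun g hg => Nat.one_le_iff_ne_zero.2 (hcon g hg))
    rw [j18070_j18070_cod_dg] at h3
    omega
  have hJ : cod (n + 1) (dg (I ⊔ Ideal.span {g}) (n + 1)) = 0 := by
    rw [j18070_j18070_dg_sup hI hg]; exact hg0
  have hz : ∀ m ≥ n + 1, hf (I ⊔ Ideal.span {g}) m = 0 :=
    fun m hm => hf_eq_zero (j18070_j18070_high hJ) hm
  refine ⟨?_, g, hg, hz⟩
  have h4 := cod_add (j18070_j18070_dg_le I (n + 1 + 1)) hg
  rw [j18070_j18070_cod_sup hI hg, hz (n + 1 + 1) (by omega), j18070_j18070_cod_dg, zero_add] at h4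
  rw [show n + 2 = n + 1 + 1 from rfl, h4, ← j18070_j18070_cod_dg I (n + 1)]
  refine cod_anti ?_ _
  rintro F ⟨hF1, hF2⟩
  refine ⟨⟨Ideal.mul_mem_left _ _ hF1, ?_⟩, hF2⟩
  exact mS_le hg ⟨F, hF2, rfl⟩

/-- linear form with given coefficients -/
noncomputable def j18085_linF (K : Type) [Field K] : (Fin 4 → K) →ₗ[K] S K :=
  Fintype.linearCombination K (X : Fin 4 → S K)

lemma j18085_linF_apply (c : Fin 4 → K) : j18085_linF K c = ∑ i, c i • (X i : S K) := by
  simp [j18085_linF, Fintype.linearCombination_apply]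

lemma j18085_linF_hom (c : Fin 4 → K) : (j18085_linF K c).IsHomogeneous 1 := by
  rw [j18085_linF_apply]
  apply MvPolynomial.IsHomogeneous.sum
  intro i _
  rw [MvPolynomial.smul_eq_C_mul]
  have := (MvPolynomial.isHomogeneous_C (Fin 4) (c i)).mul (MvPolynomial.isHomogeneous_X K i)
  simpa using this

lemma j18085_linF_ne {c : Fin 4 → K} (hc : c ≠ 0) : j18085_linF K c ≠ 0 := by
  intro h
  apply hc
  funext j
  have h2 := congrArg (MvPolynomial.coeff (Finsupp.single j 1)) h
  rw [j18085_linF_apply, MvPolynomial.coeff_sum] at h2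
  simp only [MvPolynomial.coeff_smul, MvPolynomial.coeff_zero, smul_eq_mul] at h2
  rw [Finset.sum_eq_single j] at h2
  · simpa using h2
  · intro i _ hij
    rw [MvPolynomial.coeff_X', if_neg, mul_zero]
    intro h3
    exact hij (Finsupp.single_left_injective one_ne_zero h3)
  · intro h3
    exact absurd (Finset.mem_univ j) h3

lemma exists_nzd [Infinite K] {I : Ideal (S K)} (hI : IsHom I)
    (hsat : ∀ F : S K, (∀ i, X i * F ∈ I) → F ∈ I) :
    ∃ h : S K, h.IsHomogeneous 1 ∧ h ≠ 0 ∧ ∀ F : S K, h * F ∈ I → F ∈ I := by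
  classical
  have hfin : (associatedPrimes (S K) (S K ⧸ I)).Finite := associatedPrimes.finite (S K) (S K ⧸ I)
  set V : Ideal (S K) → Subspace K (Fin 4 → K) := fun P =>
    (P.restrictScalars K).comap (j18085_linF K) with hV
  have hPne : ∀ P ∈ associatedPrimes (S K) (S K ⧸ I), V P ≠ ⊤ := by
    intro P hP htop
    rw [AssociatedPrimes.mem_iff, isAssociatedPrime_iff] at hP
    obtain ⟨hPp, x, hx⟩ := hP
    obtain ⟨F, rfl⟩ := Ideal.Quotient.mk_surjective x
    have hX : ∀ i, X i * F ∈ I := by
      intro i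
      have h1 : (Pi.single i 1 : Fin 4 → K) ∈ V P := htop ▸ Submodule.mem_top
      have h2 : j18085_linF K (Pi.single i 1) ∈ P := h1
      have h3 : j18085_linF K (Pi.single i 1) = X i := by
        rw [j18085_linF_apply, Finset.sum_eq_single i]
        · simp
        · intro j _ hj
          simp [Pi.single_apply, hj]
        · intro h; exact absurd (Finset.mem_univ i) h
      rw [h3, hx, Submodule.mem_colon_singleton, Submodule.mem_bot] at h2
      have h4 : Ideal.Quotient.mk I (X i * F) = 0 := by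
        rw [map_mul]
        exact h2
      exact Ideal.Quotient.eq_zero_iff_mem.1 h4
    have hF := hsat F hX
    apply hPp.ne_top
    rw [hx, Ideal.eq_top_iff_one, Submodule.mem_colon_singleton, Submodule.mem_bot, one_smul]
    exact Ideal.Quotient.eq_zero_iff_mem.2 hF
  have hs : (⊤ : Subspace K (Fin 4 → K)) ∉ insert ⊥ (hfin.toFinset.image V) := by
    rw [Finset.mem_insert]
    rintro (h | h)
    · exact bot_ne_top h.symm
    · rw [Finset.mem_image] at h
      obtain ⟨P, hP, hPt⟩ := h
      exact hPne P (hfin.mem_toFinset.1 hP) hPt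
  have hne := Subspace.biUnion_ne_univ_of_top_notMem hs
  obtain ⟨c, hc⟩ := (Set.ne_univ_iff_exists_notMem _).1 hne
  simp only [Set.mem_iUnion, not_exists] at hc
  refine ⟨j18085_linF K c, j18085_linF_hom c, j18085_linF_ne ?_, ?_⟩
  · intro h
    exact hc ⊥ (Finset.mem_insert_self _ _) (by simpa using h)
  · intro F hF
    by_contra hFI
    have h1 : j18085_linF K c ∈ {r : S K | ∃ x : S K ⧸ I, x ≠ 0 ∧ r • x = 0} := by
      refine ⟨Ideal.Quotient.mk I F, fun h => hFI (Ideal.Quotient.eq_zero_iff_mem.1 h), ?_⟩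
      have h2 : Ideal.Quotient.mk I (j18085_linF K c * F) = 0 := Ideal.Quotient.eq_zero_iff_mem.2 hF
      rw [map_mul] at h2
      exact h2
    rw [← biUnion_associatedPrimes_eq_zero_divisors] at h1
    simp only [Set.mem_iUnion] at h1
    obtain ⟨P, hP, hPc⟩ := h1
    exact hc (V P) (Finset.mem_insert_of_mem (Finset.mem_image_of_mem V (hfin.mem_toFinset.2 hP))) hPc

/-- the Hilbert function of a hyperplane section -/
lemma hf_section {I : Ideal (S K)} (hI : IsHom I) {h : S K} (hh : h.IsHomogeneous 1)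
    (hnz : ∀ F : S K, h * F ∈ I → F ∈ I) (n : ℕ) :
    hf I (n + 1) = hf I n + hf (I ⊔ Ideal.span {h}) (n + 1) := by
  have h4 := cod_add (j18070_j18070_dg_le I (n + 1)) hh
  have h5 : col (dg I (n + 1)) h n = dg I n := by
    apply le_antisymm
    · rintro F ⟨hF1, hF2⟩
      exact ⟨hnz F hF1.1, hF2⟩
    · rintro F ⟨hF1, hF2⟩
      refine ⟨⟨Ideal.mul_mem_left _ _ hF1, ?_⟩, hF2⟩
      exact mS_le hh ⟨F, hF2, rfl⟩
  rw [j18070_j18070_cod_sup hI hh, h5, j18070_j18070_cod_dg, j18070_j18070_cod_dg] at h4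
  omega

lemma j18111_j18111_num {d c m0 : ℕ} {H del : ℕ → ℕ} (ha : ∀ n, H (n + 1) = H n + del (n + 1))
    (hb : ∀ n, del (n + 1) ≤ n + 1 → del (n + 2) ≤ del (n + 1))
    (hP : ∀ m ≥ m0, H m = d * m + c) (hz : H 0 = 0 → ∀ m, H m = 0 ∧ del m = 0) :
    ∀ m ≥ c + d ^ 2, H m = d * m + c ∧ del m = d := by
  have hdel : ∀ m ≥ m0 + 1, del m = d := by
    intro m hm
    obtain ⟨n, rfl⟩ : ∃ n, m = n + 1 := ⟨m - 1, by omega⟩
    have h1 := ha n
    rw [hP (n + 1) (by omega), hP n (by omega)] at h1
    have : d * (n + 1) = d * n + d := by ring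
    omega
  have hni : ∀ j, 1 ≤ j → del j ≤ j → ∀ k, del (j + k) ≤ del j := by
    intro j hj hjj k
    induction k with
    | zero => simp
    | succ k ih =>
      obtain ⟨n, rfl⟩ : ∃ n, j = n + 1 := ⟨j - 1, by omega⟩
      have := hb (n + k) (by rw [show n + k + 1 = n + 1 + k by omega]; omega)
      rw [show n + k + 1 = n + 1 + k by omega, show n + k + 2 = n + 1 + (k + 1) by omega] at this
      omega
  have hge : ∀ j, 1 ≤ j → d ≤ j → d ≤ del j := by
    intro j h1 h2
    by_contra h3
    push Not at h3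
    have h4 := hni j h1 (by omega) (m0 + 1)
    rw [hdel (j + (m0 + 1)) (by omega)] at h4
    omega
  by_cases h0 : H 0 = 0
  · have hall := hz h0
    have e1 := hP m0 le_rfl
    have e2 := hP (m0 + 1) (by omega)
    rw [(hall _).1] at e1 e2
    have hc : c = 0 := by omega
    have hd : d = 0 := by
      have h5 : d * (m0 + 1) = 0 := by omega
      rcases Nat.mul_eq_zero.1 h5 with h | h
      · exact h
      · omega
    subst hc hd
    intro m _
    simp [hall m]
  have hdd : d ≤ d ^ 2 := by
    rcases Nat.eq_zero_or_pos d with h | h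
    · simp [h]
    · nlinarith
  have key : ∃ j, 1 ≤ j ∧ d ≤ j ∧ j ≤ c + d ^ 2 ∧ del j ≤ d := by
    by_contra hcon
    push Not at hcon
    have hN : d * (c + d ^ 2) + c + 1 ≤ H (c + d ^ 2) := by
      rcases Nat.eq_zero_or_pos d with hd | hd
      · subst hd
        have h6 : ∀ k, k ≤ c + 0 ^ 2 → k + 1 ≤ H k := by
          intro k
          induction k with
          | zero => intro _; omega
          | succ k ih =>
            intro hk
            have h7 := ih (by omega)
            have h8 := hcon (k + 1) (by omega) (by omega) hk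
            have h9 := ha k
            omega
        have := h6 (c + 0 ^ 2) le_rfl
        simp at this ⊢
        omega
      · obtain ⟨e, rfl⟩ : ∃ e, d = e + 1 := ⟨d - 1, by omega⟩
        have h6 : ∀ k, e + k ≤ c + (e + 1) ^ 2 → k * (e + 2) ≤ H (e + k) := by
          intro k
          induction k with
          | zero => intro _; omega
          | succ k ih =>
            intro hk
            have h7 := ih (by omega)
            have h8 := hcon (e + k + 1) (by omega) (by omega) (by omega)
            have h9 := ha (e + k)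
            rw [show e + (k + 1) = e + k + 1 by omega, h9]
            have h10 : (k + 1) * (e + 2) = k * (e + 2) + (e + 2) := by ring
            omega
        have h7 := h6 (c + e ^ 2 + e + 1) (by nlinarith)
        have h8 : e + (c + e ^ 2 + e + 1) = c + (e + 1) ^ 2 := by ring
        rw [h8] at h7
        refine le_trans (le_of_eq ?_) h7
        ring
    have hN2 : ∀ k, d * (c + d ^ 2 + k) + c + 1 ≤ H (c + d ^ 2 + k) := by
      intro k
      induction k with
      | zero => simpa using hN
      | succ k ih =>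
        have h9 := ha (c + d ^ 2 + k)
        have h10 := hge (c + d ^ 2 + k + 1) (by omega) (by omega)
        rw [show c + d ^ 2 + (k + 1) = c + d ^ 2 + k + 1 by omega, h9]
        have h11 : d * (c + d ^ 2 + k + 1) = d * (c + d ^ 2 + k) + d := by ring
        omega
    have h12 := hN2 m0
    rw [hP (c + d ^ 2 + m0) (by omega)] at h12
    omega
  obtain ⟨j, j1, j2, j3, j4⟩ := key
  have hall : ∀ m ≥ c + d ^ 2, del m = d := by
    intro m hm
    have h5 := hni j j1 (by omega) (m - j)
    rw [show j + (m - j) = m by omega] at h5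
    have h6 := hge m (by omega) (by omega)
    omega
  intro m hm
  refine ⟨?_, hall m hm⟩
  have h7 : ∀ k, H (m + k) = H m + k * d := by
    intro k
    induction k with
    | zero => simp
    | succ k ih =>
      rw [show m + (k + 1) = m + k + 1 by omega, ha, ih, hall _ (by omega)]
      ring
  have h8 := h7 m0
  rw [hP (m + m0) (by omega)] at h8
  have h9 : d * (m + m0) = d * m + m0 * d := by ring
  omega

/-- uniform regularity -/
lemma reg [Infinite K] {d c : ℕ} {I : Ideal (S K)} (hI : IsHom I) {m0 : ℕ}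
    (hP : ∀ m ≥ m0, hf I m = d * m + c) {h : S K} (hh : h.IsHomogeneous 1) (h0 : h ≠ 0)
    (hnz : ∀ F : S K, h * F ∈ I → F ∈ I) :
    (∀ m ≥ c + d ^ 2, hf I m = d * m + c ∧ hf (I ⊔ Ideal.span {h}) m = d) := by
  have hI' : IsHom (I ⊔ Ideal.span {h}) :=
    isHom_sup hI (isHom_span (by
      intro F hF
      rw [Set.mem_singleton_iff] at hF
      subst hF
      exact ⟨1, hh⟩))
  have hmem : h ∈ I ⊔ Ideal.span {h} :=
    Ideal.mem_sup_right (Ideal.subset_span (Set.mem_singleton h))
  refine j18111_j18111_num (H := fun m => hf I m) (del := fun m => hf (I ⊔ Ideal.span {h}) m)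
    (fun n => hf_section hI hh hnz n) (fun n hn => (mac_plane hI' hh h0 hmem hn).1) hP ?_
  intro hz m
  have hone : (1 : S K) ∈ I := by
    by_contra h1
    have h2 := hf_lt_of_mem (le_top : I ≤ ⊤) (m := 0) (F := 1)
      (MvPolynomial.isHomogeneous_one (Fin 4) K) trivial h1
    have h3 : hf I 0 = 0 := hz
    omega
  have htop : I = ⊤ := (Ideal.eq_top_iff_one I).2 hone
  have h5 : hf (⊤ : Ideal (S K)) m = 0 := j12333_hf_top_aux m
  subst htop
  refine ⟨h5, ?_⟩
  show hf ((⊤ : Ideal (S K)) ⊔ Ideal.span {h}) m = 0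
  rw [top_sup_eq]
  exact h5

lemma reg2 [Infinite K] {d c : ℕ} {I : Ideal (S K)} (hI : IsHom I) {m0 : ℕ}
    (hP : ∀ m ≥ m0, hf I m = d * m + c) {h : S K} (hh : h.IsHomogeneous 1) (h0 : h ≠ 0)
    (hnz : ∀ F : S K, h * F ∈ I → F ∈ I) :
    ∃ g : S K, g.IsHomogeneous 1 ∧ ∀ m ≥ c + d ^ 2 + 1,
      hf (I ⊔ Ideal.span {h} ⊔ Ideal.span {g}) m = 0 := by
  have hI' : IsHom (I ⊔ Ideal.span {h}) :=
    isHom_sup hI (isHom_span (by
      intro F hF
      rw [Set.mem_singleton_iff] at hF
      subst hF
      exact ⟨1, hh⟩))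
  have hmem : h ∈ I ⊔ Ideal.span {h} :=
    Ideal.mem_sup_right (Ideal.subset_span (Set.mem_singleton h))
  have hdd : d ≤ d ^ 2 := by
    rcases Nat.eq_zero_or_pos d with h | h
    · simp [h]
    · nlinarith
  have h1 := (reg hI hP hh h0 hnz (c + d ^ 2 + 1) (by omega)).2
  exact (mac_plane hI' hh h0 hmem (n := c + d ^ 2) (by rw [h1]; omega)).2

lemma reg_gen [Infinite K] {d c : ℕ} {I : Ideal (S K)} (hI : IsHom I)
    (hP : ∀ m ≥ c + d ^ 2, hf I m = d * m + c) {m : ℕ} (hm : c + d ^ 2 ≤ m) {F : S K}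
    (hF : F.IsHomogeneous (m + 1)) (hFI : F ∈ I) :
    F ∈ Ideal.span (dg I m : Set (S K)) := by
  by_contra hnot
  have h1 : dg I m ⊓ homogeneousSubmodule (Fin 4) K m = dg I m := inf_eq_left.2 inf_le_right
  have h2 : cod m (dg I m) = hf I m := by
    unfold cod hf
    rw [h1]
  have h3 : cod m (dg I m) ≤ d * m + c := by
    rw [h2, hP m hm]
  have h4 := mac hm (V := dg I m) inf_le_right h3
  have h5 : Ideal.span (dg I m : Set (S K)) ≤ I := Ideal.span_le.2 fun x hx => hx.1
  have h6 := hf_lt_of_mem h5 hF hFI hnot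
  have h7 := hP (m + 1) (le_trans hm (Nat.le_succ m))
  omega

/-- the saturation agrees with the ideal in large degrees -/
lemma satur_high {I : Ideal (S K)} (hI : IsHom I) :
    ∃ m1, ∀ m ≥ m1, ∀ F : S K, F.IsHomogeneous m → F ∈ satur K I → F ∈ I := by
  obtain ⟨s, hs⟩ := (isNoetherianRing_iff_ideal_fg (S K)).1 inferInstance (satur K I)
  have hs1 : ∀ f ∈ s, f ∈ satur K I := fun f hf => by
    rw [← hs]; exact Submodule.subset_span hf
  have h1 : ∀ f ∈ s, ∃ N : ℕ, ∀ G ∈ irr K ^ N, G * f ∈ I := fun f hf => mem_satur.1 (hs1 f hf)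
  choose! Nf hNf using h1
  set N := s.sup Nf with hN
  have h2 : ∀ f ∈ satur K I, ∀ G ∈ irr K ^ N, G * f ∈ I := by
    intro f hf
    rw [← hs] at hf
    induction hf using Submodule.span_induction with
    | mem x hx =>
      intro G hG
      exact hNf x hx G (Ideal.pow_le_pow_right (Finset.le_sup hx) hG)
    | zero =>
      intro G _
      rw [mul_zero]
      exact I.zero_mem
    | add x y _ _ hx hy =>
      intro G hG
      rw [mul_add]
      exact I.add_mem (hx G hG) (hy G hG)
    | smul r x _ hx =>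
      intro G hG
      have e : G * (r • x) = r * (G * x) := by rw [smul_eq_mul]; ring
      rw [e]
      exact I.mul_mem_left r (hx G hG)
  have h3 : ∀ i, N ≤ i → ∀ a : S K, homogeneousComponent i a ∈ irr K ^ N := by
    intro i hi a
    have h1 : irr K = idealOfVars (Fin 4) K := rfl
    rw [h1, mem_pow_idealOfVars_iff']
    intro x hx
    exact IsHomogeneous.coeff_eq_zero (homogeneousComponent_isHomogeneous i a) (by omega)
  set D := s.sup (fun f => f.totalDegree) with hD
  have h4 : ∀ x ∈ satur K I, ∀ a : S K, ∀ m, D + N ≤ m → homogeneousComponent m (a * x) ∈ I := by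
    intro x hx
    rw [← hs] at hx
    induction hx using Submodule.span_induction with
    | mem x hx =>
      intro a m hm
      have e : a * x = ∑ i ∈ Finset.range (a.totalDegree + 1), ∑ j ∈ Finset.range (x.totalDegree + 1),
          homogeneousComponent i a * homogeneousComponent j x := by
        rw [← Finset.sum_mul_sum, sum_homogeneousComponent, sum_homogeneousComponent]
      rw [e, map_sum]
      apply Ideal.sum_mem
      intro i _
      rw [map_sum]
      apply Ideal.sum_mem
      intro j hj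
      have h5 : (homogeneousComponent i a * homogeneousComponent j x).IsHomogeneous (i + j) :=
        (homogeneousComponent_isHomogeneous i a).mul (homogeneousComponent_isHomogeneous j x)
      rw [homogeneousComponent_of_mem h5]
      split_ifs with hij
      · have h6 : x.totalDegree ≤ D := Finset.le_sup (f := fun f : S K => f.totalDegree) hx
        rw [Finset.mem_range] at hj
        exact h2 _ (satur_isHom hI x (hs1 x hx) j) _ (h3 i (by omega) a)
      · exact I.zero_mem
    | zero =>
      intro a m _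
      rw [mul_zero, map_zero]
      exact I.zero_mem
    | add x y _ _ hx hy =>
      intro a m hm
      rw [mul_add, map_add]
      exact I.add_mem (hx a m hm) (hy a m hm)
    | smul r x _ hx =>
      intro a m hm
      have e : a * (r • x) = (a * r) * x := by rw [smul_eq_mul]; ring
      rw [e]
      exact hx _ m hm
  refine ⟨D + N, fun m hm F hF hFs => ?_⟩
  have h5 := h4 F hFs 1 m hm
  rwa [one_mul, homogeneousComponent_of_mem hF, if_pos rfl] at h5

end cod

lemma satur_sat {R : Type} [CommRing R] {I : Ideal (S R)} {F : S R}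
    (h : ∀ i, X i * F ∈ satur R I) : F ∈ satur R I := by
  choose N hN using fun i => mem_satur.1 (h i)
  refine mem_satur.2 ⟨(Finset.univ.sup N) + 1, ?_⟩
  intro G hG
  rw [pow_succ] at hG
  refine Submodule.mul_induction_on hG ?_ ?_
  · intro a ha b hb
    have hb' : b ∈ Ideal.span (Set.range (X : Fin 4 → S R)) := hb
    have key : ∀ b ∈ Ideal.span (Set.range (X : Fin 4 → S R)), a * b * F ∈ I := by
      intro b hb
      refine Submodule.span_induction (p := fun b _ => a * b * F ∈ I) ?_ ?_ ?_ ?_ hb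
      · rintro _ ⟨i, rfl⟩
        have h1 : a ∈ irr R ^ N i :=
          Ideal.pow_le_pow_right (Finset.le_sup (Finset.mem_univ i)) ha
        have h2 := hN i a h1
        rwa [mul_assoc]
      · simp
      · intro x y _ _ hx hy
        have : a * (x + y) * F = a * x * F + a * y * F := by ring
        rw [this]
        exact I.add_mem hx hy
      · intro r x _ hx
        have : a * (r • x) * F = r * (a * x * F) := by
          rw [smul_eq_mul]; ring
        rw [this]
        exact I.mul_mem_left r hx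
    exact key b hb'
  · intro x y hx hy
    rw [add_mul]
    exact I.add_mem hx hy

end Pool.Agent.Helper924.HS
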