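import Mathlib
import Pool.Agent.Helper924.HX.Cod

set_option autoImplicit false

open MvPolynomial
open scoped TensorProduct

namespace Pool.Agent.Helper924.HS

/-- the degree `m` part of `S R / I` is locally free of rank `r` -/
def LFr (R : Type) [CommRing R] (I : Ideal (S R)) (m r : ℕ) : Prop :=
  Module.Projective R (grPart R I m) ∧
    ∀ p : PrimeSpectrum R, Module.rankAtStalk (R := R) (grPart R I m) p = r

/-- the forms of degree `m` in `I` -/
noncomputable def dgR {R : Type} [CommRing R] (I : Ideal (S R)) (m : ℕ) : Submodule R (S R) :=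
  I.restrictScalars R ⊓ homogeneousSubmodule (Fin 4) R m

/-- the ideal of the `q`-minors of the coefficients of elements of `Q` -/
noncomputable def minI {R : Type} [CommRing R] (q : ℕ) (Q : Submodule R (S R)) : Ideal R :=
  Ideal.span {x | ∃ (μ : Fin q → (Fin 4 →₀ ℕ)) (F : Fin q → S R), (∀ j, F j ∈ Q) ∧
    x = (Matrix.of fun i j => coeff (μ i) (F j)).det}

section basic
variable {R R' : Type} [CommRing R] [CommRing R'] (φ : R →+* R')

/-- determinant of coefficients as an alternating map -/
noncomputable def j18185_detCo_18185 {A : Type} [CommRing A] (q : ℕ) (μ : Fin q → (Fin 4 →₀ ℕ)) :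
    (S A) [⋀^Fin q]→ₗ[A] A :=
  (Matrix.detRowAlternating (R := A) (n := Fin q)).compLinearMap
    (LinearMap.pi fun i => MvPolynomial.lcoeff A (μ i))

lemma j18185_detCo_apply_18185 {A : Type} [CommRing A] (q : ℕ) (μ : Fin q → (Fin 4 →₀ ℕ))
    (F : Fin q → S A) :
    j18185_detCo_18185 q μ F = (Matrix.of fun i j => coeff (μ i) (F j)).det := by
  rw [← Matrix.det_transpose]
  rfl

lemma minI_map (q : ℕ) (Q : Submodule R (S R)) :
    minI q (Submodule.span R' ((MvPolynomial.map (σ := Fin 4) φ) '' (Q : Set (S R)))) =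
      (minI q Q).map φ := by
  apply le_antisymm
  · unfold minI
    rw [Ideal.span_le]
    rintro x ⟨μ, F, hF, rfl⟩
    rw [← j18185_detCo_apply_18185]
    set J := (Ideal.span {x | ∃ (μ : Fin q → (Fin 4 →₀ ℕ)) (F : Fin q → S R), (∀ j, F j ∈ Q) ∧
      x = (Matrix.of fun i j => coeff (μ i) (F j)).det}).map φ with hJ
    have key : ∀ s : Finset (Fin q), ∀ F : Fin q → S R',
        (∀ j, F j ∈ Submodule.span R' ((MvPolynomial.map (σ := Fin 4) φ) '' (Q : Set (S R)))) →
        (∀ j, j ∉ s → F j ∈ (MvPolynomial.map (σ := Fin 4) φ) '' (Q : Set (S R))) →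
        j18185_detCo_18185 q μ F ∈ J := by
      intro s
      induction s using Finset.induction_on with
      | empty =>
        intro F _ h
        choose G hG using fun j => h j (Finset.notMem_empty j)
        have e : j18185_detCo_18185 q μ F = φ (Matrix.of fun i j => coeff (μ i) (G j)).det := by
          rw [j18185_detCo_apply_18185, RingHom.map_det]
          congr 1
          ext i j
          simp only [Matrix.of_apply, RingHom.mapMatrix_apply, Matrix.map_apply]
          rw [← (hG j).2, coeff_map]
        rw [e]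
        exact Ideal.mem_map_of_mem φ (Ideal.subset_span ⟨μ, G, fun j => (hG j).1, rfl⟩)
      | insert j0 s hj0 ih =>
        intro F h1 h2
        have h3 : ∀ x ∈ Submodule.span R' ((MvPolynomial.map (σ := Fin 4) φ) '' (Q : Set (S R))),
            j18185_detCo_18185 q μ (Function.update F j0 x) ∈ J := by
          intro x hx
          induction hx using Submodule.span_induction with
          | mem x hx =>
            apply ih
            · intro j
              by_cases hj : j = j0
              · rw [hj, Function.update_self]; exact Submodule.subset_span hx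
              · rw [Function.update_of_ne hj]; exact h1 j
            · intro j hj
              by_cases hjj : j = j0
              · rw [hjj, Function.update_self]; exact hx
              · rw [Function.update_of_ne hjj]
                apply h2
                intro h
                rcases Finset.mem_insert.mp h with h | h
                · exact hjj h
                · exact hj h
          | zero =>
            rw [AlternatingMap.map_update_zero]
            exact J.zero_mem
          | add x y _ _ hx hy =>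
            rw [AlternatingMap.map_update_add]
            exact J.add_mem hx hy
          | smul a x _ hx =>
            rw [AlternatingMap.map_update_smul]
            exact J.mul_mem_left a hx
        have h4 := h3 (F j0) (h1 j0)
        rwa [Function.update_eq_self] at h4
    exact key Finset.univ F hF (fun j hj => absurd (Finset.mem_univ j) hj)
  · rw [Ideal.map_le_iff_le_comap]
    unfold minI
    rw [Ideal.span_le]
    rintro x ⟨μ, F, hF, rfl⟩
    refine Ideal.mem_comap.mpr (Ideal.subset_span ?_)
    refine ⟨μ, fun j => MvPolynomial.map (σ := Fin 4) φ (F j),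
      fun j => Submodule.subset_span ⟨F j, hF j, rfl⟩, ?_⟩
    rw [RingHom.map_det]
    congr 1

lemma j18189_j18189_X_mul (I : Ideal (S R)) (m : ℕ) (i : Fin 4) {x : S R'}
    (hx : x ∈ Submodule.span R' ((MvPolynomial.map (σ := Fin 4) φ) '' (dgR I m : Set (S R)))) :
    X i * x ∈ Submodule.span R'
      ((MvPolynomial.map (σ := Fin 4) φ) '' (dgR I (m + 1) : Set (S R))) := by
  induction hx using Submodule.span_induction with
  | mem x hx =>
    obtain ⟨F, ⟨h1, h2⟩, rfl⟩ := hx
    refine Submodule.subset_span ⟨X i * F, ⟨I.mul_mem_left _ h1, ?_⟩, by simp⟩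
    have h3 : (X i * F).IsHomogeneous (1 + m) := (isHomogeneous_X R i).mul h2
    rw [add_comm] at h3
    exact h3
  | zero => simp
  | add x y _ _ hx hy => rw [mul_add]; exact Submodule.add_mem _ hx hy
  | smul a x _ hx => rw [mul_smul_comm]; exact Submodule.smul_mem _ _ hx

lemma j18189_j18189_hom (I : Ideal (S R)) (m : ℕ) {x : S R'}
    (hx : x ∈ Submodule.span R' ((MvPolynomial.map (σ := Fin 4) φ) '' (dgR I m : Set (S R)))) :
    x.IsHomogeneous m := by
  have : Submodule.span R' ((MvPolynomial.map (σ := Fin 4) φ) '' (dgR I m : Set (S R))) ≤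
      homogeneousSubmodule (Fin 4) R' m := by
    refine Submodule.span_le.2 ?_
    rintro _ ⟨F, ⟨_, h⟩, rfl⟩
    have h' : F.IsHomogeneous m := h
    exact h'.map φ
  exact this hx

lemma j18189_j18189_hcomp_mem {I : Ideal (S R)} (hI : IsHom I) {x : S R'}
    (hx : x ∈ I.map (MvPolynomial.map (σ := Fin 4) φ)) :
    ∀ m, homogeneousComponent m x ∈
      Submodule.span R' ((MvPolynomial.map (σ := Fin 4) φ) '' (dgR I m : Set (S R))) := by
  refine Submodule.span_induction (p := fun x _ => ∀ m, homogeneousComponent m x ∈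
    Submodule.span R' ((MvPolynomial.map (σ := Fin 4) φ) '' (dgR I m : Set (S R))))
    ?_ ?_ ?_ ?_ hx
  · rintro _ ⟨F, hF, rfl⟩ m
    rw [j13475_map_isHom_comp]
    exact Submodule.subset_span ⟨_, ⟨hI F hF m, homogeneousComponent_isHomogeneous m F⟩, rfl⟩
  · intro m; simp
  · intro x y _ _ hx hy m
    rw [map_add]; exact Submodule.add_mem _ (hx m) (hy m)
  · intro g x _ hx
    rw [smul_eq_mul]
    induction g using MvPolynomial.induction_on with
    | C a =>
      intro m
      rw [homogeneousComponent_C_mul, ← smul_eq_C_mul]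
      exact Submodule.smul_mem _ _ (hx m)
    | add p q hp hq =>
      intro m
      rw [add_mul, map_add]; exact Submodule.add_mem _ (hp m) (hq m)
    | mul_X p i hp =>
      intro m
      have e : p * X i * x = X i * (p * x) := by ring
      rw [e]
      generalize p * x = y at hp
      rw [← sum_homogeneousComponent y, Finset.mul_sum, map_sum]
      refine Submodule.sum_mem _ fun n _ => ?_
      have h1 := j18189_j18189_X_mul φ I n i (hp n)
      have h2 := j18189_j18189_hom φ I (n + 1) h1
      rw [homogeneousComponent_of_mem h2]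
      split_ifs with h
      · rw [h]; exact h1
      · exact Submodule.zero_mem _

lemma dgR_map {I : Ideal (S R)} (hI : IsHom I) (m : ℕ) :
    dgR (I.map (MvPolynomial.map (σ := Fin 4) φ)) m =
      Submodule.span R' ((MvPolynomial.map (σ := Fin 4) φ) '' (dgR I m : Set (S R))) := by
  apply le_antisymm
  · rintro x ⟨hx1, hx2⟩
    have hx2' : x.IsHomogeneous m := hx2
    have := j18189_j18189_hcomp_mem φ hI hx1 m
    rwa [homogeneousComponent_eq_self hx2'] at this
  · refine Submodule.span_le.2 ?_
    rintro _ ⟨F, ⟨h, h'⟩, rfl⟩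
    have h'' : F.IsHomogeneous m := h'
    exact ⟨Ideal.mem_map_of_mem _ h, h''.map φ⟩

lemma isHom_spanR {V : Submodule R (S R)} {N : ℕ} (hV : V ≤ homogeneousSubmodule (Fin 4) R N) :
    IsHom (Ideal.span (V : Set (S R))) := by
  intro F hF
  induction hF using Submodule.span_induction with
  | mem x hx =>
    intro n
    have h1 : x.IsHomogeneous N := hV hx
    rw [homogeneousComponent_of_mem h1]
    split_ifs
    · exact Ideal.subset_span hx
    · exact Ideal.zero_mem _
  | zero =>
    intro n
    rw [map_zero]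
    exact Ideal.zero_mem _
  | add x y _ _ hx hy =>
    intro n
    rw [map_add]
    exact Ideal.add_mem _ (hx n) (hy n)
  | smul r x _ hx =>
    intro n
    rw [smul_eq_mul]
    exact j13475_map_isHom_mul _ x hx r n

attribute [local instance] MvPolynomial.gradedAlgebra in
lemma j18189_j18189_comp_mul (G F : S R) (m n : ℕ) (hF : F.IsHomogeneous n) :
    homogeneousComponent (m + n) (G * F) = homogeneousComponent m G * F := by
  have h := DirectSum.coe_decompose_mul_add_of_right_mem (homogeneousSubmodule (Fin 4) R) (a := G)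
    (i := m) ((mem_homogeneousSubmodule n F).2 hF)
  rw [← MvPolynomial.decomposition.decompose'_apply, ← MvPolynomial.decomposition.decompose'_apply]
  exact h

lemma dgR_span {V : Submodule R (S R)} {N : ℕ} (hV : V ≤ homogeneousSubmodule (Fin 4) R N) :
    dgR (Ideal.span (V : Set (S R))) N = V := by
  apply le_antisymm
  · rintro x ⟨hx1, hx2⟩
    have hx2' : x.IsHomogeneous N := hx2
    have hx3 : x ∈ Submodule.span (S R) (V : Set (S R)) := hx1
    obtain ⟨n, f, g, hfg⟩ := Submodule.mem_span_set'.1 hx3
    rw [← homogeneousComponent_eq_self hx2', ← hfg, map_sum]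
    refine Submodule.sum_mem _ fun i _ => ?_
    have h1 : (g i : S R).IsHomogeneous N := hV (g i).2
    have h2 := j18189_j18189_comp_mul (f i) (g i : S R) 0 N h1
    rw [zero_add] at h2
    rw [smul_eq_mul, h2, homogeneousComponent_zero, ← smul_eq_C_mul]
    exact V.smul_mem _ (g i).2
  · intro x hx
    exact ⟨Ideal.subset_span hx, hV hx⟩

lemma span_mapR (V : Submodule R (S R)) :
    (Ideal.span (V : Set (S R))).map (MvPolynomial.map (σ := Fin 4) φ) =
      Ideal.span ((Submodule.span R' ((MvPolynomial.map (σ := Fin 4) φ) '' (V : Set (S R))) :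
        Submodule R' (S R')) : Set (S R')) := by
  rw [Ideal.map_span]
  apply le_antisymm
  · exact Ideal.span_mono Submodule.subset_span
  · refine Ideal.span_le.2 ?_
    have : Submodule.span R' ((MvPolynomial.map (σ := Fin 4) φ) '' (V : Set (S R))) ≤
        (Ideal.span ((MvPolynomial.map (σ := Fin 4) φ) '' (V : Set (S R)))).restrictScalars R' :=
      Submodule.span_le.2 Ideal.subset_span
    exact this

open Classical in
/-- the graded pieces are determined by the forms of degree `m` in the ideal -/
noncomputable def j18194_j18194_equiv {I J : Ideal (S R)} {m : ℕ}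
    (h : ∀ F : S R, F.IsHomogeneous m → (F ∈ I ↔ F ∈ J)) : grPart R I m ≃ₗ[R] grPart R J m :=
  (LinearEquiv.ofEq _ _ (LinearMap.range_domRestrict (homogeneousSubmodule (Fin 4) R m)
    (Ideal.Quotient.mkₐ R I).toLinearMap).symm) ≪≫ₗ
  (LinearMap.quotKerEquivRange ((Ideal.Quotient.mkₐ R I).toLinearMap.domRestrict
    (homogeneousSubmodule (Fin 4) R m))).symm ≪≫ₗ
  (Submodule.quotEquivOfEq _ _ (by
    ext F
    rw [LinearMap.mem_ker, LinearMap.mem_ker]
    change Ideal.Quotient.mk I F.1 = 0 ↔ Ideal.Quotient.mk J F.1 = 0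
    rw [Ideal.Quotient.eq_zero_iff_mem, Ideal.Quotient.eq_zero_iff_mem]
    exact h F.1 F.2)) ≪≫ₗ
  (LinearMap.quotKerEquivRange ((Ideal.Quotient.mkₐ R J).toLinearMap.domRestrict
    (homogeneousSubmodule (Fin 4) R m))) ≪≫ₗ
  (LinearEquiv.ofEq _ _ (LinearMap.range_domRestrict (homogeneousSubmodule (Fin 4) R m)
    (Ideal.Quotient.mkₐ R J).toLinearMap))

lemma LFr_congr {I J : Ideal (S R)} {m r : ℕ}
    (h : ∀ F : S R, F.IsHomogeneous m → (F ∈ I ↔ F ∈ J)) (hI : LFr R I m r) : LFr R J m r := by
  obtain ⟨h1, h2⟩ := hI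
  refine ⟨Module.Projective.of_equiv (j18194_j18194_equiv h), fun p => ?_⟩
  rw [← h2 p, Module.rankAtStalk_eq_of_equiv (j18194_j18194_equiv h)]

/-- the base change map on forms of degree m -/
noncomputable def j18194_j18194_bcHom (R k : Type) [CommRing R] [CommRing k] [Algebra R k] (m : ℕ) :
    homogeneousSubmodule (Fin 4) R m →ₗ[R] homogeneousSubmodule (Fin 4) k m where
  toFun F := ⟨MvPolynomial.map (algebraMap R k) F.1, F.2.map _⟩
  map_add' F G := by apply Subtype.ext; simp
  map_smul' r F := by
    apply Subtype.ext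
    ext d
    simp [Algebra.smul_def]

open TensorProduct in
lemma j18194_j18194_bcHom_isBaseChange (R k : Type) [CommRing R] [CommRing k] [Algebra R k] (m : ℕ) :
    IsBaseChange k (j18194_j18194_bcHom R k m) := by
  let e : k ⊗[R] homogeneousSubmodule (Fin 4) R m ≃ₗ[k] homogeneousSubmodule (Fin 4) k m :=
    ((j13489_hbasis R m).baseChange k).equiv (j13489_hbasis k m) (Equiv.refl _)
  refine IsBaseChange.of_equiv e ?_
  have h : (e.restrictScalars R).toLinearMap ∘ₗ (TensorProduct.mk R k _ 1) = j18194_j18194_bcHom R k m := by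
    refine (j13489_hbasis R m).ext fun d => ?_
    have h1 : e (((j13489_hbasis R m).baseChange k) d) = j13489_hbasis k m d := by
      simp only [e, Module.Basis.equiv_apply, Equiv.refl_apply]
    rw [Module.Basis.baseChange_apply] at h1
    change e (1 ⊗ₜ[R] (j13489_hbasis R m d)) = _
    rw [h1, j13489_hbasis_apply, j13489_hbasis_apply]
    apply Subtype.ext
    simp [j18194_j18194_bcHom]
  intro x
  exact congrArg (fun f => f x) h

/-- the base change map on the graded pieces of the quotients -/
noncomputable def j18194_j18194_bcQuot (R k : Type) [CommRing R] [CommRing k] [Algebra R k]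
    (I : Ideal (S R)) (m : ℕ) :
    grPart R I m →ₗ[R] grPart k (I.map (MvPolynomial.map (σ := Fin 4) (algebraMap R k))) m where
  toFun x := ⟨Ideal.quotientMap (I.map (MvPolynomial.map (σ := Fin 4) (algebraMap R k)))
    (MvPolynomial.map (σ := Fin 4) (algebraMap R k)) Ideal.le_comap_map x.1, by
      obtain ⟨_, F, hF, rfl⟩ := x
      exact ⟨MvPolynomial.map (algebraMap R k) F, IsHomogeneous.map hF _, rfl⟩⟩
  map_add' F G := by apply Subtype.ext; simp
  map_smul' r x := by
    apply Subtype.ext
    obtain ⟨_, F, hF, rfl⟩ := x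
    have h : MvPolynomial.map (algebraMap R k) (r • F) =
      r • MvPolynomial.map (algebraMap R k) F := by
      ext d
      simp [Algebra.smul_def]
    change Ideal.Quotient.mk _ (MvPolynomial.map (algebraMap R k) (r • F)) =
      r • Ideal.Quotient.mk _ (MvPolynomial.map (algebraMap R k) F)
    rw [h]
    rfl

lemma j18194_j18194_bcQuot_isBaseChange (R k : Type) [CommRing R] [CommRing k] [Algebra R k]
    {I : Ideal (S R)} (hI : IsHom I) (m : ℕ) :
    IsBaseChange k (j18194_j18194_bcQuot R k I m) := by
  refine j13489_isBaseChange_quot (j18194_j18194_bcHom R k m) (j18194_j18194_bcQuot R k I m)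
    ((Ideal.Quotient.mkₐ R I).toLinearMap.submoduleMap (homogeneousSubmodule (Fin 4) R m))
    ((Ideal.Quotient.mkₐ k (I.map (MvPolynomial.map (σ := Fin 4)
      (algebraMap R k)))).toLinearMap.submoduleMap (homogeneousSubmodule (Fin 4) k m))
    ?_ (j18194_j18194_bcHom_isBaseChange R k m) (LinearMap.submoduleMap_surjective _ _)
    (LinearMap.submoduleMap_surjective _ _) ?_
  · ext x : 1
    rfl
  · intro x hx
    have hx1 : x.1 ∈ I.map (MvPolynomial.map (σ := Fin 4) (algebraMap R k)) :=
      Ideal.Quotient.eq_zero_iff_mem.1 (congrArg Subtype.val hx)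
    have hx2 : x.1 ∈ Submodule.span k ((MvPolynomial.map (σ := Fin 4) (algebraMap R k)) ''
        (dgR I m : Set (S R))) := by
      rw [← dgR_map (algebraMap R k) hI m]
      exact ⟨hx1, x.2⟩
    have hle : Submodule.span k ((MvPolynomial.map (σ := Fin 4) (algebraMap R k)) ''
        (dgR I m : Set (S R))) ≤
        (Submodule.span k ((j18194_j18194_bcHom R k m) '' {y | ((Ideal.Quotient.mkₐ R I).toLinearMap.submoduleMap
          (homogeneousSubmodule (Fin 4) R m)) y = 0})).map (Submodule.subtype _) := by
      refine Submodule.span_le.2 ?_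
      rintro _ ⟨F, ⟨h1, h2⟩, rfl⟩
      refine ⟨j18194_j18194_bcHom R k m ⟨F, h2⟩, Submodule.subset_span ⟨⟨F, h2⟩, ?_, rfl⟩, rfl⟩
      apply Subtype.ext
      exact Ideal.Quotient.eq_zero_iff_mem.2 h1
    obtain ⟨y, hy, hyx⟩ := hle hx2
    have : y = x := Subtype.ext hyx
    rw [← this]
    exact hy

lemma LFr_map {I : Ideal (S R)} (hI : IsHom I) {m r : ℕ} (h : LFr R I m r) :
    LFr R' (I.map (MvPolynomial.map (σ := Fin 4) φ)) m r := by
  obtain ⟨h1, h2⟩ := h
  let _ : Algebra R R' := φ.toAlgebra
  have hfin : Module.Finite R (grPart R I m) := j13489_grPart_finite R I m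
  have hb := j18194_j18194_bcQuot_isBaseChange R R' hI m
  refine ⟨Module.Projective.of_equiv hb.equiv, fun p => ?_⟩
  have h3 := Module.rankAtStalk_isBaseChange hb p
  rw [h2] at h3
  exact h3

lemma LFr_field {k : Type} [Field k] {I : Ideal (S k)} {m r : ℕ} : LFr k I m r ↔ hf I m = r := by
  unfold LFr
  have h2 := Module.rankAtStalk_eq_finrank_of_free (R := k) (M := grPart k I m)
  rw [h2]
  constructor
  · rintro ⟨_, h⟩
    rw [j13489_hf_eq_finrank, ← h ⟨⊥, Ideal.isPrime_bot⟩]
    rfl
  · intro h
    refine ⟨inferInstance, fun p => ?_⟩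
    rw [← h, j13489_hf_eq_finrank]
    rfl

lemma j18194_j18194_card (m : ℕ) : Nat.card {d : Fin 4 →₀ ℕ // d.degree = m} = (m + 3).choose 3 := by
  have e : ∀ d : Fin 4 →₀ ℕ, d.degree = m ↔ d ∈ Finset.finsuppAntidiag Finset.univ m := by
    intro d
    rw [Finset.mem_finsuppAntidiag, Finsupp.degree_eq_sum]
    simp
  rw [Nat.card_congr (Equiv.subtypeEquivRight e), Nat.card_eq_fintype_card, Fintype.card_coe,
    Finset.card_finsuppAntidiag_nat_eq_choose, Finset.card_univ, Fintype.card_fin]
  have : 4 + m - 1 = m + 3 := by omega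
  rw [this]
  exact Nat.choose_symm_of_eq_add rfl

lemma j18194_j18194_finrank {k : Type} [Field k] (m : ℕ) :
    Module.finrank k (homogeneousSubmodule (Fin 4) k m) = (m + 3).choose 3 := by
  rw [Module.finrank_eq_nat_card_basis (j13489_hbasis k m), j18194_j18194_card]

lemma LFr_le {I : Ideal (S R)} (hI : IsHom I) [Nontrivial R] {m r : ℕ} (h : LFr R I m r) :
    r ≤ (m + 3).choose 3 := by
  obtain ⟨p, hp⟩ := Ideal.exists_maximal R
  let _ : Field (R ⧸ p) := Ideal.Quotient.field p
  have h1 := LFr_map (Ideal.Quotient.mk p) hI h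
  rw [LFr_field] at h1
  rw [← h1, ← j18194_j18194_finrank (k := R ⧸ p) m]
  exact Nat.sub_le _ _

/-- an alternating-type determinant on a free module of small rank vanishes -/
lemma j18198_j18198_det_zero {A D : Type*} [CommRing A] [Nontrivial A] [AddCommMonoid D] [Module A D] [Module.Free A D]
    [Module.Finite A D] {q : ℕ} (hq : Module.finrank A D < q) (c : Fin q → (D →ₗ[A] A))
    (w : Fin q → D) : (Matrix.of fun i j => c i (w j)).det = 0 := by
  let b := Module.finBasis A D
  let f : D [⋀^Fin q]→ₗ[A] A :=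
    (Matrix.detRowAlternating (R := A) (n := Fin q)).compLinearMap (LinearMap.pi c)
  have hf : f = 0 := by
    refine Module.Basis.ext_alternating b fun v hv => ?_
    exfalso
    have := Fintype.card_le_of_injective v hv
    simp only [Fintype.card_fin] at this
    omega
  have h1 : f w = 0 := by rw [hf]; rfl
  rw [← Matrix.det_transpose]
  exact h1

lemma j18198_j18198_loc {R D : Type*} [CommRing R] [AddCommGroup D] [Module R D] [Module.Projective R D]
    [Module.Finite R D] (J : Ideal R) [J.IsPrime] {q : ℕ}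
    (hfr : Module.rankAtStalk (R := R) D ⟨J, inferInstance⟩ < q) (c : Fin q → (D →ₗ[R] R))
    (w : Fin q → D) : algebraMap R (Localization.AtPrime J) (Matrix.of fun i j => c i (w j)).det = 0 := by
  let ℓ := LocalizedModule.mkLinearMap J.primeCompl D
  let c' : Fin q → (LocalizedModule J.primeCompl D →ₗ[Localization.AtPrime J] Localization.AtPrime J) := fun i =>
    IsLocalizedModule.mapExtendScalars J.primeCompl ℓ (Algebra.linearMap R (Localization.AtPrime J)) (Localization.AtPrime J) (c i)
  have hc' : ∀ i y, c' i (ℓ y) = algebraMap R (Localization.AtPrime J) (c i y) := by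
    intro i y
    change IsLocalizedModule.map J.primeCompl ℓ (Algebra.linearMap R (Localization.AtPrime J)) (c i) (ℓ y) = _
    rw [IsLocalizedModule.map_apply]
    rfl
  have hflat : Module.Flat R D := inferInstance
  have hfree : Module.Free (Localization.AtPrime J) (LocalizedModule J.primeCompl D) := by
    have : Module.Flat (Localization.AtPrime J) (LocalizedModule J.primeCompl D) := inferInstance
    exact Module.free_of_flat_of_isLocalRing
  have hfinal := j18198_j18198_det_zero (A := Localization.AtPrime J) (D := LocalizedModule J.primeCompl D) hfr c'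
    (fun j => ℓ (w j))
  rw [RingHom.map_det, ← hfinal]
  congr 1
  ext i j
  change algebraMap R (Localization.AtPrime J) (c i (w j)) = c' i (ℓ (w j))
  rw [hc']

lemma j18198_j18198_card (m : ℕ) :
    Nat.card {d : Fin 4 →₀ ℕ // d.degree = m} = (m + 3).choose 3 := by
  have e : Sym (Fin 4) m ≃ {d : Fin 4 →₀ ℕ // d.degree = m} :=
    (Sym.equivNatSum (Fin 4) m).trans (Equiv.subtypeEquivRight fun d => by
      rw [Finsupp.degree_eq_sum, Finsupp.sum_fintype _ _ (fun _ => rfl)]
      rfl)
  rw [← Nat.card_congr e, Nat.card_eq_fintype_card, Sym.card_sym_eq_choose, Fintype.card_fin]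
  have h1 : 4 + m - 1 = m + 3 := by omega
  rw [h1, Nat.choose_symm_add]

/-- the minors of size `rank + 1` vanish -/
lemma LFr_minI {I : Ideal (S R)} {m r : ℕ} (h : LFr R I m r) :
    minI ((m + 3).choose 3 - r + 1) (dgR I m) = ⊥ := by
  classical
  unfold minI
  rw [Ideal.span_eq_bot]
  rintro x ⟨μ, F, hF, rfl⟩
  apply eq_zero_of_localization
  intro J hJ
  have hJp : J.IsPrime := hJ.isPrime
  let p : PrimeSpectrum R := ⟨J, hJp⟩
  have hRn : Nontrivial R := ⟨0, 1, fun h01 => hJ.ne_top ((Ideal.eq_top_iff_one J).2 (h01 ▸ J.zero_mem))⟩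
  -- modules
  let P := homogeneousSubmodule (Fin 4) R m
  let π : P →ₗ[R] grPart R I m :=
    (Ideal.Quotient.mkₐ R I).toLinearMap.submoduleMap (homogeneousSubmodule (Fin 4) R m)
  have hπ : Function.Surjective π := LinearMap.submoduleMap_surjective _ _
  have hproj : Module.Projective R (grPart R I m) := h.1
  have hfin : Module.Finite R (grPart R I m) := j13489_grPart_finite R I m
  obtain ⟨σ, hσ⟩ := Module.projective_lifting_property π LinearMap.id hπ
  have hσ' : ∀ y, π (σ y) = y := fun y => LinearMap.congr_fun hσ y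
  have hPfree : Module.Free R P := Module.Free.of_basis (j13489_hbasis R m)
  have hPfin : Module.Finite R P := Module.Finite.iff_fg.2 (homogeneousSubmodule_fg (Fin 4) R m)
  let D := LinearMap.ker π
  -- the splitting
  let e : P ≃ₗ[R] (D × grPart R I m) :=
    LinearEquiv.ofLinearMap
      (LinearMap.prod (LinearMap.codRestrict D (LinearMap.id - σ ∘ₗ π) (fun x => by
        change π (x - σ (π x)) = 0
        rw [map_sub, hσ', sub_self])) π)
      (LinearMap.coprod D.subtype σ)
      (by
        apply LinearMap.ext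
        rintro ⟨d, y⟩
        have hd : π d.1 = 0 := d.2
        have h2 : π (d.1 + σ y) = y := by rw [map_add, hd, zero_add, hσ']
        apply Prod.ext
        · apply Subtype.ext
          change (d.1 + σ y) - σ (π (d.1 + σ y)) = d.1
          rw [h2]
          abel
        · exact h2)
      (by
        apply LinearMap.ext
        intro x
        change (x - σ (π x)) + σ (π x) = x
        abel)
  have hDsurj : Function.Surjective ((LinearMap.fst R D (grPart R I m)) ∘ₗ e.toLinearMap) := by
    intro d
    exact ⟨e.symm (d, 0), by simp⟩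
  have hDfin : Module.Finite R D := Module.Finite.of_surjective _ hDsurj
  have hDproj : Module.Projective R D := by
    refine Module.Projective.of_split D.subtype ((LinearMap.fst R D (grPart R I m)) ∘ₗ e.toLinearMap) ?_
    apply LinearMap.ext
    intro d
    have hd : π d.1 = 0 := d.2
    apply Subtype.ext
    change d.1 - σ (π d.1) = d.1
    rw [hd, map_zero, sub_zero]
  -- ranks
  have hrank : Module.rankAtStalk (R := R) D p + r = (m + 3).choose 3 := by
    have h1 := Module.rankAtStalk_eq_of_equiv (R := R) (M := P) (N := D × grPart R I m) e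
    have h2 := Module.rankAtStalk_prod (R := R) D (grPart R I m)
    rw [h2] at h1
    have h3 := congrFun h1 p
    rw [Pi.add_apply, h.2 p, Module.rankAtStalk_eq_finrank_of_free] at h3
    rw [← h3, ← j18198_j18198_card m]
    exact (Module.finrank_eq_nat_card_basis (j13489_hbasis R m))
  have hF' : ∀ j, ∃ w : D, (w.1.1 : S R) = F j := by
    intro j
    have h1 := (hF j).2
    have h2 := (hF j).1
    exact ⟨⟨⟨F j, h1⟩, Subtype.ext (Ideal.Quotient.eq_zero_iff_mem.2 h2)⟩, rfl⟩
  choose w hw using hF'
  let c : Fin ((m + 3).choose 3 - r + 1) → (D →ₗ[R] R) := fun i =>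
    (lcoeff R (μ i)) ∘ₗ P.subtype ∘ₗ D.subtype
  have hfinal := j18198_j18198_loc (R := R) (D := D) J (q := (m + 3).choose 3 - r + 1) (by
    change Module.rankAtStalk (R := R) D p < _
    omega) c w
  rw [← hfinal]
  congr 2
  ext i j
  change coeff (μ i) (F j) = c i (w j)
  rw [← hw j]
  rfl

lemma j18205_j18205_bord_row {R : Type} [CommRing R] {n : ℕ} (N : Matrix (Fin (n + 1)) (Fin (n + 1)) R) :
    (N.updateRow 0 (Pi.single 0 1)).det = (N.submatrix Fin.succ Fin.succ).det := by
  rw [Matrix.det_succ_row_zero, Finset.sum_eq_single 0]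
  · simp [Matrix.submatrix]
  · intro b _ hb
    simp [Pi.single_eq_of_ne hb]
  · simp

/-- linearly independent polynomials have a nonvanishing minor -/
lemma j18205_j18205_minor {k : Type} [Field k] : ∀ (n : ℕ) (F : Fin n → S k), LinearIndependent k F →
    ∃ μ : Fin n → (Fin 4 →₀ ℕ), (Matrix.of fun i j => coeff (μ i) (F j)).det ≠ 0 := by
  intro n
  induction n with
  | zero =>
    intro F _
    exact ⟨fun i => i.elim0, by simp⟩
  | succ n ih =>
    intro F hF
    obtain ⟨μ, hμ⟩ := ih (fun j => F j.succ) (hF.comp Fin.succ (Fin.succ_injective n))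
    by_contra hcon
    push Not at hcon
    have key : ∀ μ' : Fin 4 →₀ ℕ, ∑ j : Fin (n + 1), ((-1 : k) ^ (j : ℕ) *
        (Matrix.of fun i l => coeff (μ i) (F (j.succAbove l))).det) * coeff μ' (F j) = 0 := by
      intro μ'
      have h1 := hcon (Fin.cons μ' μ)
      rw [Matrix.det_succ_row_zero] at h1
      rw [← h1]
      refine Finset.sum_congr rfl fun j _ => ?_
      have h2 : (Matrix.of fun i j => coeff ((Fin.cons μ' μ : Fin (n + 1) → (Fin 4 →₀ ℕ)) i) (F j)).submatrix
          Fin.succ j.succAbove = Matrix.of fun i l => coeff (μ i) (F (j.succAbove l)) := by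
        ext i l
        simp
      rw [h2]
      simp only [Matrix.of_apply, Fin.cons_zero]
      ring
    have h3 : ∑ j : Fin (n + 1), ((-1 : k) ^ (j : ℕ) *
        (Matrix.of fun i l => coeff (μ i) (F (j.succAbove l))).det) • F j = 0 := by
      ext μ'
      rw [coeff_sum, coeff_zero, ← key μ']
      refine Finset.sum_congr rfl fun j _ => ?_
      rw [coeff_smul, smul_eq_mul]
    have h4 := Fintype.linearIndependent_iff.1 hF _ h3 0
    simp only [Fin.val_zero, pow_zero, one_mul, Fin.zero_succAbove] at h4
    exact hμ h4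

lemma j18205_j18205_minI_ne_bot {k : Type} [Field k] {V : Submodule k (S k)} {n : ℕ}
    (hn : n ≤ Module.finrank k V) : minI n V ≠ ⊥ := by
  obtain ⟨f, hf⟩ := exists_linearIndependent_of_le_finrank hn
  have hf2 : LinearIndependent k (fun j => (f j : S k)) :=
    hf.map' V.subtype (Submodule.ker_subtype V)
  obtain ⟨μ, hμ⟩ := j18205_j18205_minor n _ hf2
  intro h
  apply hμ
  have : (Matrix.of fun i j => coeff (μ i) (f j : S k)).det ∈ minI n V :=
    Ideal.subset_span ⟨μ, fun j => (f j : S k), fun j => (f j).2, rfl⟩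
  rw [h] at this
  exact this

lemma j18205_j18205_finrank_hom {k : Type} [Field k] (m : ℕ) :
    Module.finrank k (homogeneousSubmodule (Fin 4) k m) = (m + 3).choose 3 := by
  rw [Module.finrank_eq_nat_card_basis (j13489_hbasis k m)]
  have e : {d : Fin 4 →₀ ℕ // d.degree = m} ≃ {P : Fin 4 →₀ ℕ // P.sum (fun _ ↦ id) = m} :=
    Equiv.subtypeEquivRight (fun d => by rfl)
  rw [Nat.card_congr (e.trans (Sym.equivNatSum (Fin 4) m).symm), Nat.card_eq_fintype_card,
    Sym.card_sym_fin_eq_multichoose, Nat.multichoose_eq]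
  have : 4 + m - 1 = m + 3 := by omega
  rw [this]
  exact (Nat.choose_symm_of_eq_add (by omega))

/-- the Cramer retraction -/
lemma j18205_j18205_retr {R : Type} [CommRing R] {Q : Submodule R (S R)} {q : ℕ}
    (h : minI (q + 1) Q = ⊥) {x : R} (hx : x ∈ minI q Q) :
    ∃ T : S R →ₗ[R] S R, (∀ G, T G ∈ Q) ∧ ∀ G ∈ Q, T G = x • G := by
  unfold minI at hx
  induction hx using Submodule.span_induction with
  | zero => exact ⟨0, fun G => Q.zero_mem, fun G _ => by simp⟩
  | add x y _ _ hx hy =>
    obtain ⟨T, h1, h2⟩ := hx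
    obtain ⟨U, h3, h4⟩ := hy
    refine ⟨T + U, fun G => Q.add_mem (h1 G) (h3 G), fun G hG => ?_⟩
    rw [LinearMap.add_apply, h2 G hG, h4 G hG, add_smul]
  | smul a x _ hx =>
    obtain ⟨T, h1, h2⟩ := hx
    refine ⟨a • T, fun G => Q.smul_mem a (h1 G), fun G hG => ?_⟩
    rw [LinearMap.smul_apply, h2 G hG, smul_smul, smul_eq_mul]
  | mem x hx =>
    obtain ⟨μ, F, hF, rfl⟩ := hx
    -- the columns
    let c : S R →ₗ[R] (Fin (q + 1) → R) := LinearMap.pi (fun i =>
      (Fin.cons 0 (fun i => (lcoeff R (μ i) : S R →ₗ[R] R)) : Fin (q + 1) → (S R →ₗ[R] R)) i)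
    let M0 : Fin q → Matrix (Fin (q + 1)) (Fin (q + 1)) R := fun j =>
      Matrix.of (Fin.cons (Pi.single j.succ 1) (fun i => Fin.cons 0 (fun l => coeff (μ i) (F l))))
    let T : S R →ₗ[R] S R := -∑ j : Fin q,
      ((LinearMap.proj 0 ∘ₗ (Matrix.cramer (M0 j)) ∘ₗ c).smulRight (F j))
    have hT : ∀ G, T G = -∑ j : Fin q, ((M0 j).updateCol 0 (c G)).det • F j := by
      intro G
      simp [T, LinearMap.sum_apply, Matrix.cramer_apply]
    refine ⟨T, fun G => ?_, fun G hG => ?_⟩
    · rw [hT]
      exact Q.neg_mem (Q.sum_mem fun j _ => Q.smul_mem _ (hF j))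
    · rw [hT]
      ext μ'
      have hdet : (Matrix.of fun i j => coeff ((Fin.cons μ' μ : Fin (q + 1) → (Fin 4 →₀ ℕ)) i)
          ((Fin.cons G F : Fin (q + 1) → S R) j)).det = 0 := by
        have : (Matrix.of fun i j => coeff ((Fin.cons μ' μ : Fin (q + 1) → (Fin 4 →₀ ℕ)) i)
          ((Fin.cons G F : Fin (q + 1) → S R) j)).det ∈ minI (q + 1) Q := by
          refine Ideal.subset_span ⟨_, _, ?_, rfl⟩
          intro j
          refine Fin.cases ?_ (fun j => ?_) j
          · exact hG
          · exact hF j
        rw [h] at this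
        exact this
      rw [Matrix.det_eq_sum_mul_adjugate_row _ 0, Fin.sum_univ_succ] at hdet
      have e0 : (Matrix.of fun i j => coeff ((Fin.cons μ' μ : Fin (q + 1) → (Fin 4 →₀ ℕ)) i)
          ((Fin.cons G F : Fin (q + 1) → S R) j)).adjugate 0 0 =
          (Matrix.of fun i j => coeff (μ i) (F j)).det := by
        rw [Matrix.adjugate_apply, j18205_j18205_bord_row]
        congr 1
      have e1 : ∀ j : Fin q, (Matrix.of fun i j => coeff ((Fin.cons μ' μ : Fin (q + 1) → (Fin 4 →₀ ℕ)) i)
          ((Fin.cons G F : Fin (q + 1) → S R) j)).adjugate j.succ 0 =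
          ((M0 j).updateCol 0 (c G)).det := by
        intro j
        rw [Matrix.adjugate_apply]
        congr 1
        ext i l
        refine Fin.cases ?_ (fun i => ?_) i
        · refine Fin.cases ?_ (fun l => ?_) l
          · simp [c, Pi.single_apply, (Fin.succ_ne_zero j).symm]
          · simp [M0]
        · refine Fin.cases ?_ (fun l => ?_) l
          · simp [c, lcoeff_apply]
          · simp [M0]
      rw [e0] at hdet
      simp_rw [e1] at hdet
      rw [coeff_neg, coeff_sum, coeff_smul, smul_eq_mul]
      simp only [coeff_smul, smul_eq_mul]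
      simp only [Matrix.of_apply, Fin.cons_zero, Fin.cons_succ] at hdet
      have hs : ∑ j : Fin q, coeff μ' (F j) * ((M0 j).updateCol 0 (c G)).det =
          ∑ j : Fin q, ((M0 j).updateCol 0 (c G)).det * coeff μ' (F j) :=
        Finset.sum_congr rfl fun j _ => mul_comm _ _
      rw [hs] at hdet
      linear_combination (-1 : R) * hdet

lemma j18205_j18205_rank {I : Ideal (S R)} (hI : IsHom I) {m : ℕ}
    (hproj : Module.Projective R (grPart R I m)) (p : PrimeSpectrum R) :
    Module.rankAtStalk (R := R) (grPart R I m) p = hf (I.map (MvPolynomial.map (σ := Fin 4)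
      (algebraMap R p.asIdeal.ResidueField))) m := by
  have hfin : Module.Finite R (grPart R I m) := j13489_grPart_finite R I m
  have hb := j13489_bcQuot_isBaseChange (k := p.asIdeal.ResidueField) hI m
  let p0 : PrimeSpectrum p.asIdeal.ResidueField := ⟨⊥, Ideal.isPrime_bot⟩
  have h1 := Module.rankAtStalk_isBaseChange hb p0
  have h3 : p0.comap (algebraMap R p.asIdeal.ResidueField) = p := by
    apply PrimeSpectrum.ext
    exact Ideal.ker_algebraMap_residueField (I := p.asIdeal)
  rw [h3] at h1
  rw [← h1, j13489_hf_eq_finrank]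
  have h2 := congrFun (Module.rankAtStalk_eq_finrank_of_free (R := p.asIdeal.ResidueField)
    (M := grPart p.asIdeal.ResidueField (I.map (MvPolynomial.map (σ := Fin 4)
      (algebraMap R p.asIdeal.ResidueField))) m)) p0
  rw [h2]
  rfl

/-- conversely, if the minors vanish and the fibres have dimension at most `r` -/
lemma LFr_of_minI {I : Ideal (S R)} (hI : IsHom I) {m r : ℕ}
    (h : minI ((m + 3).choose 3 - r + 1) (dgR I m) = ⊥)
    (h2 : ∀ p : PrimeSpectrum R, hf (I.map (MvPolynomial.map (σ := Fin 4)
      (algebraMap R p.asIdeal.ResidueField))) m ≤ r) (hr : r ≤ (m + 3).choose 3) :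
    LFr R I m r := by
  set s := (m + 3).choose 3 with hs
  -- the dimension of the fibres of the forms in the ideal
  have hdim : ∀ p : PrimeSpectrum R, Module.finrank p.asIdeal.ResidueField
      (dg (I.map (MvPolynomial.map (σ := Fin 4) (algebraMap R p.asIdeal.ResidueField))) m) +
      hf (I.map (MvPolynomial.map (σ := Fin 4) (algebraMap R p.asIdeal.ResidueField))) m = s := by
    intro p
    rw [hf_add, j18205_j18205_finrank_hom]
  have hmin : ∀ (p : PrimeSpectrum R) (n : ℕ),
      minI n (dg (I.map (MvPolynomial.map (σ := Fin 4)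
        (algebraMap R p.asIdeal.ResidueField))) m) =
      (minI n (dgR I m)).map (algebraMap R p.asIdeal.ResidueField) := by
    intro p n
    rw [← minI_map, ← dgR_map _ hI]
    rfl
  have hge : ∀ p : PrimeSpectrum R, hf (I.map (MvPolynomial.map (σ := Fin 4)
      (algebraMap R p.asIdeal.ResidueField))) m = r := by
    intro p
    refine le_antisymm (h2 p) ?_
    by_contra hlt
    push Not at hlt
    have h3 := hdim p
    have h4 : s - r + 1 ≤ Module.finrank p.asIdeal.ResidueField
      (dg (I.map (MvPolynomial.map (σ := Fin 4) (algebraMap R p.asIdeal.ResidueField))) m) := by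
      omega
    apply j18205_j18205_minI_ne_bot h4
    rw [hmin, h, Ideal.map_bot]
  have htop : minI (s - r) (dgR I m) = ⊤ := by
    by_contra hne
    obtain ⟨M, hM, hle⟩ := Ideal.exists_le_maximal _ hne
    let p : PrimeSpectrum R := ⟨M, hM.isPrime⟩
    have h3 := hdim p
    have h5 := hge p
    have h4 : s - r ≤ Module.finrank p.asIdeal.ResidueField
      (dg (I.map (MvPolynomial.map (σ := Fin 4) (algebraMap R p.asIdeal.ResidueField))) m) := by
      omega
    apply j18205_j18205_minI_ne_bot h4
    rw [hmin, Ideal.map_eq_bot_iff_le_ker, Ideal.ker_algebraMap_residueField]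
    exact hle
  obtain ⟨T, hT1, hT2⟩ := j18205_j18205_retr h (x := 1) (by rw [htop]; exact Submodule.mem_top)
  have hproj : Module.Projective R (grPart R I m) := by
    let π : homogeneousSubmodule (Fin 4) R m →ₗ[R] grPart R I m :=
      (Ideal.Quotient.mkₐ R I).toLinearMap.submoduleMap (homogeneousSubmodule (Fin 4) R m)
    have hπ : Function.Surjective π := LinearMap.submoduleMap_surjective _ _
    have hker : ∀ G : homogeneousSubmodule (Fin 4) R m, π G = 0 ↔ (G : S R) ∈ I := by
      intro G
      rw [← Ideal.Quotient.eq_zero_iff_mem]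
      constructor
      · intro h
        exact congrArg Subtype.val h
      · intro h
        exact Subtype.ext h
    -- the complementary projection
    let U : homogeneousSubmodule (Fin 4) R m →ₗ[R] homogeneousSubmodule (Fin 4) R m :=
      LinearMap.codRestrict _ (((LinearMap.id - T) : S R →ₗ[R] S R) ∘ₗ Submodule.subtype _) (by
        intro G
        exact Submodule.sub_mem _ G.2 (hT1 _).2)
    have hU : ∀ G, ((U G : homogeneousSubmodule (Fin 4) R m) : S R) = G - T G := fun G => rfl
    have hUk : LinearMap.ker π ≤ LinearMap.ker U := by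
      intro G hG
      rw [LinearMap.mem_ker] at hG ⊢
      apply Subtype.ext
      rw [hU, hT2 G ⟨(hker G).1 hG, G.2⟩, one_smul, sub_self]
      rfl
    let e := π.quotKerEquivOfSurjective hπ
    let σ : grPart R I m →ₗ[R] homogeneousSubmodule (Fin 4) R m :=
      ((LinearMap.ker π).liftQ U hUk) ∘ₗ e.symm.toLinearMap
    have hfree : Module.Free R (homogeneousSubmodule (Fin 4) R m) :=
      Module.Free.of_basis (j13489_hbasis R m)
    refine Module.Projective.of_split σ π ?_
    ext1 x
    obtain ⟨G, rfl⟩ := hπ x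
    have h3 : e.symm (π G) = (LinearMap.ker π).mkQ G := by
      rw [LinearEquiv.symm_apply_eq]
      rfl
    have h4 : σ (π G) = U G := by
      show ((LinearMap.ker π).liftQ U hUk) (e.symm (π G)) = U G
      rw [h3]
      rfl
    rw [LinearMap.comp_apply, h4, LinearMap.id_apply, ← sub_eq_zero, ← map_sub, hker]
    have h5 : ((U G - G : homogeneousSubmodule (Fin 4) R m) : S R) = - T G := by
      rw [Submodule.coe_sub, hU]
      abel
    rw [h5]
    exact I.neg_mem (hT1 _).1
  refine ⟨hproj, fun p => ?_⟩
  rw [j18205_j18205_rank hI hproj p, hge p]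

lemma LFr_of_local {I : Ideal (S R)} (hI : IsHom I) {m r : ℕ}
    (h : ∀ p : PrimeSpectrum R, LFr (Localization.AtPrime p.asIdeal) (I.map
      (MvPolynomial.map (σ := Fin 4) (algebraMap R (Localization.AtPrime p.asIdeal)))) m r) :
    LFr R I m r := by
  rcases subsingleton_or_nontrivial R with hR | hR
  · refine ⟨?_, fun p => ?_⟩
    · have : Subsingleton (grPart R I m) := Module.subsingleton R _
      infer_instance
    · exact absurd (Subsingleton.elim (1 : R) 0) (fun h1 => p.2.ne_top (by
        rw [Ideal.eq_top_iff_one, h1]; exact p.asIdeal.zero_mem))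
  · apply LFr_of_minI hI
    · rw [eq_bot_iff]
      intro x hx
      rw [Ideal.mem_bot]
      apply eq_zero_of_localization
      intro J hJ
      have hJp : J.IsPrime := hJ.isPrime
      have h1 := LFr_minI (h ⟨J, hJp⟩)
      rw [dgR_map _ hI, minI_map] at h1
      have h2 := Ideal.mem_map_of_mem (algebraMap R (Localization.AtPrime J)) hx
      have h3 : (algebraMap R (Localization.AtPrime J)) x ∈ (⊥ : Ideal (Localization.AtPrime J)) := by
        rw [← h1]; exact h2
      exact h3
    · intro p
      have h1 := LFr_map (algebraMap (Localization.AtPrime p.asIdeal) p.asIdeal.ResidueField)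
        (map_isHom (algebraMap R (Localization.AtPrime p.asIdeal)) hI) (h p)
      rw [Ideal.map_map] at h1
      have h2 : (MvPolynomial.map (σ := Fin 4)
          (algebraMap (Localization.AtPrime p.asIdeal) p.asIdeal.ResidueField)).comp
          (MvPolynomial.map (σ := Fin 4) (algebraMap R (Localization.AtPrime p.asIdeal))) =
          MvPolynomial.map (σ := Fin 4) (algebraMap R p.asIdeal.ResidueField) := by
        rw [IsScalarTower.algebraMap_eq R (Localization.AtPrime p.asIdeal) p.asIdeal.ResidueField]
        refine MvPolynomial.ringHom_ext (fun x => ?_) (fun i => ?_)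
        · simp only [RingHom.comp_apply, MvPolynomial.map_C]
        · simp only [RingHom.comp_apply, MvPolynomial.map_X]
      rw [h2] at h1
      exact (LFr_field.1 h1).le
    · obtain ⟨p⟩ : Nonempty (PrimeSpectrum R) := inferInstance
      exact LFr_le (map_isHom (algebraMap R (Localization.AtPrime p.asIdeal)) hI) (h p)

lemma j18211_j18211_loc_mem {R Rp : Type} [CommRing R] [CommRing Rp] [Algebra R Rp] (M : Submonoid R)
    [IsLocalization M Rp] (I : Ideal (S R)) (F : S R) :
    MvPolynomial.map (algebraMap R Rp) F ∈ I.map (MvPolynomial.map (σ := Fin 4) (algebraMap R Rp)) ↔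
      ∃ s ∈ M, C s * F ∈ I := by
  letI : Algebra (S R) (S Rp) := MvPolynomial.algebraMvPolynomial
  have h0 : IsLocalization (M.map (C (σ := Fin 4) (R := R))) (S Rp) :=
    MvPolynomial.isLocalization M Rp
  have h := IsLocalization.algebraMap_mem_map_algebraMap_iff (M.map (C (σ := Fin 4) (R := R)))
    (S := S Rp) I F
  rw [MvPolynomial.algebraMap_def] at h
  rw [h]
  constructor
  · rintro ⟨m, ⟨s, hs, rfl⟩, hm⟩
    exact ⟨s, hs, hm⟩
  · rintro ⟨s, hs, hm⟩
    exact ⟨C s, ⟨s, hs, rfl⟩, hm⟩

lemma j18211_j18211_loc_surj {R Rp : Type} [CommRing R] [CommRing Rp] [Algebra R Rp] (M : Submonoid R)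
    [IsLocalization M Rp] (F : S Rp) :
    ∃ s ∈ M, ∃ F1 : S R, C (algebraMap R Rp s) * F = MvPolynomial.map (algebraMap R Rp) F1 := by
  letI : Algebra (S R) (S Rp) := MvPolynomial.algebraMvPolynomial
  have h0 : IsLocalization (M.map (C (σ := Fin 4) (R := R))) (S Rp) :=
    MvPolynomial.isLocalization M Rp
  obtain ⟨⟨F1, ⟨_, ⟨s, hs, rfl⟩⟩⟩, h⟩ := IsLocalization.surj (M.map (C (σ := Fin 4) (R := R))) F
  refine ⟨s, hs, F1, ?_⟩
  rw [MvPolynomial.algebraMap_def] at h
  simp only [MvPolynomial.map_C] at h
  rw [← h, mul_comm]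

lemma mem_of_local {I : Ideal (S R)} {F : S R}
    (h : ∀ p : PrimeSpectrum R, MvPolynomial.map (algebraMap R (Localization.AtPrime p.asIdeal)) F ∈
      I.map (MvPolynomial.map (σ := Fin 4) (algebraMap R (Localization.AtPrime p.asIdeal)))) :
    F ∈ I := by
  let J : Ideal R :=
    { carrier := {r : R | C r * F ∈ I}
      add_mem' := by
        intro a b ha hb
        show C (a + b) * F ∈ I
        rw [C_add, add_mul]
        exact I.add_mem ha hb
      zero_mem' := by
        show C 0 * F ∈ I
        rw [C_0, zero_mul]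
        exact I.zero_mem
      smul_mem' := by
        intro c x hx
        show C (c • x) * F ∈ I
        rw [smul_eq_mul, C_mul, mul_assoc]
        exact I.mul_mem_left _ hx }
  have hJ : J = ⊤ := by
    by_contra hne
    obtain ⟨q, hq, hJq⟩ := Ideal.exists_le_maximal J hne
    obtain ⟨s, hs, hsF⟩ := (j18211_j18211_loc_mem q.primeCompl I F).1 (h ⟨q, hq.isPrime⟩)
    exact hs (hJq hsF)
  have h1 : (1 : R) ∈ J := by rw [hJ]; trivial
  have h2 : C (1 : R) * F ∈ I := h1
  rwa [C_1, one_mul] at h2

lemma sat_local {I : Ideal (S R)} (hsat : ∀ F : S R, (∀ i, X i * F ∈ I) → F ∈ I)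
    (p : PrimeSpectrum R) (F : S (Localization.AtPrime p.asIdeal))
    (h : ∀ i, X i * F ∈ I.map (MvPolynomial.map (σ := Fin 4)
      (algebraMap R (Localization.AtPrime p.asIdeal)))) :
    F ∈ I.map (MvPolynomial.map (σ := Fin 4) (algebraMap R (Localization.AtPrime p.asIdeal))) := by
  obtain ⟨s, hs, F1, hF1⟩ := j18211_j18211_loc_surj p.asIdeal.primeCompl F
  have h1 : ∀ i, ∃ t ∈ p.asIdeal.primeCompl, C t * (X i * F1) ∈ I := by
    intro i
    rw [← j18211_j18211_loc_mem (Rp := Localization.AtPrime p.asIdeal) p.asIdeal.primeCompl I (X i * F1)]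
    rw [map_mul, MvPolynomial.map_X, ← hF1, ← mul_assoc, mul_comm (X i), mul_assoc]
    exact Ideal.mul_mem_left _ _ (h i)
  choose t ht htI using h1
  have h2 : C (∏ i, t i) * F1 ∈ I := by
    apply hsat
    intro i
    have e : X i * (C (∏ i, t i) * F1) = C (∏ j ∈ Finset.univ.erase i, t j) * (C (t i) * (X i * F1)) := by
      rw [← Finset.mul_prod_erase Finset.univ t (Finset.mem_univ i), C_mul]
      ring
    rw [e]
    exact I.mul_mem_left _ (htI i)
  have h3 : MvPolynomial.map (algebraMap R (Localization.AtPrime p.asIdeal)) F1 ∈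
      I.map (MvPolynomial.map (σ := Fin 4) (algebraMap R (Localization.AtPrime p.asIdeal))) :=
    (j18211_j18211_loc_mem p.asIdeal.primeCompl I F1).2
      ⟨∏ i, t i, Submonoid.prod_mem _ (fun i _ => ht i), h2⟩
  rw [← hF1] at h3
  have hu : IsUnit (C (σ := Fin 4) (algebraMap R (Localization.AtPrime p.asIdeal) s)) :=
    (IsLocalization.map_units (Localization.AtPrime p.asIdeal) ⟨s, hs⟩).map C
  exact (Ideal.unit_mul_mem_iff_mem _ hu).1 h3

end basic

section loc
variable {R : Type} [CommRing R] [IsLocalRing R]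

/-- reduction modulo the maximal ideal -/
noncomputable def red (R : Type) [CommRing R] [IsLocalRing R] :
    S R →+* S (IsLocalRing.ResidueField R) :=
  MvPolynomial.map (IsLocalRing.residue R)

lemma exists_lift1 {h : S (IsLocalRing.ResidueField R)} (hh : h.IsHomogeneous 1) :
    ∃ h' : S R, h'.IsHomogeneous 1 ∧ red R h' = h := by
  obtain ⟨h0, hh0⟩ := MvPolynomial.map_surjective (σ := Fin 4) (IsLocalRing.residue R)
    IsLocalRing.residue_surjective h
  refine ⟨homogeneousComponent 1 h0, homogeneousComponent_isHomogeneous 1 h0, ?_⟩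
  unfold red
  rw [← j13475_map_isHom_comp, hh0, homogeneousComponent_eq_self hh]

/-- multiplication by a linear form -/
noncomputable def j18216_j18216_mul {A : Type} [CommRing A] (I : Ideal (S A)) {h : S A}
    (hh : h.IsHomogeneous 1) (m : ℕ) : grPart A I m →ₗ[A] grPart A I (m + 1) where
  toFun x := ⟨Ideal.Quotient.mk I h * x.1, by
    obtain ⟨_, F, hF, rfl⟩ := x
    refine ⟨h * F, ?_, ?_⟩
    · have h1 : (h * F).IsHomogeneous (1 + m) := hh.mul hF
      rw [add_comm] at h1
      exact h1
    · change Ideal.Quotient.mk I (h * F) = Ideal.Quotient.mk I h * Ideal.Quotient.mk I F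
      exact map_mul _ _ _⟩
  map_add' x y := by
    apply Subtype.ext
    change Ideal.Quotient.mk I h * (x.1 + y.1) = Ideal.Quotient.mk I h * x.1 + Ideal.Quotient.mk I h * y.1
    exact mul_add _ _ _
  map_smul' r x := by
    apply Subtype.ext
    change Ideal.Quotient.mk I h * (r • x.1) = r • (Ideal.Quotient.mk I h * x.1)
    exact mul_smul_comm _ _ _

/-- the class of a form -/
noncomputable def j18216_j18216_cl {A : Type} [CommRing A] (I : Ideal (S A)) {m : ℕ} (F : S A)
    (hF : F.IsHomogeneous m) : grPart A I m :=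
  ⟨Ideal.Quotient.mk I F, F, hF, rfl⟩

lemma j18216_j18216_cl_surj {A : Type} [CommRing A] (I : Ideal (S A)) {m : ℕ} (x : grPart A I m) :
    ∃ (F : S A) (hF : F.IsHomogeneous m), x = j18216_j18216_cl I F hF := by
  obtain ⟨_, F, hF, rfl⟩ := x
  exact ⟨F, hF, rfl⟩

lemma j18216_j18216_cl_eq_zero {A : Type} [CommRing A] (I : Ideal (S A)) {m : ℕ} (F : S A)
    (hF : F.IsHomogeneous m) : j18216_j18216_cl I F hF = 0 ↔ F ∈ I := by
  constructor
  · intro h
    exact Ideal.Quotient.eq_zero_iff_mem.1 (congrArg Subtype.val h)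
  · intro h
    apply Subtype.ext
    exact Ideal.Quotient.eq_zero_iff_mem.2 h

lemma j18216_j18216_mul_cl {A : Type} [CommRing A] (I : Ideal (S A)) {h : S A}
    (hh : h.IsHomogeneous 1) (m : ℕ) (F : S A) (hF : F.IsHomogeneous m)
    (hF' : (h * F).IsHomogeneous (m + 1)) :
    j18216_j18216_mul I hh m (j18216_j18216_cl I F hF) = j18216_j18216_cl I (h * F) hF' := by
  apply Subtype.ext
  exact (map_mul (Ideal.Quotient.mk I) h F).symm

lemma j18216_j18216_mul_hom {A : Type} [CommRing A] {h : S A}
    (hh : h.IsHomogeneous 1) (m : ℕ) (F : S A) (hF : F.IsHomogeneous m) :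
    (h * F).IsHomogeneous (m + 1) := by
  have h1 : (h * F).IsHomogeneous (1 + m) := hh.mul hF
  rw [add_comm] at h1
  exact h1

/-- restriction of the quotient map -/
noncomputable def j18216_j18216_q {A : Type} [CommRing A] {I J : Ideal (S A)} (hIJ : I ≤ J) (m : ℕ) :
    grPart A I m →ₗ[A] grPart A J m where
  toFun x := ⟨Ideal.Quotient.factor hIJ x.1, by
    obtain ⟨_, F, hF, rfl⟩ := x
    exact ⟨F, hF, rfl⟩⟩
  map_add' x y := by
    apply Subtype.ext
    exact map_add (Ideal.Quotient.factor hIJ) x.1 y.1
  map_smul' r x := by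
    apply Subtype.ext
    obtain ⟨_, F, hF, rfl⟩ := x
    rfl

lemma j18216_j18216_q_cl {A : Type} [CommRing A] {I J : Ideal (S A)} (hIJ : I ≤ J) {m : ℕ} (F : S A)
    (hF : F.IsHomogeneous m) : j18216_j18216_q hIJ m (j18216_j18216_cl I F hF) = j18216_j18216_cl J F hF := rfl

attribute [local instance] MvPolynomial.gradedAlgebra in
lemma j18216_j18216_comp_mul {A : Type} [CommRing A] (G F : S A) (m n : ℕ) (hF : F.IsHomogeneous n) :
    homogeneousComponent (m + n) (G * F) = homogeneousComponent m G * F := by
  have h := DirectSum.coe_decompose_mul_add_of_right_mem (homogeneousSubmodule (Fin 4) A) (a := G)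
    (i := m) ((mem_homogeneousSubmodule n F).2 hF)
  rw [← MvPolynomial.decomposition.decompose'_apply, ← MvPolynomial.decomposition.decompose'_apply]
  exact h

lemma j18216_j18216_exact {A : Type} [CommRing A] {I : Ideal (S A)} (hI : IsHom I) {h : S A}
    (hh : h.IsHomogeneous 1) (m : ℕ) :
    Function.Exact (j18216_j18216_mul I hh m)
      (j18216_j18216_q (le_sup_left : I ≤ I ⊔ Ideal.span {h}) (m + 1)) := by
  intro x
  constructor
  · intro hx
    obtain ⟨F, hF, rfl⟩ := j18216_j18216_cl_surj I x
    rw [j18216_j18216_q_cl, j18216_j18216_cl_eq_zero] at hx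
    obtain ⟨a, ha, b, hb, hab⟩ := Submodule.mem_sup.1 hx
    obtain ⟨c, rfl⟩ := Ideal.mem_span_singleton'.1 hb
    have h1 : homogeneousComponent (m + 1) a + homogeneousComponent m c * h = F := by
      rw [← j18216_j18216_comp_mul c h m 1 hh, ← map_add, hab]
      exact homogeneousComponent_eq_self hF
    have hc := homogeneousComponent_isHomogeneous m c
    refine ⟨j18216_j18216_cl I (homogeneousComponent m c) hc, ?_⟩
    rw [j18216_j18216_mul_cl I hh m _ hc (j18216_j18216_mul_hom hh m _ hc)]
    apply Subtype.ext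
    refine Ideal.Quotient.eq.2 ?_
    rw [← h1]
    have h2 : h * homogeneousComponent m c -
        (homogeneousComponent (m + 1) a + homogeneousComponent m c * h) =
        - homogeneousComponent (m + 1) a := by ring
    rw [h2]
    exact I.neg_mem (hI a ha (m + 1))
  · rintro ⟨y, rfl⟩
    obtain ⟨F, hF, rfl⟩ := j18216_j18216_cl_surj I y
    rw [j18216_j18216_mul_cl I hh m F hF (j18216_j18216_mul_hom hh m F hF), j18216_j18216_q_cl, j18216_j18216_cl_eq_zero]
    exact (le_sup_right : Ideal.span {h} ≤ I ⊔ Ideal.span {h})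
      (Ideal.mul_mem_right _ _ (Ideal.mem_span_singleton_self h))

lemma j18216_j18216_q_surj {A : Type} [CommRing A] {I J : Ideal (S A)} (hIJ : I ≤ J) (m : ℕ) :
    Function.Surjective (j18216_j18216_q hIJ m) := by
  intro x
  obtain ⟨F, hF, rfl⟩ := j18216_j18216_cl_surj J x
  exact ⟨j18216_j18216_cl I F hF, rfl⟩

/-- the ideal of the fibre -/
noncomputable abbrev j18216_j18216_bar (I : Ideal (S R)) : Ideal (S (IsLocalRing.ResidueField R)) :=
  I.map (MvPolynomial.map (σ := Fin 4) (algebraMap R (IsLocalRing.ResidueField R)))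

lemma j18216_j18216_red_hom {h : S R} (hh : h.IsHomogeneous 1) :
    (MvPolynomial.map (σ := Fin 4) (algebraMap R (IsLocalRing.ResidueField R)) h).IsHomogeneous 1 :=
  hh.map _

lemma j18216_j18216_square (I : Ideal (S R)) {h : S R} (hh : h.IsHomogeneous 1) (m : ℕ)
    (x : grPart R I m) :
    j13489_bcQuot R (IsLocalRing.ResidueField R) I (m + 1) (j18216_j18216_mul I hh m x) =
      j18216_j18216_mul (j18216_j18216_bar I) (j18216_j18216_red_hom hh) m
        (j13489_bcQuot R (IsLocalRing.ResidueField R) I m x) := by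
  obtain ⟨F, hF, rfl⟩ := j18216_j18216_cl_surj I x
  apply Subtype.ext
  change Ideal.Quotient.mk (j18216_j18216_bar I)
      (MvPolynomial.map (σ := Fin 4) (algebraMap R (IsLocalRing.ResidueField R)) (h * F)) =
    Ideal.Quotient.mk (j18216_j18216_bar I)
      (MvPolynomial.map (σ := Fin 4) (algebraMap R (IsLocalRing.ResidueField R)) h) *
    Ideal.Quotient.mk (j18216_j18216_bar I)
      (MvPolynomial.map (σ := Fin 4) (algebraMap R (IsLocalRing.ResidueField R)) F)
  rw [map_mul, map_mul]

lemma j18216_j18216_inj {I : Ideal (S R)} (hI : IsHom I) {h : S R} (hh : h.IsHomogeneous 1) (m : ℕ)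
    (hinj : ∀ F : S (IsLocalRing.ResidueField R), F.IsHomogeneous m →
      red R h * F ∈ I.map (red R) → F ∈ I.map (red R)) :
    Function.Injective ((j18216_j18216_mul I hh m).lTensor (IsLocalRing.ResidueField R)) := by
  have hb := j13489_bcQuot_isBaseChange (k := IsLocalRing.ResidueField R) hI m
  have hb' := j13489_bcQuot_isBaseChange (k := IsLocalRing.ResidueField R) hI (m + 1)
  have hcomm : ∀ z, hb'.equiv ((j18216_j18216_mul I hh m).lTensor (IsLocalRing.ResidueField R) z) =
      j18216_j18216_mul (j18216_j18216_bar I) (j18216_j18216_red_hom hh) m (hb.equiv z) := by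
    intro z
    induction z using TensorProduct.induction_on with
    | zero =>
      rw [map_zero, map_zero, map_zero, map_zero]
    | add a b ha hb => rw [map_add, map_add, map_add, map_add, ha, hb]
    | tmul c y =>
      rw [LinearMap.lTensor_tmul, IsBaseChange.equiv_tmul, IsBaseChange.equiv_tmul, map_smul]
      rw [j18216_j18216_square]
  have hmi : ∀ x, j18216_j18216_mul (j18216_j18216_bar I) (j18216_j18216_red_hom hh) m x = 0 → x = 0 := by
    intro x hx
    obtain ⟨F, hF, rfl⟩ := j18216_j18216_cl_surj _ x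
    rw [j18216_j18216_mul_cl _ _ m F hF (j18216_j18216_mul_hom (j18216_j18216_red_hom hh) m F hF),
      j18216_j18216_cl_eq_zero] at hx
    rw [j18216_j18216_cl_eq_zero]
    exact hinj F hF hx
  rw [injective_iff_map_eq_zero]
  intro z hz
  have h1 := hcomm z
  rw [hz, map_zero] at h1
  have h2 := hmi _ h1.symm
  exact hb.equiv.map_eq_zero_iff.1 h2

/-- a linear form which is injective on the fibre is injective, with locally free cokernel -/
lemma inj_of_fibre {I : Ideal (S R)} (hI : IsHom I) {h : S R} (hh : h.IsHomogeneous 1)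
    {m r r' : ℕ} (h1 : LFr R I m r) (h2 : LFr R I (m + 1) (r + r'))
    (hinj : ∀ F : S (IsLocalRing.ResidueField R), F.IsHomogeneous m →
      red R h * F ∈ I.map (red R) → F ∈ I.map (red R)) :
    (∀ F : S R, F.IsHomogeneous m → h * F ∈ I → F ∈ I) ∧
      LFr R (I ⊔ Ideal.span {h}) (m + 1) r' := by
  have hf1 : Module.Finite R (grPart R I m) := j13489_grPart_finite R I m
  have hf2 : Module.Finite R (grPart R I (m + 1)) := j13489_grPart_finite R I (m + 1)
  have hf3 : Module.Finite R (grPart R (I ⊔ Ideal.span {h}) (m + 1)) :=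
    j13489_grPart_finite R _ (m + 1)
  have hp1 := h1.1
  have hp2 := h2.1
  have hfree : Module.Free R (grPart R I (m + 1)) := Module.free_of_flat_of_isLocalRing
  obtain ⟨l', hl'⟩ := (IsLocalRing.split_injective_iff_lTensor_residueField_injective
    (j18216_j18216_mul I hh m)).2 (j18216_j18216_inj hI hh m hinj)
  have hinj' : Function.Injective (j18216_j18216_mul I hh m) :=
    Function.LeftInverse.injective (fun x => congrArg (fun f => f x) hl')
  have hex := j18216_j18216_exact hI hh m
  have hsurj := j18216_j18216_q_surj (le_sup_left : I ≤ I ⊔ Ideal.span {h}) (m + 1)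
  refine ⟨?_, ?_⟩
  · intro F hF hhF
    have h3 : j18216_j18216_mul I hh m (j18216_j18216_cl I F hF) = 0 := by
      rw [j18216_j18216_mul_cl I hh m F hF (j18216_j18216_mul_hom hh m F hF), j18216_j18216_cl_eq_zero]
      exact hhF
    have h4 : j18216_j18216_cl I F hF = 0 := hinj' (by rw [h3, map_zero])
    exact (j18216_j18216_cl_eq_zero I F hF).1 h4
  · have htfae := Function.Exact.split_tfae hex hinj' hsurj
    have h01 := htfae.out 0 1
    have h21 := htfae.out 2 1
    obtain ⟨s, hs⟩ := h01.2 ⟨l', hl'⟩
    obtain ⟨e, -, -⟩ := h21.2 ⟨l', hl'⟩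
    have hp3 : Module.Projective R (grPart R (I ⊔ Ideal.span {h}) (m + 1)) :=
      Module.Projective.of_split s _ hs
    refine ⟨hp3, fun p => ?_⟩
    have h5 := congrFun (Module.rankAtStalk_eq_of_equiv e) p
    rw [Module.rankAtStalk_prod, Pi.add_apply, h1.2 p, h2.2 p] at h5
    omega

attribute [local instance] MvPolynomial.gradedAlgebra in
lemma j18220_j18220_comp_mul {R : Type} [CommRing R] (G F : S R) (m n : ℕ) (hF : F.IsHomogeneous n) :
    homogeneousComponent (m + n) (G * F) = homogeneousComponent m G * F := by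
  have h := DirectSum.coe_decompose_mul_add_of_right_mem (homogeneousSubmodule (Fin 4) R) (a := G)
    (i := m) ((mem_homogeneousSubmodule n F).2 hF)
  rw [← MvPolynomial.decomposition.decompose'_apply, ← MvPolynomial.decomposition.decompose'_apply]
  exact h

/-- multiplication by a linear form -/
noncomputable def j18220_j18220_mul {R : Type} [CommRing R] (I : Ideal (S R)) {h : S R}
    (hh : h.IsHomogeneous 1) (m : ℕ) : grPart R I m →ₗ[R] grPart R I (m + 1) where
  toFun x := ⟨Ideal.Quotient.mk I h * x.1, by
    obtain ⟨_, F, hF, rfl⟩ := x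
    exact ⟨h * F, by rw [add_comm]; exact hh.mul hF, by simp⟩⟩
  map_add' x y := by apply Subtype.ext; simp [mul_add]
  map_smul' r x := by apply Subtype.ext; simp [mul_smul_comm]

/-- the class of a form -/
noncomputable def j18220_j18220_cl {R : Type} [CommRing R] (I : Ideal (S R)) {m : ℕ} (F : S R)
    (hF : F.IsHomogeneous m) : grPart R I m := ⟨Ideal.Quotient.mk I F, F, hF, rfl⟩

lemma j18220_j18220_cl_surj {R : Type} [CommRing R] (I : Ideal (S R)) {m : ℕ} (x : grPart R I m) :
    ∃ F : S R, ∃ hF : F.IsHomogeneous m, x = j18220_j18220_cl I F hF := by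
  obtain ⟨_, F, hF, rfl⟩ := x
  exact ⟨F, hF, rfl⟩

lemma j18220_j18220_lfr_of_free {R : Type} [CommRing R] [IsLocalRing R] {I : Ideal (S R)} {m r : ℕ}
    (h : Module.Free R (grPart R I m)) (h2 : Module.finrank R (grPart R I m) = r) :
    LFr R I m r := by
  have := j13489_grPart_finite R I m
  refine ⟨inferInstance, fun p => ?_⟩
  rw [Module.rankAtStalk_eq_finrank_of_free]
  exact h2

lemma j18220_j18220_free_of_lfr {R : Type} [CommRing R] [IsLocalRing R] {I : Ideal (S R)} {m r : ℕ}
    (h : LFr R I m r) : Module.Free R (grPart R I m) ∧ Module.finrank R (grPart R I m) = r := by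
  have := j13489_grPart_finite R I m
  have h1 := h.1
  have h2 : Module.Free R (grPart R I m) := Module.free_of_flat_of_isLocalRing
  refine ⟨h2, ?_⟩
  have h3 := h.2 (IsLocalRing.closedPoint R)
  rw [Module.rankAtStalk_eq_finrank_of_free] at h3
  exact h3

lemma j18220_j18220_bc_surj {R k M N : Type} [CommRing R] [Field k] [Algebra R k] [AddCommGroup M]
    [Module R M] [AddCommGroup N] [Module R N] [Module k N] [IsScalarTower R k N]
    (f : M →ₗ[R] N) (hf : IsBaseChange k f) (hs : Function.Surjective (algebraMap R k)) :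
    Function.Surjective f := by
  intro y
  obtain ⟨x, hx⟩ := TensorProduct.mk_surjective R M k hs (hf.equiv.symm y)
  refine ⟨x, ?_⟩
  have h1 : hf.equiv ((TensorProduct.mk R k M 1) x) = y := by rw [hx]; simp
  rw [TensorProduct.mk_apply, IsBaseChange.equiv_tmul, one_smul] at h1
  exact h1

/-- descent of local freeness along a surjective multiplication -/
lemma free_of_surj {J : Ideal (S R)} (hJ : IsHom J) {g : S R} (hg : g.IsHomogeneous 1)
    {n r : ℕ} (h1 : LFr R J (n + 1) r) (h2 : hf (J.map (red R)) n ≤ r)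
    (h3 : hf (J.map (red R) ⊔ Ideal.span {red R g}) (n + 1) = 0) : LFr R J n r := by
  have hsurjk : Function.Surjective (algebraMap R (IsLocalRing.ResidueField R)) :=
    IsLocalRing.residue_surjective
  have hfinM := j13489_grPart_finite R J n
  have hfinN := j13489_grPart_finite R J (n + 1)
  have hbM := j13489_bcQuot_isBaseChange (k := IsLocalRing.ResidueField R) hJ n
  have hbN := j13489_bcQuot_isBaseChange (k := IsLocalRing.ResidueField R) hJ (n + 1)
  obtain ⟨hN1, hN2⟩ := j18220_j18220_free_of_lfr h1
  set J' : Ideal (S (IsLocalRing.ResidueField R)) :=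
    J.map (MvPolynomial.map (σ := Fin 4) (algebraMap R (IsLocalRing.ResidueField R))) with hJ'
  have hred : red R = MvPolynomial.map (σ := Fin 4)
    (algebraMap R (IsLocalRing.ResidueField R)) := rfl
  have h2' : hf J' n ≤ r := h2
  have h3' : hf (J' ⊔ Ideal.span {red R g}) (n + 1) = 0 := h3
  have hJ'hom : IsHom J' := by
    intro x hx m
    have h := j13489_hcomp_mem_imSpan (algebraMap R (IsLocalRing.ResidueField R)) hJ hx m
    exact (j13489_mem_imSpan_iff (algebraMap R (IsLocalRing.ResidueField R)) hJ
      (homogeneousComponent_isHomogeneous m x)).2 h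
  -- every form of degree n+1 over k lies in the ideal
  have hall : ∀ G : S (IsLocalRing.ResidueField R), G.IsHomogeneous (n + 1) →
      G ∈ J' ⊔ Ideal.span {red R g} := by
    intro G hG
    have e1 := hf_add (J' ⊔ Ideal.span {red R g}) (n + 1)
    rw [h3', add_zero] at e1
    have e2 : dg (J' ⊔ Ideal.span {red R g}) (n + 1) =
        homogeneousSubmodule (Fin 4) (IsLocalRing.ResidueField R) (n + 1) :=
      Submodule.eq_of_le_of_finrank_eq inf_le_right e1
    have e3 : G ∈ dg (J' ⊔ Ideal.span {red R g}) (n + 1) := by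
      rw [e2]; exact hG
    exact e3.1
  have hrg : (red R g).IsHomogeneous 1 := hg.map _
  -- surjectivity of multiplication by g
  have hmu : Function.Surjective (j18220_j18220_mul J hg n) := by
    rw [← LinearMap.range_eq_top, ← IsLocalRing.map_tensorProduct_mk_eq_top,
      Submodule.eq_top_iff']
    intro t
    obtain ⟨G, hG, hy⟩ := j18220_j18220_cl_surj J' (hbN.equiv t)
    obtain ⟨a, ha, c, hc, hac⟩ := Submodule.mem_sup.1 (hall G hG)
    obtain ⟨b, hb⟩ := Ideal.mem_span_singleton'.1 hc
    have hG2 : G = homogeneousComponent (n + 1) a + homogeneousComponent n b * red R g := by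
      have h5 : homogeneousComponent (n + 1) G = G := by
        rw [homogeneousComponent_of_mem hG, if_pos rfl]
      rw [← h5, ← hac, map_add, ← hb, j18220_j18220_comp_mul b _ n 1 hrg]
    obtain ⟨B, hB⟩ := j18220_j18220_bc_surj _
      (j13489_bcHom_isBaseChange (R := R) (k := IsLocalRing.ResidueField R) n) hsurjk
      ⟨homogeneousComponent n b, homogeneousComponent_isHomogeneous n b⟩
    have hB' : MvPolynomial.map (algebraMap R (IsLocalRing.ResidueField R)) B.1 =
        homogeneousComponent n b := congrArg Subtype.val hB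
    refine ⟨j18220_j18220_mul J hg n (j18220_j18220_cl J B.1 B.2), ⟨_, rfl⟩, ?_⟩
    apply hbN.equiv.injective
    rw [TensorProduct.mk_apply, IsBaseChange.equiv_tmul, one_smul, hy]
    apply Subtype.ext
    change Ideal.quotientMap J' (MvPolynomial.map (σ := Fin 4)
      (algebraMap R (IsLocalRing.ResidueField R))) Ideal.le_comap_map
      (Ideal.Quotient.mk J g * Ideal.Quotient.mk J B.1) = Ideal.Quotient.mk J' G
    rw [← map_mul, Ideal.quotientMap_mk, map_mul, hB', Ideal.Quotient.mk_eq_mk_iff_sub_mem, hG2]
    have h6 := hJ'hom a ha (n + 1)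
    have h7 := J'.neg_mem h6
    convert h7 using 1
    rw [hred]
    ring
  -- generators of M
  set d := Module.finrank (IsLocalRing.ResidueField R)
    ((IsLocalRing.ResidueField R) ⊗[R] (grPart R J n)) with hd
  have hdr : d ≤ r := by
    have e1 : d = hf J' n := by
      rw [j13489_hf_eq_finrank, hd]
      exact hbM.equiv.finrank_eq
    omega
  let bs := Module.finBasis (IsLocalRing.ResidueField R)
    ((IsLocalRing.ResidueField R) ⊗[R] (grPart R J n))
  have hl : ∀ i : Fin d, ∃ x : grPart R J n, (1 : IsLocalRing.ResidueField R) ⊗ₜ[R] x = bs i :=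
    fun i => TensorProduct.mk_surjective R _ _ hsurjk (bs i)
  choose v hv using hl
  have hspan := IsLocalRing.span_eq_top_of_tmul_eq_basis v bs hv
  let π : (Fin d → R) →ₗ[R] grPart R J n := Fintype.linearCombination R v
  have hπ : Function.Surjective π := by
    rw [← LinearMap.range_eq_top, Fintype.range_linearCombination]
    exact hspan
  let e : grPart R J (n + 1) ≃ₗ[R] (Fin r → R) :=
    (Module.finBasisOfFinrankEq R _ hN2).equivFun
  let φ : (Fin d → R) →ₗ[R] (Fin r → R) := e.toLinearMap ∘ₗ (j18220_j18220_mul J hg n) ∘ₗ π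
  have hφ : Function.Surjective φ := e.surjective.comp (hmu.comp hπ)
  have hrd : r ≤ d := le_of_fin_surjective R φ hφ
  have hdr' : d = r := le_antisymm hdr hrd
  have hφi : Function.Injective φ := by
    let c : (Fin r → R) ≃ₗ[R] (Fin d → R) := LinearEquiv.funCongrLeft R R (finCongr hdr')
    have h8 : Function.Surjective (c.toLinearMap ∘ₗ φ) := c.surjective.comp hφ
    have h9 := OrzechProperty.injective_of_surjective_endomorphism _ h8
    exact Function.Injective.of_comp (f := c) h9
  have hπi : Function.Injective π := by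
    have : Function.Injective ((e ∘ (j18220_j18220_mul J hg n)) ∘ π) := hφi
    exact Function.Injective.of_comp this
  let eM : (Fin d → R) ≃ₗ[R] grPart R J n := LinearEquiv.ofBijective π ⟨hπi, hπ⟩
  refine j18220_j18220_lfr_of_free (Module.Free.of_equiv eM) ?_
  rw [← eM.finrank_eq, Module.finrank_fin_fun, hdr']

/-- the factor map -/
noncomputable def j18220_j18220_fac {R : Type} [CommRing R] {I J : Ideal (S R)} (hIJ : I ≤ J) (m : ℕ) :
    grPart R I m →ₗ[R] grPart R J m where
  toFun x := ⟨Ideal.Quotient.factor hIJ x.1, by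
    obtain ⟨_, F, hF, rfl⟩ := x
    exact ⟨F, hF, by simp⟩⟩
  map_add' x y := by apply Subtype.ext; simp
  map_smul' r x := by
    apply Subtype.ext
    obtain ⟨_, F, hF, rfl⟩ := x
    rfl

/-- descent of local freeness along an exact sequence -/
lemma free_of_exact {I : Ideal (S R)} (hI : IsHom I) {h : S R} (hh : h.IsHomogeneous 1)
    {m r r' : ℕ} (h1 : ∀ F : S R, F.IsHomogeneous m → h * F ∈ I → F ∈ I)
    (h2 : LFr R I (m + 1) (r + r')) (h3 : LFr R (I ⊔ Ideal.span {h}) (m + 1) r') :
    LFr R I m r := by
  have hfinM := j13489_grPart_finite R I m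
  have hfinN := j13489_grPart_finite R I (m + 1)
  have hfinQ := j13489_grPart_finite R (I ⊔ Ideal.span {h}) (m + 1)
  obtain ⟨hN1, hN2⟩ := j18220_j18220_free_of_lfr h2
  obtain ⟨hQ1, hQ2⟩ := j18220_j18220_free_of_lfr h3
  let f := j18220_j18220_mul I hh m
  let g := j18220_j18220_fac (le_sup_left : I ≤ I ⊔ Ideal.span {h}) (m + 1)
  have hf : Function.Injective f := by
    rw [injective_iff_map_eq_zero]
    intro x hx
    obtain ⟨F, hF, rfl⟩ := j18220_j18220_cl_surj I x
    have e1 : Ideal.Quotient.mk I h * Ideal.Quotient.mk I F = 0 := congrArg Subtype.val hx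
    rw [← map_mul, Ideal.Quotient.eq_zero_iff_mem] at e1
    apply Subtype.ext
    exact Ideal.Quotient.eq_zero_iff_mem.2 (h1 F hF e1)
  have hg : Function.Surjective g := by
    intro y
    obtain ⟨F, hF, rfl⟩ := j18220_j18220_cl_surj _ y
    exact ⟨j18220_j18220_cl I F hF, rfl⟩
  have hex : Function.Exact f g := by
    intro y
    constructor
    · intro hy
      obtain ⟨F, hF, rfl⟩ := j18220_j18220_cl_surj _ y
      have e1 : Ideal.Quotient.mk (I ⊔ Ideal.span {h}) F = 0 := congrArg Subtype.val hy
      rw [Ideal.Quotient.eq_zero_iff_mem] at e1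
      obtain ⟨a, ha, c, hc, hac⟩ := Submodule.mem_sup.1 e1
      obtain ⟨b, hb⟩ := Ideal.mem_span_singleton'.1 hc
      have hF2 : F = homogeneousComponent (m + 1) a + homogeneousComponent m b * h := by
        have h5 : homogeneousComponent (m + 1) F = F := by
          rw [homogeneousComponent_of_mem hF, if_pos rfl]
        rw [← h5, ← hac, map_add, ← hb, j18220_j18220_comp_mul b _ m 1 hh]
      refine ⟨j18220_j18220_cl I _ (homogeneousComponent_isHomogeneous m b), ?_⟩
      apply Subtype.ext
      change Ideal.Quotient.mk I h * Ideal.Quotient.mk I (homogeneousComponent m b) =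
        Ideal.Quotient.mk I F
      rw [← map_mul, Ideal.Quotient.mk_eq_mk_iff_sub_mem]
      have h7 := I.neg_mem (hI a ha (m + 1))
      convert h7 using 1
      rw [hF2]
      ring
    · rintro ⟨x, rfl⟩
      obtain ⟨F, hF, rfl⟩ := j18220_j18220_cl_surj _ x
      apply Subtype.ext
      change Ideal.Quotient.factor (le_sup_left : I ≤ I ⊔ Ideal.span {h})
        (Ideal.Quotient.mk I h * Ideal.Quotient.mk I F) = 0
      rw [← map_mul, Ideal.Quotient.factor_mk, Ideal.Quotient.eq_zero_iff_mem]
      exact Ideal.mul_mem_right _ _ ((le_sup_right : Ideal.span {h} ≤ I ⊔ Ideal.span {h})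
        (Ideal.mem_span_singleton_self h))
  obtain ⟨l, hl⟩ := Module.projective_lifting_property g LinearMap.id hg
  have T1 := (Function.Exact.split_tfae' hex).out 0 2
  have T2 := (Function.Exact.split_tfae' hex).out 0 1
  obtain ⟨e, he1, he2⟩ := T1.1 ⟨hf, l, hl⟩
  obtain ⟨_, s, hs⟩ := T2.1 ⟨hf, l, hl⟩
  have hMp : Module.Projective R (grPart R I m) := Module.Projective.of_split f s hs
  have hMf : Module.Free R (grPart R I m) := Module.free_of_flat_of_isLocalRing
  refine j18220_j18220_lfr_of_free hMf ?_
  have h8 := e.finrank_eq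
  rw [Module.finrank_prod, hN2, hQ2] at h8
  omega

lemma j18225_j18225_split {I : Ideal (S R)} {n : ℕ} (hproj : Module.Projective R (grPart R I n)) :
    ∃ q : homogeneousSubmodule (Fin 4) R n →ₗ[R] S R, (∀ F, q F ∈ dgR I n) ∧
      ∀ F : homogeneousSubmodule (Fin 4) R n, F.1 ∈ I → q F = F.1 := by
  let π : homogeneousSubmodule (Fin 4) R n →ₗ[R] grPart R I n :=
    (Ideal.Quotient.mkₐ R I).toLinearMap.submoduleMap (homogeneousSubmodule (Fin 4) R n)
  have hsurj : Function.Surjective π := LinearMap.submoduleMap_surjective _ _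
  have hex : ∃ s : grPart R I n →ₗ[R] homogeneousSubmodule (Fin 4) R n,
      π ∘ₗ s = LinearMap.id := Module.projective_lifting_property π LinearMap.id hsurj
  obtain ⟨s, hs⟩ := hex
  let t : homogeneousSubmodule (Fin 4) R n →ₗ[R] homogeneousSubmodule (Fin 4) R n :=
    LinearMap.id - s ∘ₗ π
  refine ⟨(homogeneousSubmodule (Fin 4) R n).subtype ∘ₗ t, ?_, ?_⟩
  · intro F
    refine ⟨?_, (t F).2⟩
    have h : π (t F) = 0 := by
      have h0 : π (s (π F)) = π F := LinearMap.congr_fun hs (π F)
      have h1 : t F = F - s (π F) := rfl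
      rw [h1, map_sub, h0, sub_self]
    exact Ideal.Quotient.eq_zero_iff_mem.1 (congrArg Subtype.val h)
  · intro F hF
    have h : π F = 0 := Subtype.ext (Ideal.Quotient.eq_zero_iff_mem.2 hF)
    have h1 : t F = F - s (π F) := rfl
    rw [LinearMap.comp_apply, h1, h, map_zero, sub_zero]
    rfl

lemma j18225_j18225_coeff {I : Ideal (S R)} {n : ℕ} (hproj : Module.Projective R (grPart R I n))
    {F : S R} (hF : F ∈ dgR I n) (h : ∀ d, coeff d F ∈ IsLocalRing.maximalIdeal R) :
    F ∈ IsLocalRing.maximalIdeal R • dgR I n := by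
  obtain ⟨q, hq1, hq2⟩ := j18225_j18225_split hproj
  have hFh : F.IsHomogeneous n := hF.2
  have e : (⟨F, hF.2⟩ : homogeneousSubmodule (Fin 4) R n) = ∑ d ∈ F.support.attach,
      (coeff d.1 F) • (⟨monomial d.1 (1 : R),
        isHomogeneous_monomial _ (hFh.degree_eq_sum_deg_support d.2).symm⟩ :
        homogeneousSubmodule (Fin 4) R n) := by
    apply Subtype.ext
    rw [Submodule.coe_sum]
    simp only [Submodule.coe_smul, smul_monomial, smul_eq_mul, mul_one]
    rw [Finset.sum_attach F.support (fun d => monomial d (coeff d F))]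
    exact (support_sum_monomial_coeff F).symm
  have e2 : F = q ⟨F, hF.2⟩ := (hq2 ⟨F, hF.2⟩ hF.1).symm
  rw [e2, e, map_sum]
  refine Submodule.sum_mem _ fun d _ => ?_
  rw [map_smul]
  exact Submodule.smul_mem_smul (h d.1) (hq1 _)

lemma j18225_j18225_fg {I : Ideal (S R)} {n : ℕ} (hproj : Module.Projective R (grPart R I n)) :
    (dgR I n).FG := by
  obtain ⟨q, hq1, hq2⟩ := j18225_j18225_split hproj
  have e : dgR I n = LinearMap.range q := by
    apply le_antisymm
    · intro F hF
      exact ⟨⟨F, hF.2⟩, hq2 ⟨F, hF.2⟩ hF.1⟩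
    · rintro _ ⟨F, rfl⟩
      exact hq1 F
  rw [e]
  have hfin : Module.Finite R (homogeneousSubmodule (Fin 4) R n) :=
    Module.Finite.iff_fg.2 (homogeneousSubmodule_fg (σ := Fin 4) (R := R) n)
  exact Module.Finite.iff_fg.1 (Module.Finite.range q)

/-- lifting generation in degree `m` from the fibre -/
lemma gen_of_fibre {I : Ideal (S R)} (hI : IsHom I) {m r : ℕ} (h1 : LFr R I (m + 1) r)
    (h2 : ∀ F : S (IsLocalRing.ResidueField R), F.IsHomogeneous (m + 1) → F ∈ I.map (red R) →
      F ∈ Ideal.span (dg (I.map (red R)) m : Set (S (IsLocalRing.ResidueField R))))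
    {F : S R} (hF : F.IsHomogeneous (m + 1)) (hFI : F ∈ I) :
    F ∈ Ideal.span (dgR I m : Set (S R)) := by
  have hproj := h1.1
  have hVle : dgR I m ≤ homogeneousSubmodule (Fin 4) R m := inf_le_right
  have hspan : IsHom (Ideal.span (dgR I m : Set (S R))) := isHom_spanR hVle
  have hspanI : Ideal.span (dgR I m : Set (S R)) ≤ I := by
    rw [Ideal.span_le]
    intro x hx
    exact hx.1
  have hsurj : Function.Surjective (red R) :=
    MvPolynomial.map_surjective _ IsLocalRing.residue_surjective
  have hdg : Ideal.span (dg (I.map (red R)) m : Set (S (IsLocalRing.ResidueField R))) ≤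
      (Ideal.span (dgR I m : Set (S R))).map (red R) := by
    rw [Ideal.span_le]
    have h3 : dg (I.map (red R)) m = dgR (I.map (red R)) m := rfl
    rw [h3]
    have h4 := dgR_map (IsLocalRing.residue R) hI m
    have h5 : dgR (I.map (red R)) m ≤
        ((Ideal.span (dgR I m : Set (S R))).map (red R)).restrictScalars
          (IsLocalRing.ResidueField R) := by
      change dgR (I.map (MvPolynomial.map (σ := Fin 4) (IsLocalRing.residue R))) m ≤ _
      rw [h4, Submodule.span_le]
      rintro _ ⟨x, hx, rfl⟩
      exact Ideal.mem_map_of_mem (red R) (Ideal.subset_span hx)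
    exact h5
  have key : dgR I (m + 1) ≤
      ((Ideal.span (dgR I m : Set (S R))).restrictScalars R) ⊔
        IsLocalRing.maximalIdeal R • dgR I (m + 1) := by
    intro G hG
    have hGh : G.IsHomogeneous (m + 1) := hG.2
    have h3 : red R G ∈ (Ideal.span (dgR I m : Set (S R))).map (red R) := by
      apply hdg
      apply h2
      · exact hGh.map _
      · exact Ideal.mem_map_of_mem _ hG.1
    obtain ⟨y, hy, hyG⟩ := (Ideal.mem_map_iff_of_surjective (red R) hsurj).1 h3
    have hy' := hspan y hy (m + 1)
    have hy2 : red R (homogeneousComponent (m + 1) y) = red R G := by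
      unfold red at hyG ⊢
      rw [← j13475_map_isHom_comp, hyG, j13475_map_isHom_comp]
      rw [homogeneousComponent_eq_self hGh]
    have h4 : G - homogeneousComponent (m + 1) y ∈
        IsLocalRing.maximalIdeal R • dgR I (m + 1) := by
      apply j18225_j18225_coeff hproj
      · refine Submodule.sub_mem _ hG ⟨hspanI hy', homogeneousComponent_isHomogeneous _ _⟩
      · intro d
        have h5 : red R (G - homogeneousComponent (m + 1) y) = 0 := by
          rw [map_sub, hy2, sub_self]
        have h6 := congrArg (coeff d) h5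
        unfold red at h6
        rw [coeff_map, coeff_zero] at h6
        exact (IsLocalRing.residue_eq_zero_iff _).1 h6
    have h5 : G = homogeneousComponent (m + 1) y + (G - homogeneousComponent (m + 1) y) := by
      abel
    rw [h5]
    exact Submodule.add_mem_sup hy' h4
  have h3 : dgR I (m + 1) ≤ ((Ideal.span (dgR I m : Set (S R))).restrictScalars R) :=
    Submodule.le_of_le_smul_of_le_jacobson_bot (j18225_j18225_fg hproj)
      (IsLocalRing.maximalIdeal_le_jacobson _) key
  exact h3 ⟨hFI, hF⟩

end loc


end Pool.Agent.Helper924.HS
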