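import Mathlib
import Pool.Agent.Helper924.HX.Mod

set_option autoImplicit false

open MvPolynomial
open scoped TensorProduct

namespace Pool.Agent.Helper924.HS

section field
variable {K : Type} [Field K] [Infinite K]

/-- a homogeneous ideal with the right Hilbert function agrees with its saturation in degrees
`≥ c + d ^ 2` as soon as its Hilbert function is right there -/
lemma satur_mem_field {d c : ℕ} {I : Ideal (S K)} (hI : IsHom I) {m : ℕ}
    (hP : ∃ m0, ∀ n ≥ m0, hf I n = d * n + c) (hm : c + d ^ 2 ≤ m) (h : hf I m = d * m + c)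
    {F : S K} (hF : F.IsHomogeneous m) (hFI : F ∈ satur K I) : F ∈ I := by
  obtain ⟨m0, hm0⟩ := hP
  obtain ⟨m1, hm1⟩ := satur_high hI
  have hle := le_satur I
  have hsI : IsHom (satur K I) := satur_isHom hI
  obtain ⟨h1, hh1, hh0, hnz⟩ := exists_nzd hsI fun F hF => satur_sat hF
  have hP2 : ∀ n ≥ max m0 m1, hf (satur K I) n = d * n + c := by
    intro n hn
    rw [← hm0 n (le_trans (le_max_left _ _) hn)]
    exact hf_congr_high fun G hG => ⟨fun h => hm1 n (le_trans (le_max_right _ _) hn) G hG h,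
      fun h => hle h⟩
  have h2 := (reg hsI hP2 hh1 hh0 hnz m hm).1
  by_contra hcon
  have := hf_lt_of_mem hle hF hFI hcon
  omega

end field

section small
variable {R : Type} [CommRing R]

attribute [local instance] MvPolynomial.gradedAlgebra in
lemma isHom_iffR {I : Ideal (S R)} :
    IsHom I ↔ I.IsHomogeneous (homogeneousSubmodule (Fin 4) R) := by
  constructor
  · intro h i F hF
    have h1 := h F hF i
    rw [← MvPolynomial.decomposition.decompose'_apply] at h1
    exact h1
  · intro h F hF i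
    have h1 := h i hF
    rw [← MvPolynomial.decomposition.decompose'_apply]
    exact h1

attribute [local instance] MvPolynomial.gradedAlgebra in
lemma isHom_supR {I J : Ideal (S R)} (hI : IsHom I) (hJ : IsHom J) : IsHom (I ⊔ J) := by
  exact isHom_iffR.2 (Ideal.IsHomogeneous.sup (isHom_iffR.1 hI) (isHom_iffR.1 hJ))

attribute [local instance] MvPolynomial.gradedAlgebra in
lemma isHom_span1R {h : S R} {n : ℕ} (hh : h.IsHomogeneous n) : IsHom (Ideal.span {h}) := by
  apply isHom_iffR.2
  apply Ideal.homogeneous_span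
  rintro F rfl
  exact ⟨n, (mem_homogeneousSubmodule n F).2 hh⟩

/-- a linear form is a combination of the variables -/
lemma mul_mem_of_X {I : Ideal (S R)} {F : S R} (h : ∀ i, X i * F ∈ I) {l : S R}
    (hl : l.IsHomogeneous 1) : l * F ∈ I := by
  have h1 : l ∈ (idealOfVars (Fin 4) R) := by
    rw [show idealOfVars (Fin 4) R = idealOfVars (Fin 4) R ^ 1 by rw [pow_one]]
    rw [mem_pow_idealOfVars_iff]
    intro x hx
    have h2 : Finsupp.weight 1 x = 1 := hl (mem_support_iff.1 hx)
    have h3 : Finsupp.degree x = Finsupp.weight 1 x := by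
      rw [Finsupp.degree_eq_weight_one]
      rfl
    rw [h3, h2]
  have h2 : (idealOfVars (Fin 4) R) ≤ I.colon {F} := by
    refine Ideal.span_le.2 ?_
    rintro _ ⟨i, rfl⟩
    simp only [SetLike.mem_coe, Submodule.mem_colon_singleton, smul_eq_mul]
    exact h i
  have h3 := h2 h1
  rwa [Submodule.mem_colon_singleton] at h3

lemma infinite_residueField [Algebra ℚ R] (p : PrimeSpectrum R) :
    Infinite (IsLocalRing.ResidueField (Localization.AtPrime p.asIdeal)) := by
  have : CharZero (IsLocalRing.ResidueField (Localization.AtPrime p.asIdeal)) := by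
    let f : ℚ →+* IsLocalRing.ResidueField (Localization.AtPrime p.asIdeal) :=
      ((IsLocalRing.residue _).comp (algebraMap R (Localization.AtPrime p.asIdeal))).comp
        (algebraMap ℚ R)
    exact charZero_of_injective_ringHom f.injective
  infer_instance

end small

section loc
variable {R : Type} [CommRing R] [IsLocalRing R] [Infinite (IsLocalRing.ResidueField R)]

/-- uniform regularity over a local ring -/
theorem loc_reg {d c : ℕ} {I : Ideal (S R)} (hI : IsHom I)
    (hsat : ∀ F : S R, (∀ i, X i * F ∈ I) → F ∈ I) {m0 : ℕ}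
    (hP : ∀ m ≥ m0, LFr R I m (d * m + c)) {m : ℕ} (hm : c + d ^ 2 ≤ m) :
    LFr R I m (d * m + c) ∧ ∀ F : S R, F.IsHomogeneous (m + 1) → F ∈ I →
      F ∈ Ideal.span (dgR I m : Set (S R)) := by
  have hIk : IsHom (I.map (red R)) := map_isHom _ hI
  have hsk : IsHom (satur _ (I.map (red R))) := satur_isHom hIk
  have hle := le_satur (I.map (red R))
  have hPk : ∀ n ≥ m0, hf (I.map (red R)) n = d * n + c := fun n hn =>
    LFr_field.1 (LFr_map (IsLocalRing.residue R) hI (hP n hn))
  obtain ⟨h', hh1, hh0, hnz⟩ := exists_nzd hsk fun F hF => satur_sat hF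
  obtain ⟨m1, hm1⟩ := satur_high hIk
  have hP2 : ∀ n ≥ max m0 m1, hf (satur _ (I.map (red R))) n = d * n + c := by
    intro n hn
    rw [← hPk n (le_trans (le_max_left _ _) hn)]
    exact hf_congr_high fun G hG => ⟨fun h => hm1 n (le_trans (le_max_right _ _) hn) G hG h,
      fun h => hle h⟩
  have hreg := reg hsk hP2 hh1 hh0 hnz
  obtain ⟨g', hg1, hg⟩ := reg2 hsk hP2 hh1 hh0 hnz
  obtain ⟨h, hh, rfl⟩ := exists_lift1 hh1
  obtain ⟨g, hgh, rfl⟩ := exists_lift1 hg1
  -- degrees where the fibre is right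
  have hfib : ∀ n ≥ c + d ^ 2, hf (I.map (red R)) n = d * n + c → ∀ F, F.IsHomogeneous n →
      (F ∈ I.map (red R) ↔ F ∈ satur _ (I.map (red R))) := fun n hn h1 F hF =>
    ⟨fun h2 => hle h2, fun h2 => satur_mem_field hIk ⟨m0, hPk⟩ hn h1 hF h2⟩
  have hsup : ∀ n ≥ c + d ^ 2, hf (I.map (red R)) n = d * n + c → ∀ J, IsHom J →
      hf (I.map (red R) ⊔ J) n = hf (satur _ (I.map (red R)) ⊔ J) n := by
    intro n hn h1 J hJ
    refine hf_congr_high fun F hF => ⟨fun h2 => (sup_le_sup_right hle J) h2, fun h2 => ?_⟩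
    obtain ⟨a, ha, b, hb, rfl⟩ := Submodule.mem_sup.1 h2
    have e : homogeneousComponent n (a + b) = a + b := homogeneousComponent_eq_self hF
    rw [map_add] at e
    rw [← e]
    refine Ideal.add_mem _ (Ideal.mem_sup_left ?_) (Ideal.mem_sup_right (hJ _ hb n))
    exact (hfib n hn h1 _ (homogeneousComponent_isHomogeneous n a)).2 (hsk _ ha n)
  have hinjk : ∀ n ≥ c + d ^ 2, hf (I.map (red R)) n = d * n + c →
      ∀ F, F.IsHomogeneous n → red R h * F ∈ I.map (red R) → F ∈ I.map (red R) :=
    fun n hn h1 F hF h2 => (hfib n hn h1 F hF).2 (hnz F (hle h2))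
  have hspan : ∀ {k : Type} [Field k] (f : S k), f.IsHomogeneous 1 → IsHom (Ideal.span {f}) :=
    fun f hf => isHom_span (by rintro _ rfl; exact ⟨1, hf⟩)
  -- descending induction
  have key : ∀ t n : ℕ, n + t = max m0 (c + d ^ 2) → c + d ^ 2 ≤ n →
      ∀ n' ≥ n, LFr R I n' (d * n' + c) := by
    intro t
    induction t with
    | zero => exact fun n hn hn2 n' hn' => hP n' (by omega)
    | succ t ih =>
      intro n hn hn2
      have ih' := ih (n + 1) (by omega) (by omega)
      have hk : ∀ n' ≥ n + 1, hf (I.map (red R)) n' = d * n' + c := fun n' hn' =>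
        LFr_field.1 (LFr_map (IsLocalRing.residue R) hI (ih' n' hn'))
      have e1 : LFr R I (n + 1) ((d * n + c) + d) := by
        have := ih' (n + 1) le_rfl
        rwa [show d * (n + 1) + c = (d * n + c) + d by ring] at this
      have e2 : LFr R I (n + 1 + 1) (((d * n + c) + d) + d) := by
        have := ih' (n + 2) (by omega)
        rwa [show d * (n + 2) + c = ((d * n + c) + d) + d by ring] at this
      obtain ⟨i1, i2⟩ := inj_of_fibre hI hh e1 e2
        (hinjk (n + 1) (by omega) (hk _ le_rfl))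
      have hJ : IsHom (I ⊔ Ideal.span {h}) := isHom_supR hI (isHom_span1R hh)
      have hmap : (I ⊔ Ideal.span {h}).map (red R) = I.map (red R) ⊔ Ideal.span {red R h} := by
        rw [Ideal.map_sup, Ideal.map_span, Set.image_singleton]
      have i3 : LFr R (I ⊔ Ideal.span {h}) (n + 1) d := by
        refine free_of_surj hJ hgh i2 ?_ ?_
        · rw [hmap, hsup (n + 1) (by omega) (hk _ le_rfl) _ (hspan _ hh1)]
          exact (hreg (n + 1) (by omega)).2.le
        · rw [hmap, sup_assoc, hsup (n + 2) (by omega) (hk _ (by omega)) _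
            (isHom_sup (hspan _ hh1) (hspan _ hg1)), ← sup_assoc]
          exact hg (n + 2) (by omega)
      have i4 : ∀ F : S R, F.IsHomogeneous n → h * F ∈ I → F ∈ I := by
        intro F hF hhF
        refine hsat F fun i => i1 _ ?_ ?_
        · rw [add_comm n 1]
          exact (isHomogeneous_X R i).mul hF
        · have : h * (X i * F) = X i * (h * F) := by ring
          rw [this]
          exact I.mul_mem_left _ hhF
      have i5 := free_of_exact hI hh i4 e1 i3
      intro n' hn'
      rcases Nat.eq_or_lt_of_le hn' with rfl | h6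
      · exact i5
      · exact ih' n' h6
  have hall : ∀ n ≥ c + d ^ 2, LFr R I n (d * n + c) := by
    intro n hn
    exact key (max m0 (c + d ^ 2) - (c + d ^ 2)) (c + d ^ 2) (by omega) le_rfl n hn
  refine ⟨hall m hm, fun F hF hFI => ?_⟩
  have hallk : ∀ n ≥ c + d ^ 2, hf (I.map (red R)) n = d * n + c := fun n hn =>
    LFr_field.1 (LFr_map (IsLocalRing.residue R) hI (hall n hn))
  exact gen_of_fibre hI (hall (m + 1) (by omega))
    (fun G hG hGI => reg_gen hIk hallk hm hG hGI) hF hFI

/-- saturation over a local ring -/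
theorem loc_sat {d c N : ℕ} (hN : c + d ^ 2 ≤ N) {I : Ideal (S R)} (hI : IsHom I)
    (hP : ∀ m ≥ N, LFr R I m (d * m + c)) {m : ℕ} (hm : N ≤ m) {F : S R}
    (hF : F.IsHomogeneous m) (h : ∀ i, X i * F ∈ I) : F ∈ I := by
  have hIk : IsHom (I.map (red R)) := map_isHom _ hI
  have hsk : IsHom (satur _ (I.map (red R))) := satur_isHom hIk
  have hle := le_satur (I.map (red R))
  have hPk : ∀ n ≥ N, hf (I.map (red R)) n = d * n + c := fun n hn =>
    LFr_field.1 (LFr_map (IsLocalRing.residue R) hI (hP n hn))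
  obtain ⟨h', hh1, hh0, hnz⟩ := exists_nzd hsk fun F hF => satur_sat hF
  obtain ⟨l, hl, rfl⟩ := exists_lift1 hh1
  have e1 := hP m hm
  have e2 : LFr R I (m + 1) ((d * m + c) + d) := by
    have := hP (m + 1) (by omega)
    rwa [show d * (m + 1) + c = (d * m + c) + d by ring] at this
  obtain ⟨i1, -⟩ := inj_of_fibre hI hl e1 e2 (fun G hG hG2 =>
    satur_mem_field hIk ⟨N, hPk⟩ (by omega) (hPk m hm) hG (hnz G (hle hG2)))
  exact i1 F hF (mul_mem_of_X h hl)

end loc

section glob
variable {R : Type} [CommRing R] [Algebra ℚ R]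

theorem glob_reg {d c : ℕ} {I : Ideal (S R)} (hI : IsHom I)
    (hsat : ∀ F : S R, (∀ i, X i * F ∈ I) → F ∈ I) {m0 : ℕ}
    (hP : ∀ m ≥ m0, LFr R I m (d * m + c)) {m : ℕ} (hm : c + d ^ 2 ≤ m) :
    LFr R I m (d * m + c) ∧ ∀ F : S R, F.IsHomogeneous (m + 1) → F ∈ I →
      F ∈ Ideal.span (dgR I m : Set (S R)) := by
  have key : ∀ p : PrimeSpectrum R, _ := fun p => by
    have := infinite_residueField p
    exact loc_reg (R := Localization.AtPrime p.asIdeal) (map_isHom (algebraMap R _) hI)
      (fun F => sat_local hsat p F) (m0 := m0) (fun n hn => LFr_map _ hI (hP n hn)) hm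
  refine ⟨LFr_of_local hI fun p => (key p).1, fun F hF hFI => mem_of_local fun p => ?_⟩
  have h1 := (key p).2 _ (hF.map (algebraMap R _)) (Ideal.mem_map_of_mem _ hFI)
  rw [dgR_map _ hI] at h1
  rw [span_mapR]
  exact h1

theorem glob_sat {d c N : ℕ} (hN : c + d ^ 2 ≤ N) {I : Ideal (S R)} (hI : IsHom I)
    (hP : ∀ m ≥ N, LFr R I m (d * m + c)) {m : ℕ} (hm : N ≤ m) {F : S R}
    (hF : F.IsHomogeneous m) (h : ∀ i, X i * F ∈ I) : F ∈ I := by
  refine mem_of_local fun p => ?_
  have := infinite_residueField p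
  refine loc_sat hN (map_isHom (algebraMap R _) hI) (fun n hn => LFr_map _ hI (hP n hn)) hm
    (hF.map _) fun i => ?_
  have h1 := Ideal.mem_map_of_mem (MvPolynomial.map (σ := Fin 4)
    (algebraMap R (Localization.AtPrime p.asIdeal))) (h i)
  rwa [map_mul, map_X] at h1

end glob

end Pool.Agent.Helper924.HS
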