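import Mathlib
import Pool.Agent.Helper924.HX.Dic

set_option autoImplicit false

open MvPolynomial
open scoped TensorProduct

namespace Pool.Agent.Helper924.HS

/-- the spaces of forms of degree `N` which define families with Hilbert polynomial `d m + c` -/
def VG (d c N : ℕ) (R : Type) [CommRing R] (V : Submodule R (S R)) : Prop :=
  V ≤ homogeneousSubmodule (Fin 4) R N ∧
    ∀ m ≥ N, LFr R (Ideal.span (V : Set (S R))) m (d * m + c)

/-- base change of a space of forms -/
noncomputable def bcV {R R' : Type} [CommRing R] [CommRing R'] (φ : R →+* R')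
    (V : Submodule R (S R)) : Submodule R' (S R') :=
  Submodule.span R' ((MvPolynomial.map (σ := Fin 4) φ) '' (V : Set (S R)))

/-- the closed condition on spaces of forms of degree `N` -/
noncomputable def aV (d c N : ℕ) {R : Type} [CommRing R] (V : Submodule R (S R)) : Ideal R :=
  ⨆ m : {m : ℕ // N ≤ m}, minI (((m : ℕ) + 3).choose 3 - (d * m + c) + 1)
    (dgR (Ideal.span (V : Set (S R))) m)

section gen
variable {R R' : Type} [CommRing R] [CommRing R'] (φ : R →+* R')

lemma bcV_le {V : Submodule R (S R)} {N : ℕ} (hV : V ≤ homogeneousSubmodule (Fin 4) R N) :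
    bcV φ V ≤ homogeneousSubmodule (Fin 4) R' N := by
  refine Submodule.span_le.2 ?_
  rintro _ ⟨F, hF, rfl⟩
  exact (hV hF).map φ

lemma aV_map {d c N : ℕ} {V : Submodule R (S R)} (hV : V ≤ homogeneousSubmodule (Fin 4) R N) :
    aV d c N (bcV φ V) = (aV d c N V).map φ := by
  unfold aV
  rw [Ideal.map_iSup]
  refine iSup_congr fun m => ?_
  rw [← minI_map, ← dgR_map φ (isHom_spanR hV)]
  congr 2
  exact (span_mapR φ V).symm

lemma j18234_irr_pow_comp {R : Type} [CommRing R] {T : ℕ} {G : S R} (hG : G ∈ irr R ^ T) (n : ℕ) :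
    homogeneousComponent n G ∈ irr R ^ T ∧ (n < T → homogeneousComponent n G = 0) := by
  have h1 : irr R = idealOfVars (Fin 4) R := rfl
  rw [h1, mem_pow_idealOfVars_iff'] at hG
  refine ⟨?_, ?_⟩
  · rw [h1, mem_pow_idealOfVars_iff']
    intro x hx
    rw [coeff_homogeneousComponent]
    split_ifs
    · exact hG x hx
    · rfl
  · intro hn
    ext x
    rw [coeff_homogeneousComponent, coeff_zero]
    split_ifs with hx
    · exact hG x (by omega)
    · rfl

lemma j18234_satur_le_aux {R : Type} [CommRing R] {I J : Ideal (S R)} (hI : IsHom I) {N : ℕ}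
    (h : ∀ n ≥ N, ∀ G : S R, G.IsHomogeneous n → (G ∈ I ↔ G ∈ J)) : satur R I ≤ satur R J := by
  intro F hF
  have hcomp := satur_isHom hI F hF
  rw [← sum_homogeneousComponent F]
  refine Ideal.sum_mem _ fun m _ => ?_
  obtain ⟨t, ht⟩ := mem_satur.1 (hcomp m)
  have hFm : (homogeneousComponent m F).IsHomogeneous m := homogeneousComponent_isHomogeneous m F
  refine mem_satur.2 ⟨t + N, fun G hG => ?_⟩
  rw [← sum_homogeneousComponent G, Finset.sum_mul]
  refine Ideal.sum_mem _ fun n _ => ?_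
  obtain ⟨h1, h2⟩ := j18234_irr_pow_comp hG n
  by_cases hn : n < t + N
  · rw [h2 hn, zero_mul]
    exact J.zero_mem
  · have h3 : homogeneousComponent n G ∈ irr R ^ t :=
      Ideal.pow_le_pow_right (Nat.le_add_right t N) h1
    have h4 : (homogeneousComponent n G * homogeneousComponent m F).IsHomogeneous (n + m) :=
      (homogeneousComponent_isHomogeneous n G).mul hFm
    exact (h (n + m) (by omega) _ h4).mp (ht _ h3)

/-- two homogeneous ideals which agree in high degrees have the same saturation -/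
lemma satur_congr {I J : Ideal (S R)} (hI : IsHom I) (hJ : IsHom J) {N : ℕ}
    (h : ∀ n ≥ N, ∀ G : S R, G.IsHomogeneous n → (G ∈ I ↔ G ∈ J)) : satur R I = satur R J := by
  refine le_antisymm (j18234_satur_le_aux hI h) (j18234_satur_le_aux hJ fun n hn G hG => (h n hn G hG).symm)

/-- a family of ideals which is saturated in degrees `≥ N` -/
lemma satur_high_of {I : Ideal (S R)} (hI : IsHom I) {N : ℕ}
    (h : ∀ n ≥ N, ∀ F : S R, F.IsHomogeneous n → (∀ i, X i * F ∈ I) → F ∈ I) {n : ℕ}
    (hn : N ≤ n) {F : S R} (hF : F.IsHomogeneous n) (hFI : F ∈ satur R I) : F ∈ I := by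
  obtain ⟨t, ht⟩ := mem_satur.1 hFI
  clear hFI
  induction t generalizing n F with
  | zero =>
    have h1 := ht 1 (by rw [pow_zero, Ideal.one_eq_top]; exact Submodule.mem_top)
    rwa [one_mul] at h1
  | succ t ih =>
    refine h n hn F hF fun i => ?_
    have h1 : (X i * F : S R).IsHomogeneous (1 + n) := (isHomogeneous_X R i).mul hF
    refine ih (n := 1 + n) (by omega) h1 fun G hG => ?_
    rw [← mul_assoc]
    apply ht
    rw [pow_succ]
    exact Ideal.mul_mem_mul hG (Ideal.subset_span ⟨i, rfl⟩)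

lemma VG_of_aV {R : Type} [CommRing R] [Algebra ℚ R] {d c N : ℕ} (hN : c + d ^ 2 ≤ N)
    (hb : ∀ m ≥ N, d * m + c ≤ (m + 3).choose 3)
    {V : Submodule R (S R)} (hV : V ≤ homogeneousSubmodule (Fin 4) R N)
    (h : LFr R (Ideal.span (V : Set (S R))) N (d * N + c)) (h2 : aV d c N V = ⊥) :
    VG d c N R V := by
  refine ⟨hV, fun m hm => ?_⟩
  refine LFr_of_minI (isHom_spanR hV) ?_ (fun p => ?_) (hb m hm)
  · rw [eq_bot_iff, ← h2]
    exact le_iSup (fun m : {m : ℕ // N ≤ m} => minI (((m : ℕ) + 3).choose 3 - (d * m + c) + 1)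
      (dgR (Ideal.span (V : Set (S R))) m)) ⟨m, hm⟩
  · have hinf : Infinite p.asIdeal.ResidueField := by
      have : CharZero p.asIdeal.ResidueField := by
        have h3 : (algebraMap ℚ p.asIdeal.ResidueField) =
          (algebraMap R p.asIdeal.ResidueField).comp (algebraMap ℚ R) := Subsingleton.elim _ _
        exact algebraRat.charZero _
      infer_instance
    have h3 : hf ((Ideal.span (V : Set (S R))).map (MvPolynomial.map (σ := Fin 4)
      (algebraMap R p.asIdeal.ResidueField))) N = d * N + c := LFr_field.1 (LFr_map _ (isHom_spanR hV) h)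
    rw [span_mapR] at h3 ⊢
    refine mac_iter hN (bcV_le (algebraMap R p.asIdeal.ResidueField) hV) ?_ hm
    rw [← h3, ← cod_ideal]
    refine le_of_eq ?_
    unfold cod
    have h4 := dgR_span (bcV_le (algebraMap R p.asIdeal.ResidueField) hV)
    unfold dgR at h4
    unfold bcV at h4
    rw [h4]
    rw [inf_eq_left.2 (bcV_le (algebraMap R p.asIdeal.ResidueField) hV)]
    rfl

lemma aV_of_VG {R : Type} [CommRing R] {d c N : ℕ} {V : Submodule R (S R)} (h : VG d c N R V) :
    aV d c N V = ⊥ := by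
  unfold aV
  rw [iSup_eq_bot]
  rintro ⟨m, hm⟩
  exact LFr_minI (h.2 m hm)

end gen

section dict
variable {R : Type} [CommRing R] {d c N : ℕ}

lemma mem_HilbFam_iff {d c : ℕ} {I : Ideal (S R)} : I ∈ HilbFam d (1 - (c : ℤ)) R ↔
    IsHom I ∧ (∀ F : S R, (∀ i, X i * F ∈ I) → F ∈ I) ∧ ∃ m0, ∀ m ≥ m0, LFr R I m (d * m + c) := by
  have e : ∀ (m x : ℕ), ((x : ℤ) = d * m + 1 - (1 - (c : ℤ))) ↔ x = d * m + c := by
    intro m x
    constructor
    · intro h
      have : (x : ℤ) = ((d * m + c : ℕ) : ℤ) := by push_cast; linarith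
      exact_mod_cast this
    · rintro rfl
      push_cast
      ring
  unfold HilbFam LFr
  simp only [Set.mem_ofPred_eq, e]

/-- a family gives a space of forms of degree `N` -/
theorem VG_of_mem [Algebra ℚ R] (hN : c + d ^ 2 ≤ N) {I : Ideal (S R)}
    (hI : I ∈ HilbFam d (1 - (c : ℤ)) R) :
    VG d c N R (dgR I N) ∧ satur R (Ideal.span (dgR I N : Set (S R))) = I := by
  obtain ⟨h1, h2, m0, h3⟩ := mem_HilbFam_iff.1 hI
  have hV : dgR I N ≤ homogeneousSubmodule (Fin 4) R N := inf_le_right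
  have hle : Ideal.span (dgR I N : Set (S R)) ≤ I := Ideal.span_le.2 fun F hF => hF.1
  have key : ∀ m ≥ N, ∀ F : S R, F.IsHomogeneous m → (F ∈ I ↔ F ∈ Ideal.span (dgR I N : Set (S R))) := by
    intro m hm
    induction m, hm using Nat.le_induction with
    | base => exact fun F hF => ⟨fun h => Ideal.subset_span ⟨h, hF⟩, fun h => hle h⟩
    | succ m hm ih =>
      intro F hF
      refine ⟨fun h => ?_, fun h => hle h⟩
      have h4 := (glob_reg h1 h2 h3 (m := m) (by omega)).2 F hF h
      refine Ideal.span_le.2 ?_ h4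
      rintro G ⟨hG1, hG2⟩
      exact (ih G hG2).1 hG1
  refine ⟨⟨hV, fun m hm => LFr_congr (key m hm) (glob_reg h1 h2 h3 (by omega)).1⟩, ?_⟩
  rw [← satur_congr h1 (isHom_spanR hV) (N := N) key]
  exact satur_eq_self h2

theorem mem_of_VG [Algebra ℚ R] (hN : c + d ^ 2 ≤ N) {V : Submodule R (S R)}
    (hV : VG d c N R V) : satur R (Ideal.span (V : Set (S R))) ∈ HilbFam d (1 - (c : ℤ)) R ∧
      dgR (satur R (Ideal.span (V : Set (S R)))) N = V ∧
      ∀ m ≥ N, ∀ F : S R, F.IsHomogeneous m → (F ∈ satur R (Ideal.span (V : Set (S R))) ↔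
        F ∈ Ideal.span (V : Set (S R))) := by
  have h1 : IsHom (Ideal.span (V : Set (S R))) := isHom_spanR hV.1
  have key : ∀ m ≥ N, ∀ F : S R, F.IsHomogeneous m →
      (F ∈ satur R (Ideal.span (V : Set (S R))) ↔ F ∈ Ideal.span (V : Set (S R))) :=
    fun m hm F hF => ⟨fun h => satur_high_of h1
      (fun n hn G hG hG2 => glob_sat hN h1 hV.2 hn hG hG2) hm hF h, fun h => le_satur _ h⟩
  refine ⟨mem_HilbFam_iff.2 ⟨satur_isHom h1, fun F hF => satur_sat hF, N, fun m hm =>
    LFr_congr (fun F hF => (key m hm F hF).symm) (hV.2 m hm)⟩, ?_, key⟩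
  rw [← dgR_span hV.1]
  ext F
  constructor
  · rintro ⟨h2, h3⟩
    refine ⟨?_, h3⟩
    have := (key N le_rfl F h3).1 (by rw [dgR_span hV.1] at h2; exact h2)
    exact this
  · rintro ⟨h2, h3⟩
    refine ⟨?_, h3⟩
    rw [dgR_span hV.1]
    exact le_satur _ h2

variable {R' : Type} [CommRing R']

lemma VG_map (φ : R →+* R') {V : Submodule R (S R)} (hV : VG d c N R V) :
    VG d c N R' (bcV φ V) := by
  refine ⟨bcV_le φ hV.1, fun m hm => ?_⟩
  have := LFr_map φ (isHom_spanR hV.1) (hV.2 m hm)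
  rwa [span_mapR] at this

theorem satur_bcV [Algebra ℚ R] (φ : R →+* R') (hN : c + d ^ 2 ≤ N) {V : Submodule R (S R)}
    (hV : VG d c N R V) :
    satur R' ((satur R (Ideal.span (V : Set (S R)))).map (MvPolynomial.map (σ := Fin 4) φ)) =
      satur R' (Ideal.span (bcV φ V : Set (S R'))) := by
  have h1 : IsHom (Ideal.span (V : Set (S R))) := isHom_spanR hV.1
  obtain ⟨-, -, key⟩ := mem_of_VG hN hV
  refine satur_congr (map_isHom _ (satur_isHom h1)) (isHom_spanR (bcV_le φ hV.1)) (N := N) ?_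
  intro n hn G hG
  unfold bcV
  rw [← span_mapR]
  have e : dgR (satur R (Ideal.span (V : Set (S R)))) n = dgR (Ideal.span (V : Set (S R))) n := by
    ext F
    exact ⟨fun h => ⟨(key n hn F h.2).1 h.1, h.2⟩, fun h => ⟨(key n hn F h.2).2 h.1, h.2⟩⟩
  have e2 := dgR_map φ (satur_isHom h1) n
  rw [e, ← dgR_map φ h1 n] at e2
  constructor
  · intro h
    have : G ∈ dgR ((satur R (Ideal.span (V : Set (S R)))).map
      (MvPolynomial.map (σ := Fin 4) φ)) n := ⟨h, hG⟩
    rw [e2] at this
    exact this.1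
  · intro h
    have : G ∈ dgR ((Ideal.span (V : Set (S R))).map (MvPolynomial.map (σ := Fin 4) φ)) n :=
      ⟨h, hG⟩
    rw [← e2] at this
    exact this.1

end dict


end Pool.Agent.Helper924.HS
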