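import Mathlib
import Pool.Agent.Helper226.HilbFree
import Pool.Agent.Helper924.HX.Dic2
import Pool.Agent.Helper924.HX.Closed

set_option autoImplicit false

open CategoryTheory CategoryTheory.Limits AlgebraicGeometry MvPolynomial
open scoped TensorProduct

namespace Pool.Agent.Helper924.HS

/-- The forms of degree `N` over the rationals. -/
abbrev WN (N : ℕ) : Type := homogeneousSubmodule (Fin 4) ℚ N

/-- The algebra `ℚ ⊕ W` with `W ^ 2 = 0`, `W` the forms of degree `N`. -/
def BN (N : ℕ) : Type := TrivSqZeroExt ℚ (WN N)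

noncomputable instance (N : ℕ) : CommRing (BN N) :=
  inferInstanceAs (CommRing (TrivSqZeroExt ℚ (WN N)))

noncomputable instance (N : ℕ) : Algebra ℚ (BN N) :=
  inferInstanceAs (Algebra ℚ (TrivSqZeroExt ℚ (WN N)))

/-- the scalar part -/
noncomputable def fstB (N : ℕ) : BN N →ₐ[ℚ] ℚ := TrivSqZeroExt.fstHom ℚ ℚ (WN N)

/-- the form part -/
noncomputable def sndB (N : ℕ) : BN N →ₗ[ℚ] WN N := TrivSqZeroExt.sndHom ℚ (WN N)

lemma sndB_mul {N : ℕ} (x y : BN N) :
    sndB N (x * y) = fstB N x • sndB N y + fstB N y • sndB N x := by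
  have h : ∀ x y : TrivSqZeroExt ℚ (WN N),
      TrivSqZeroExt.snd (x * y) = x.fst • y.snd + y.fst • x.snd := by
    intro x y
    rw [TrivSqZeroExt.snd_mul, op_smul_eq_smul]
  exact h x y

lemma extB {N : ℕ} {x y : BN N} (h1 : fstB N x = fstB N y) (h2 : sndB N x = sndB N y) : x = y :=
  TrivSqZeroExt.ext h1 h2

lemma existsB {N : ℕ} (q : ℚ) (w : WN N) : ∃ x : BN N, fstB N x = q ∧ sndB N x = w :=
  ⟨(TrivSqZeroExt.inl q + TrivSqZeroExt.inr w : TrivSqZeroExt ℚ (WN N)), by
    constructor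
    · change TrivSqZeroExt.fst _ = _
      simp
    · change TrivSqZeroExt.snd _ = _
      simp⟩

section chart
variable (N : ℕ) (R : Type) [CommRing R] [Algebra ℚ R]

/-- the scalar part -/
noncomputable def epR : R ⊗[ℚ] BN N →ₗ[R] R :=
  LinearMap.liftBaseChange R ((Algebra.linearMap ℚ R).comp (fstB N).toLinearMap)

/-- the form part -/
noncomputable def piR : R ⊗[ℚ] BN N →ₗ[R] S R :=
  LinearMap.liftBaseChange R
    (((MvPolynomial.mapAlgHom (σ := Fin 4) (Algebra.ofId ℚ R)).toLinearMap.comp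
      (homogeneousSubmodule (Fin 4) ℚ N).subtype).comp (sndB N))

variable {N R}

lemma j19063_j19063_epR_tmul (r : R) (b : BN N) :
    epR N R (r ⊗ₜ[ℚ] b) = r * algebraMap ℚ R (fstB N b) := by
  unfold epR
  rw [LinearMap.liftBaseChange_tmul, smul_eq_mul]
  rfl

lemma j19063_j19063_piR_tmul (r : R) (b : BN N) :
    piR N R (r ⊗ₜ[ℚ] b) = r • MvPolynomial.map (algebraMap ℚ R) (sndB N b : S ℚ) := by
  unfold piR
  rw [LinearMap.liftBaseChange_tmul]
  rfl

lemma epR_mul (x y : R ⊗[ℚ] BN N) : epR N R (x * y) = epR N R x * epR N R y := by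
  induction x using TensorProduct.induction_on with
  | zero => simp
  | add x1 x2 h1 h2 => rw [add_mul, map_add, map_add, h1, h2, add_mul]
  | tmul r b =>
    induction y using TensorProduct.induction_on with
    | zero => simp
    | add y1 y2 h1 h2 => rw [mul_add, map_add, map_add, h1, h2, mul_add]
    | tmul r' b' =>
      rw [Algebra.TensorProduct.tmul_mul_tmul, j19063_j19063_epR_tmul, j19063_j19063_epR_tmul, j19063_j19063_epR_tmul,
        map_mul, map_mul]
      ring

lemma piR_mul (x y : R ⊗[ℚ] BN N) :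
    piR N R (x * y) = epR N R x • piR N R y + epR N R y • piR N R x := by
  induction x using TensorProduct.induction_on with
  | zero => simp
  | add x1 x2 h1 h2 =>
    rw [add_mul, map_add, map_add, h1, h2, add_smul, map_add, smul_add]
    abel
  | tmul r b =>
    induction y using TensorProduct.induction_on with
    | zero => simp
    | add y1 y2 h1 h2 =>
      rw [mul_add, map_add, map_add, h1, h2, smul_add, map_add, add_smul]
      abel
    | tmul r' b' =>
      rw [Algebra.TensorProduct.tmul_mul_tmul, j19063_j19063_epR_tmul, j19063_j19063_epR_tmul, j19063_j19063_piR_tmul,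
        j19063_j19063_piR_tmul, j19063_j19063_piR_tmul, sndB_mul]
      ext d
      simp only [Submodule.coe_add, Submodule.coe_smul, map_add, coeff_add, coeff_smul, coeff_map,
        smul_eq_mul, map_mul]
      ring

lemma piR_mem (x : R ⊗[ℚ] BN N) : piR N R x ∈ homogeneousSubmodule (Fin 4) R N := by
  induction x using TensorProduct.induction_on with
  | zero => rw [map_zero]; exact Submodule.zero_mem _
  | add x1 x2 h1 h2 => rw [map_add]; exact Submodule.add_mem _ h1 h2
  | tmul r b =>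
    rw [j19063_j19063_piR_tmul]
    refine Submodule.smul_mem _ _ ?_
    exact IsHomogeneous.map (sndB N b).2 _

noncomputable def j19063_j19063_eB (N : ℕ) : BN N ≃ₗ[ℚ] ℚ × WN N :=
  LinearEquiv.ofBijective ((fstB N).toLinearMap.prod (sndB N)) ⟨by
    intro x y h
    have h1 := congrArg Prod.fst h
    have h2 := congrArg Prod.snd h
    exact extB h1 h2, by
    rintro ⟨q, w⟩
    obtain ⟨x, h1, h2⟩ := existsB q w
    exact ⟨x, Prod.ext h1 h2⟩⟩

/-- a basis of `BN N` -/
noncomputable def j19063_j19063_bB (N : ℕ) : Module.Basis (Unit ⊕ {d : Fin 4 →₀ ℕ // d.degree = N}) ℚ (BN N) :=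
  ((Module.Basis.singleton Unit ℚ).prod (j13489_hbasis ℚ N)).map (j19063_j19063_eB N).symm

lemma j19063_j19063_bB_inl (N : ℕ) : fstB N (j19063_j19063_bB N (Sum.inl ())) = 1 ∧
    sndB N (j19063_j19063_bB N (Sum.inl ())) = 0 := by
  have h : j19063_j19063_eB N (j19063_j19063_bB N (Sum.inl ())) = (1, 0) := by
    rw [j19063_j19063_bB, Module.Basis.map_apply, LinearEquiv.apply_symm_apply]
    simp
  exact ⟨congrArg Prod.fst h, congrArg Prod.snd h⟩

lemma j19063_j19063_bB_inr (N : ℕ) (d : {d : Fin 4 →₀ ℕ // d.degree = N}) :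
    fstB N (j19063_j19063_bB N (Sum.inr d)) = 0 ∧
    sndB N (j19063_j19063_bB N (Sum.inr d)) = j13489_hbasis ℚ N d := by
  have h : j19063_j19063_eB N (j19063_j19063_bB N (Sum.inr d)) = (0, j13489_hbasis ℚ N d) := by
    rw [j19063_j19063_bB, Module.Basis.map_apply, LinearEquiv.apply_symm_apply]
    simp
  exact ⟨congrArg Prod.fst h, congrArg Prod.snd h⟩

/-- a basis of the base change -/
noncomputable def j19063_j19063_bR (N : ℕ) (R : Type) [CommRing R] [Algebra ℚ R] :
    Module.Basis (Unit ⊕ {d : Fin 4 →₀ ℕ // d.degree = N}) R (R ⊗[ℚ] BN N) :=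
  (j19063_j19063_bB N).baseChange R

lemma j19063_j19063_bR_inl : epR N R (j19063_j19063_bR N R (Sum.inl ())) = 1 ∧
    piR N R (j19063_j19063_bR N R (Sum.inl ())) = 0 := by
  rw [j19063_j19063_bR, Module.Basis.baseChange_apply, j19063_j19063_epR_tmul, j19063_j19063_piR_tmul,
    (j19063_j19063_bB_inl N).1, (j19063_j19063_bB_inl N).2]
  simp

lemma j19063_j19063_bR_inr (d : {d : Fin 4 →₀ ℕ // d.degree = N}) :
    epR N R (j19063_j19063_bR N R (Sum.inr d)) = 0 ∧
    piR N R (j19063_j19063_bR N R (Sum.inr d)) = monomial d.1 1 := by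
  rw [j19063_j19063_bR, Module.Basis.baseChange_apply, j19063_j19063_epR_tmul, j19063_j19063_piR_tmul,
    (j19063_j19063_bB_inr N d).1, (j19063_j19063_bB_inr N d).2, j13489_hbasis_apply]
  simp

lemma j19063_j19063_ep_eq (x : R ⊗[ℚ] BN N) : epR N R x = (j19063_j19063_bR N R).repr x (Sum.inl ()) := by
  classical
  have h : epR N R = (j19063_j19063_bR N R).coord (Sum.inl ()) := by
    refine (j19063_j19063_bR N R).ext (fun i => ?_)
    rw [Module.Basis.coord_apply, Module.Basis.repr_self, Finsupp.single_apply]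
    rcases i with u | d
    · cases u
      rw [j19063_j19063_bR_inl.1, if_pos rfl]
    · rw [(j19063_j19063_bR_inr d).1, if_neg (by simp)]
  rw [h]
  rfl

lemma j19063_j19063_pi_eq (x : R ⊗[ℚ] BN N) (d : {d : Fin 4 →₀ ℕ // d.degree = N}) :
    coeff d.1 (piR N R x) = (j19063_j19063_bR N R).repr x (Sum.inr d) := by
  classical
  have h : (MvPolynomial.lcoeff R d.1).comp (piR N R) = (j19063_j19063_bR N R).coord (Sum.inr d) := by
    refine (j19063_j19063_bR N R).ext (fun i => ?_)
    rw [Module.Basis.coord_apply, Module.Basis.repr_self, Finsupp.single_apply,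
      LinearMap.comp_apply, MvPolynomial.lcoeff_apply]
    rcases i with u | d'
    · cases u
      rw [j19063_j19063_bR_inl.2, if_neg (by simp), coeff_zero]
    · rw [(j19063_j19063_bR_inr d').2, coeff_monomial]
      by_cases hd : d' = d
      · subst hd
        simp
      · have h1 : ¬ (d'.1 = d.1) := fun h => hd (Subtype.ext h)
        rw [if_neg h1, if_neg (by simpa using hd)]
  have h2 := congrArg (fun f => f x) h
  exact h2

lemma eq_zero_of_ep_pi {x : R ⊗[ℚ] BN N} (h1 : epR N R x = 0) (h2 : piR N R x = 0) : x = 0 := by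
  rw [← (j19063_j19063_bR N R).repr.map_eq_zero_iff]
  ext i
  rcases i with u | d
  · cases u
    rw [← j19063_j19063_ep_eq, h1]
    rfl
  · rw [← j19063_j19063_pi_eq, h2, coeff_zero]
    rfl

lemma exists_of_ep_pi (r : R) {F : S R} (hF : F ∈ homogeneousSubmodule (Fin 4) R N) :
    ∃ x : R ⊗[ℚ] BN N, epR N R x = r ∧ piR N R x = F := by
  let L : homogeneousSubmodule (Fin 4) R N →ₗ[R] R ⊗[ℚ] BN N :=
    (j13489_hbasis R N).constr R (fun d => j19063_j19063_bR N R (Sum.inr d))
  have h1 : (piR N R).comp L = (homogeneousSubmodule (Fin 4) R N).subtype := by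
    refine (j13489_hbasis R N).ext (fun d => ?_)
    rw [LinearMap.comp_apply, Module.Basis.constr_basis, (j19063_j19063_bR_inr d).2,
      j13489_hbasis_apply]
    rfl
  have h2 : (epR N R).comp L = 0 := by
    refine (j13489_hbasis R N).ext (fun d => ?_)
    rw [LinearMap.comp_apply, Module.Basis.constr_basis, (j19063_j19063_bR_inr d).1]
    rfl
  refine ⟨r • j19063_j19063_bR N R (Sum.inl ()) + L ⟨F, hF⟩, ?_, ?_⟩
  · have h3 : epR N R (L ⟨F, hF⟩) = 0 := congrArg (fun f => f ⟨F, hF⟩) h2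
    rw [map_add, map_smul, j19063_j19063_bR_inl.1, h3, add_zero, smul_eq_mul, mul_one]
  · have h3 : piR N R (L ⟨F, hF⟩) = F := congrArg (fun f => f ⟨F, hF⟩) h1
    rw [map_add, map_smul, j19063_j19063_bR_inl.2, h3, smul_zero, zero_add]

/-- the space of forms of an ideal -/
noncomputable def VJ (J : Ideal (R ⊗[ℚ] BN N)) : Submodule R (S R) :=
  (J.restrictScalars R).map (piR N R)

/-- the ideal of scalar parts of an ideal -/
noncomputable def eJ (J : Ideal (R ⊗[ℚ] BN N)) : Ideal R := (J.restrictScalars R).map (epR N R)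

/-- the ideal of a space of forms -/
noncomputable def JV (N : ℕ) (V : Submodule R (S R)) : Ideal (R ⊗[ℚ] BN N) where
  carrier := {x | epR N R x = 0 ∧ piR N R x ∈ V}
  zero_mem' := by simp
  add_mem' := by
    rintro x y ⟨h1, h2⟩ ⟨h3, h4⟩
    exact ⟨by rw [map_add, h1, h3, add_zero], by rw [map_add]; exact V.add_mem h2 h4⟩
  smul_mem' := by
    rintro a x ⟨h1, h2⟩
    refine ⟨by rw [smul_eq_mul, epR_mul, h1, mul_zero], ?_⟩
    rw [smul_eq_mul, piR_mul, h1, zero_smul, add_zero]
    exact V.smul_mem _ h2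

lemma mem_JV {V : Submodule R (S R)} {x : R ⊗[ℚ] BN N} :
    x ∈ JV N V ↔ epR N R x = 0 ∧ piR N R x ∈ V := Iff.rfl

lemma VJ_JV {V : Submodule R (S R)} (hV : V ≤ homogeneousSubmodule (Fin 4) R N) :
    VJ (JV N V) = V := by
  ext F
  constructor
  · rintro ⟨x, hx, rfl⟩
    exact hx.2
  · intro hF
    obtain ⟨x, h1, h2⟩ := exists_of_ep_pi 0 (hV hF)
    exact ⟨x, ⟨h1, by rw [h2]; exact hF⟩, h2⟩

lemma eJ_JV (V : Submodule R (S R)) : eJ (JV N V) = ⊥ := by
  rw [eq_bot_iff]
  rintro _ ⟨x, hx, rfl⟩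
  exact hx.1

lemma VJ_le (J : Ideal (R ⊗[ℚ] BN N)) : VJ J ≤ homogeneousSubmodule (Fin 4) R N := by
  rintro _ ⟨x, -, rfl⟩
  exact piR_mem x

lemma JV_VJ {J : Ideal (R ⊗[ℚ] BN N)} (h : eJ J = ⊥) : JV N (VJ J) = J := by
  have h0 : ∀ y ∈ J, epR N R y = 0 := by
    intro y hy
    have : epR N R y ∈ eJ J := ⟨y, hy, rfl⟩
    rw [h] at this
    exact this
  ext x
  constructor
  · rintro ⟨h1, y, hy, h2⟩
    have h3 : x - y = 0 := by
      apply eq_zero_of_ep_pi
      · rw [map_sub, h1, h0 y hy, sub_zero]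
      · rw [map_sub, h2, sub_self]
    rw [sub_eq_zero.1 h3]
    exact hy
  · intro hx
    exact ⟨h0 x hx, ⟨x, hx, rfl⟩⟩

variable {R' : Type} [CommRing R'] [Algebra ℚ R']

lemma epR_bc (φ : R →ₐ[ℚ] R') (x : R ⊗[ℚ] BN N) :
    epR N R' (Algebra.TensorProduct.map φ (AlgHom.id ℚ (BN N)) x) = φ (epR N R x) := by
  induction x using TensorProduct.induction_on with
  | zero => simp
  | add a b ha hb => rw [map_add, map_add, map_add, map_add, ha, hb]
  | tmul r b =>
    rw [Algebra.TensorProduct.map_tmul]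
    unfold epR
    rw [LinearMap.liftBaseChange_tmul, LinearMap.liftBaseChange_tmul]
    simp

lemma piR_bc (φ : R →ₐ[ℚ] R') (x : R ⊗[ℚ] BN N) :
    piR N R' (Algebra.TensorProduct.map φ (AlgHom.id ℚ (BN N)) x) = MvPolynomial.map φ.toRingHom (piR N R x) := by
  induction x using TensorProduct.induction_on with
  | zero => simp
  | add a b ha hb => rw [map_add, map_add, map_add, map_add, ha, hb]
  | tmul r b =>
    rw [Algebra.TensorProduct.map_tmul]
    unfold piR
    rw [LinearMap.liftBaseChange_tmul, LinearMap.liftBaseChange_tmul]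
    have h1 : ∀ (r : R) (p : S R), MvPolynomial.map φ.toRingHom (r • p) =
        φ r • MvPolynomial.map φ.toRingHom p := by
      intro r p
      rw [MvPolynomial.smul_eq_C_mul, map_mul, MvPolynomial.map_C, MvPolynomial.smul_eq_C_mul]
      rfl
    rw [h1]
    congr 1
    simp only [LinearMap.comp_apply, AlgHom.toLinearMap_apply, MvPolynomial.mapAlgHom_apply,
      AlgHom.id_apply]
    rw [MvPolynomial.map_map]
    congr 1
    congr 1
    exact Subsingleton.elim _ _

lemma j19083_mapJ_span (φ : R →ₐ[ℚ] R') (J : Ideal (R ⊗[ℚ] BN N)) :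
    (J.map (Algebra.TensorProduct.map φ (AlgHom.id ℚ (BN N)))).restrictScalars R' =
      Submodule.span R' ((fun x => Algebra.TensorProduct.map φ (AlgHom.id ℚ (BN N)) x) ''
        (J : Set (R ⊗[ℚ] BN N))) := by
  apply le_antisymm
  · intro x hx
    rw [Submodule.restrictScalars_mem] at hx
    unfold Ideal.map at hx
    induction hx using Submodule.span_induction with
    | mem x hx => exact Submodule.subset_span hx
    | zero => exact Submodule.zero_mem _
    | add x y _ _ hx hy => exact Submodule.add_mem _ hx hy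
    | smul a x h0 hx =>
      clear h0
      rw [smul_eq_mul]
      induction a using TensorProduct.induction_on with
      | zero => rw [zero_mul]; exact Submodule.zero_mem _
      | add a b ha hb => rw [add_mul]; exact Submodule.add_mem _ ha hb
      | tmul r b =>
        induction hx using Submodule.span_induction with
        | mem x hx =>
          obtain ⟨y, hy, rfl⟩ := hx
          have h1 : (r ⊗ₜ[ℚ] b : R' ⊗[ℚ] BN N) *
              Algebra.TensorProduct.map φ (AlgHom.id ℚ (BN N)) y =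
              r • Algebra.TensorProduct.map φ (AlgHom.id ℚ (BN N)) ((1 ⊗ₜ[ℚ] b) * y) := by
            rw [map_mul, Algebra.TensorProduct.map_tmul, map_one, AlgHom.id_apply,
              ← smul_mul_assoc, TensorProduct.smul_tmul', smul_eq_mul, mul_one]
          show (r ⊗ₜ[ℚ] b : R' ⊗[ℚ] BN N) *
              Algebra.TensorProduct.map φ (AlgHom.id ℚ (BN N)) y ∈ _
          rw [h1]
          exact Submodule.smul_mem _ _ (Submodule.subset_span ⟨_, J.mul_mem_left _ hy, rfl⟩)
        | zero => rw [mul_zero]; exact Submodule.zero_mem _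
        | add x y _ _ hx hy => rw [mul_add]; exact Submodule.add_mem _ hx hy
        | smul s x _ hx => rw [mul_smul_comm]; exact Submodule.smul_mem _ _ hx
  · rw [Submodule.span_le]
    rintro _ ⟨y, hy, rfl⟩
    exact Ideal.mem_map_of_mem _ hy

lemma eJ_map (φ : R →ₐ[ℚ] R') (J : Ideal (R ⊗[ℚ] BN N)) :
    eJ (J.map (Algebra.TensorProduct.map φ (AlgHom.id ℚ (BN N)))) = (eJ J).map φ.toRingHom := by
  unfold eJ
  rw [j19083_mapJ_span, Submodule.map_span]
  unfold Ideal.map
  show Submodule.span R' _ = Submodule.span R' _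
  congr 1
  ext z
  constructor
  · rintro ⟨_, ⟨y, hy, rfl⟩, rfl⟩
    exact ⟨epR N R y, ⟨y, hy, rfl⟩, (epR_bc φ y).symm⟩
  · rintro ⟨_, ⟨y, hy, rfl⟩, rfl⟩
    exact ⟨_, ⟨y, hy, rfl⟩, epR_bc φ y⟩

lemma VJ_map (φ : R →ₐ[ℚ] R') (J : Ideal (R ⊗[ℚ] BN N)) :
    VJ (J.map (Algebra.TensorProduct.map φ (AlgHom.id ℚ (BN N)))) = bcV φ.toRingHom (VJ J) := by
  unfold VJ bcV
  rw [j19083_mapJ_span, Submodule.map_span]
  congr 1
  ext z
  constructor
  · rintro ⟨_, ⟨y, hy, rfl⟩, rfl⟩
    exact ⟨piR N R y, ⟨y, hy, rfl⟩, (piR_bc φ y).symm⟩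
  · rintro ⟨_, ⟨y, hy, rfl⟩, rfl⟩
    exact ⟨_, ⟨y, hy, rfl⟩, piR_bc φ y⟩

lemma quot_JV {V : Submodule R (S R)} (hV : V ≤ homogeneousSubmodule (Fin 4) R N) {r : ℕ} :
    (Module.Finite R ((R ⊗[ℚ] BN N) ⧸ JV N V) ∧ Module.Projective R ((R ⊗[ℚ] BN N) ⧸ JV N V) ∧
      ∀ p : PrimeSpectrum R, Module.rankAtStalk (R := R) ((R ⊗[ℚ] BN N) ⧸ JV N V) p = 1 + r) ↔
      LFr R (Ideal.span (V : Set (S R))) N r := by
  obtain ⟨g, hg⟩ : ∃ g : (R ⊗[ℚ] BN N) →ₗ[R] grPart R (Ideal.span (V : Set (S R))) N,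
      ∀ x, ((g x : grPart R (Ideal.span (V : Set (S R))) N) : S R ⧸ Ideal.span (V : Set (S R))) =
        Ideal.Quotient.mk _ (piR N R x) :=
    ⟨((Ideal.Quotient.mkₐ R (Ideal.span (V : Set (S R)))).toLinearMap.comp (piR N R)).codRestrict
      _ (fun x => ⟨piR N R x, piR_mem x, rfl⟩), fun x => rfl⟩
  have hsurj : Function.Surjective ((epR N R).prod g) := by
    rintro ⟨r0, ⟨y, F, hF, hFy⟩⟩
    obtain ⟨x, hx1, hx2⟩ := exists_of_ep_pi (N := N) r0 hF
    refine ⟨x, ?_⟩
    apply Prod.ext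
    · exact hx1
    · apply Subtype.ext
      show ((g x : grPart R (Ideal.span (V : Set (S R))) N) :
        S R ⧸ Ideal.span (V : Set (S R))) = y
      rw [hg, hx2]
      exact hFy
  have hker : (JV N V).restrictScalars R = LinearMap.ker ((epR N R).prod g) := by
    ext x
    rw [Submodule.restrictScalars_mem, mem_JV, LinearMap.mem_ker]
    have h1 : ((epR N R).prod g) x = 0 ↔ epR N R x = 0 ∧ g x = 0 := Prod.ext_iff
    have h2 : g x = 0 ↔ piR N R x ∈ V := by
      rw [← Subtype.coe_inj, hg]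
      show Ideal.Quotient.mk _ (piR N R x) = 0 ↔ _
      rw [Ideal.Quotient.eq_zero_iff_mem]
      have h3 := dgR_span hV
      constructor
      · intro h
        rw [← h3]
        exact ⟨h, piR_mem x⟩
      · intro h
        exact Ideal.subset_span h
    rw [h1, h2]
  have e : ((R ⊗[ℚ] BN N) ⧸ JV N V) ≃ₗ[R] (R × grPart R (Ideal.span (V : Set (S R))) N) :=
    (Submodule.Quotient.restrictScalarsEquiv R (JV N V)).symm ≪≫ₗ
      (Submodule.quotEquivOfEq _ _ hker) ≪≫ₗ
      (((epR N R).prod g).quotKerEquivOfSurjective hsurj)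
  have hfin : Module.Finite R (grPart R (Ideal.span (V : Set (S R))) N) :=
    j13489_grPart_finite R _ N
  have hrk : Module.Projective R (grPart R (Ideal.span (V : Set (S R))) N) →
      ∀ p : PrimeSpectrum R, Module.rankAtStalk (R := R) ((R ⊗[ℚ] BN N) ⧸ JV N V) p =
        1 + Module.rankAtStalk (R := R) (grPart R (Ideal.span (V : Set (S R))) N) p := by
    intro hproj p
    rcases subsingleton_or_nontrivial R with h | h
    · exact absurd (Subsingleton.elim p.asIdeal ⊤) p.2.ne_top
    · rw [Module.rankAtStalk_eq_of_equiv e, Module.rankAtStalk_prod, Module.rankAtStalk_self]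
      rfl
  constructor
  · rintro ⟨_, hP, hr⟩
    have h1 : Module.Projective R (R × grPart R (Ideal.span (V : Set (S R))) N) :=
      Module.Projective.of_equiv e
    have h2 : Module.Projective R (grPart R (Ideal.span (V : Set (S R))) N) :=
      Module.Projective.of_split (LinearMap.inr R R _) (LinearMap.snd R R _)
        (LinearMap.snd_comp_inr R R _)
    refine ⟨h2, fun p => ?_⟩
    have h3 := hr p
    rw [hrk h2 p] at h3
    omega
  · rintro ⟨hP, hr⟩
    refine ⟨Module.Finite.equiv e.symm, Module.Projective.of_equiv e.symm, fun p => ?_⟩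
    rw [hrk hP p, hr p]

open Pool.Agent.Helper226 in
lemma locBas_JV {V : Submodule R (S R)} (hV : V ≤ homogeneousSubmodule (Fin 4) R N) {r : ℕ} :
    LocBas ℚ (1 + r) (JV N V) ↔ LFr R (Ideal.span (V : Set (S R))) N r := by
  rw [← quot_JV hV]
  exact ⟨fun h => h.spec, fun h => locBas_of_spec h.1 h.2.1 h.2.2⟩

end chart

end Pool.Agent.Helper924.HS
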