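import Mathlib
import Pool.Agent.Helper924.HX.Chart

set_option autoImplicit false

open CategoryTheory CategoryTheory.Limits AlgebraicGeometry MvPolynomial
open scoped TensorProduct
open Pool.Agent.Helper226

namespace Pool.Agent.Helper924.HS

lemma bound_choose {d c m : ℕ} (h : c + d ^ 2 ≤ m) : d * m + c ≤ (m + 3).choose 3 := by
  have h1 : (m + 3).choose 3 = (m + 2).choose 2 + (m + 2).choose 3 := Nat.choose_succ_succ _ _
  have h2 : (m + 2).choose 2 * 2 = (m + 2) * (m + 1) := by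
    have := Nat.add_one_mul_choose_eq (m + 1) 1
    rw [Nat.choose_one_right] at this
    exact this.symm
  have h3 : 2 * d ≤ d ^ 2 + 1 := by nlinarith [sq_nonneg ((d : ℤ) - 1)]
  have h4 : 2 * d * m ≤ (d ^ 2 + 1) * m := Nat.mul_le_mul_right m h3
  have h5 : (d ^ 2 + 1) * m + c * m ≤ (m + 1) * m := by
    rw [← add_mul]
    exact Nat.mul_le_mul_right m (by omega)
  have h6 : c ≤ m := by omega
  have h7 : 0 ≤ c * m := Nat.zero_le _
  rw [h1]
  nlinarith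

section ex
variable {d c N : ℕ} {R : Type} [CommRing R] [Algebra ℚ R]

/-- the closed condition -/
noncomputable def aJ (d c : ℕ) {N : ℕ} (J : Ideal (R ⊗[ℚ] BN N)) : Ideal R :=
  eJ J ⊔ aV d c N (VJ J)

lemma aJ_map {R' : Type} [CommRing R'] [Algebra ℚ R'] (φ : R →ₐ[ℚ] R')
    (J : Ideal (R ⊗[ℚ] BN N)) : aJ d c (J.map (bc (BN N) φ)) = (aJ d c J).map φ.toRingHom := by
  unfold aJ
  rw [Ideal.map_sup, eJ_map, VJ_map, aV_map _ (VJ_le J)]

lemma VG_of_J (hN : c + d ^ 2 ≤ N) {J : Ideal (R ⊗[ℚ] BN N)}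
    (h : LocBas ℚ (1 + (d * N + c)) J ∧ aJ d c J = ⊥) : VG d c N R (VJ J) ∧ JV N (VJ J) = J := by
  obtain ⟨h1, h2⟩ := sup_eq_bot_iff.1 h.2
  have h3 := JV_VJ h1
  refine ⟨VG_of_aV hN (fun m hm => bound_choose (by omega)) (VJ_le J) ?_ h2, h3⟩
  rw [← locBas_JV (VJ_le J), h3]
  exact h.1

lemma J_of_VG {V : Submodule R (S R)} (h : VG d c N R V) :
    LocBas ℚ (1 + (d * N + c)) (JV N V) ∧ aJ d c (JV N V) = ⊥ := by
  refine ⟨(locBas_JV h.1).2 (h.2 N le_rfl), ?_⟩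
  unfold aJ
  rw [eJ_JV, VJ_JV h.1, aV_of_VG h, sup_bot_eq]

/-- spaces of forms and families -/
noncomputable def famEquiv (hN : c + d ^ 2 ≤ N) (R : Type) [CommRing R] [Algebra ℚ R] :
    {J : Ideal (R ⊗[ℚ] BN N) // LocBas ℚ (1 + (d * N + c)) J ∧ aJ d c J = ⊥} ≃
      HilbFam d (1 - (c : ℤ)) R where
  toFun J := ⟨satur R (Ideal.span (VJ J.1 : Set (S R))), (mem_of_VG hN (VG_of_J hN J.2).1).1⟩
  invFun I := ⟨JV N (dgR I.1 N), J_of_VG (VG_of_mem hN I.2).1⟩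
  left_inv J := by
    apply Subtype.ext
    change JV N (dgR (satur R (Ideal.span (VJ J.1 : Set (S R)))) N) = J.1
    rw [(mem_of_VG hN (VG_of_J hN J.2).1).2.1]
    exact (VG_of_J hN J.2).2
  right_inv I := by
    apply Subtype.ext
    change satur R (Ideal.span (VJ (JV N (dgR I.1 N)) : Set (S R))) = I.1
    rw [VJ_JV (VG_of_mem hN I.2).1.1]
    exact (VG_of_mem hN I.2).2

lemma famEquiv_natural (hN : c + d ^ 2 ≤ N) {R' : Type} [CommRing R'] [Algebra ℚ R']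
    (φ : R →ₐ[ℚ] R')
    (J : {J : Ideal (R ⊗[ℚ] BN N) // LocBas ℚ (1 + (d * N + c)) J ∧ aJ d c J = ⊥})
    (J' : {J : Ideal (R' ⊗[ℚ] BN N) // LocBas ℚ (1 + (d * N + c)) J ∧ aJ d c J = ⊥})
    (h : J'.1 = J.1.map (bc (BN N) φ)) :
    (famEquiv hN R' J').1 =
      satur R' ((famEquiv hN R J).1.map (MvPolynomial.map (σ := Fin 4) φ.toRingHom)) := by
  change satur R' (Ideal.span (VJ J'.1 : Set (S R'))) = satur R'
    ((satur R (Ideal.span (VJ J.1 : Set (S R)))).map (MvPolynomial.map (σ := Fin 4) φ.toRingHom))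
  rw [satur_bcV φ.toRingHom hN (VG_of_J hN J.2).1, h, VJ_map]

end ex

/-- The Hilbert scheme exists. -/
theorem exists_hilb (d c : ℕ) : Nonempty (HilbP3 d (1 - (c : ℤ))) := by
  let N := c + d ^ 2
  have hN : c + d ^ 2 ≤ N := le_rfl
  let H0 : Scheme.{0} := HilbS ℚ (BN N) (1 + (d * N + c))
  let s0 : H0 ⟶ Spec (CommRingCat.of ℚ) := HilbS.str ℚ (BN N) (1 + (d * N + c))
  let E : ∀ (R : Type) [CommRing R] [Algebra ℚ R], PointsOver H0 s0 R ≃
    {I : Ideal (R ⊗[ℚ] BN N) // LocBas ℚ (1 + (d * N + c)) I} := fun R _ _ => homEquiv ℚ R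
  have hE : ∀ (R R' : Type) [CommRing R] [Algebra ℚ R] [CommRing R'] [Algebra ℚ R']
      (φ : R →ₐ[ℚ] R') (f : PointsOver H0 s0 R) (f' : PointsOver H0 s0 R'),
      f'.1 = Spec.map (CommRingCat.ofHom φ.toRingHom) ≫ f.1 →
        (E R' f').1 = (E R f).1.map (bc (BN N) φ) := by
    rintro R R' _ _ _ _ φ f ⟨f', hf'⟩ rfl
    exact homEquiv_natural ℚ φ f hf'
  obtain ⟨H, ι, hι, hH⟩ := exists_closed H0 s0 (fun R _ _ f => aJ d c (E R f).1) (by
    intro R R' _ _ _ _ φ f f' h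
    rw [hE R R' φ f f' h]
    exact aJ_map φ _)
  -- points of the closed subscheme
  let P : ∀ (R : Type) [CommRing R] [Algebra ℚ R], PointsOver H (ι ≫ s0) R →
      PointsOver H0 s0 R := fun R _ _ f => ⟨f.1 ≫ ι, by rw [Category.assoc]; exact f.2⟩
  let Ψ : ∀ (R : Type) [CommRing R] [Algebra ℚ R], PointsOver H (ι ≫ s0) R →
      {J : Ideal (R ⊗[ℚ] BN N) // LocBas ℚ (1 + (d * N + c)) J ∧ aJ d c J = ⊥} :=
    fun R _ _ f => ⟨(E R (P R f)).1, (E R (P R f)).2, (hH R (P R f)).1 ⟨f.1, rfl⟩⟩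
  have hΨ : ∀ (R : Type) [CommRing R] [Algebra ℚ R], Function.Bijective (Ψ R) := by
    intro R _ _
    constructor
    · intro f f' hff
      apply Subtype.ext
      have h0 : (Ψ R f).1 = (Ψ R f').1 := by rw [hff]
      have h1 : E R (P R f) = E R (P R f') := Subtype.ext h0
      have h2 : f.1 ≫ ι = f'.1 ≫ ι := congrArg Subtype.val ((E R).injective h1)
      exact (cancel_mono ι).1 h2
    · rintro ⟨J, hJ1, hJ2⟩
      have h1 : E R ((E R).symm ⟨J, hJ1⟩) = ⟨J, hJ1⟩ := Equiv.apply_symm_apply _ _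
      obtain ⟨g, hg⟩ := (hH R ((E R).symm ⟨J, hJ1⟩)).2 (by
        change aJ d c (E R ((E R).symm ⟨J, hJ1⟩)).1 = ⊥
        rw [h1]; exact hJ2)
      refine ⟨⟨g, ?_⟩, ?_⟩
      · rw [← Category.assoc, hg]
        exact ((E R).symm ⟨J, hJ1⟩).2
      · apply Subtype.ext
        change (E R (P R ⟨g, _⟩)).1 = J
        have h2 : P R ⟨g, by rw [← Category.assoc, hg]; exact ((E R).symm ⟨J, hJ1⟩).2⟩ =
          (E R).symm ⟨J, hJ1⟩ := Subtype.ext hg
        rw [h2, h1]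
  exact ⟨{
    H := H
    s := ι ≫ s0
    Φ := fun R _ _ => (Equiv.ofBijective (Ψ R) (hΨ R)).trans (famEquiv hN R)
    natural := by
      intro R R' _ _ _ _ φ f f' hff
      refine famEquiv_natural hN φ (Ψ R f) (Ψ R' f') ?_
      refine hE R R' φ (P R f) (P R' f') ?_
      change f'.1 ≫ ι = _ ≫ f.1 ≫ ι
      rw [hff, Category.assoc] }⟩

end Pool.Agent.Helper924.HS
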